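import Mathlib

/-!
# Gossip: definitions
-/

set_option autoImplicit false

namespace Gossip

open scoped ENNReal

variable {n : ℕ}

/-- The min-plus product of two `n × n` matrices with entries in `[0, ∞]`. -/
noncomputable def mul (A B : Fin n → Fin n → ℝ≥0∞) : Fin n → Fin n → ℝ≥0∞ :=
  fun i j => ⨅ m, A i m + B m j

/-- The lossy phone call matrix `C_kl(a)`. -/
noncomputable def call (k l : Fin n) (a : ℝ≥0∞) : Fin n → Fin n → ℝ≥0∞ :=
  fun i j => if i = j then 0 else if (i = k ∧ j = l) ∨ (i = l ∧ j = k) then a else ⊤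

/-- The min-plus product of the calls of a list of triples `(k, l, a)`, in this order; the empty
product is the tropical identity matrix. -/
noncomputable def prod : List (Fin n × Fin n × ℝ≥0∞) → Fin n → Fin n → ℝ≥0∞
  | [] => fun i j => if i = j then 0 else ⊤
  | c :: w => mul (call c.1 c.2.1 c.2.2) (prod w)

/-- the tropical identity matrix -/
noncomputable def one : Fin n → Fin n → ℝ≥0∞ := fun i j => if i = j then 0 else ⊤

/-- the letters `a, ..., b - 1` -/
def wd (K L : ℕ → Fin n) (β : ℕ → ℝ≥0∞) (a b : ℕ) : List (Fin n × Fin n × ℝ≥0∞) :=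
  (List.range' a (b - a)).map fun s => (K s, L s, β s)

/-- the product of the letters `a, ..., b - 1` -/
noncomputable def T (K L : ℕ → Fin n) (β : ℕ → ℝ≥0∞) (a b : ℕ) : Fin n → Fin n → ℝ≥0∞ :=
  prod (wd K L β a b)

/-- `s` is a call between `k` and `l` -/
def Bet (K L : ℕ → Fin n) (s : ℕ) (k l : Fin n) : Prop := (k = K s ∧ l = L s) ∨ (k = L s ∧ l = K s)

end Gossip
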