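import Mathlib
import Pool.Agent.Lib.MP_8f6a89_co.Base

/-!
# Gossip: min-plus products
-/

set_option autoImplicit false

namespace Gossip

open scoped ENNReal

variable {n : ℕ}

/-- `ENNReal.iInf_add`, `ENNReal.add_iInf`, `iInf_comm`, `add_assoc`. -/
theorem mul_assoc' (A B C : Fin n → Fin n → ℝ≥0∞) : mul (mul A B) C = mul A (mul B C) := by
  funext i j
  simp only [mul, ENNReal.iInf_add, ENNReal.add_iInf]
  rw [iInf_comm]
  simp only [add_assoc]

theorem one_mul' (A : Fin n → Fin n → ℝ≥0∞) : mul one A = A := by
  funext i j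
  refine le_antisymm (iInf_le_of_le i ?_) (le_iInf fun m => ?_)
  · simp [one]
  · by_cases h : i = m
    · subst h
      simp [one]
    · simp [one, h]

theorem mul_one' (A : Fin n → Fin n → ℝ≥0∞) : mul A one = A := by
  funext i j
  refine le_antisymm (iInf_le_of_le j ?_) (le_iInf fun m => ?_)
  · simp [one]
  · by_cases h : m = j
    · subst h
      simp [one]
    · simp [one, h]

/-- Induction on `u`, `mul_assoc'`, `one_mul'`. -/
theorem prod_append (u v : List (Fin n × Fin n × ℝ≥0∞)) : prod (u ++ v) = mul (prod u) (prod v) := by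
  induction u with
  | nil => exact (one_mul' (prod v)).symm
  | cons c w ih =>
    show mul (call c.1 c.2.1 c.2.2) (prod (w ++ v)) = mul (mul (call c.1 c.2.1 c.2.2) (prod w)) (prod v)
    rw [ih, mul_assoc']

section
variable (K L : ℕ → Fin n) (β : ℕ → ℝ≥0∞)

/-- `List.range'_append_1` (or similar), `List.map_append`, `prod_append`. -/
theorem T_split {a b c : ℕ} (hab : a ≤ b) (hbc : b ≤ c) :
    T K L β a c = mul (T K L β a b) (T K L β b c) := by
  have h : wd K L β a c = wd K L β a b ++ wd K L β b c := by
    have h1 : c - a = (b - a) + (c - b) := by omega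
    have h2 : List.range' a (c - a) = List.range' a (b - a) ++ List.range' b (c - b) := by
      rw [h1, ← List.range'_append_1]
      congr 2
      omega
    rw [wd, wd, wd, h2, List.map_append]
  rw [T, T, T, h, prod_append]

theorem T_self (a : ℕ) : T K L β a a = one := by
  rw [T, wd, Nat.sub_self]
  rfl

theorem T_one (s : ℕ) : T K L β s (s + 1) = call (K s) (L s) (β s) := by
  rw [T, wd, Nat.add_sub_cancel_left]
  exact mul_one' _

end

end Gossip
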