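import Mathlib
import Pool.Agent.Lib.MP_8f6a89_co.TrA

/-!
# Gossip: splitting, diagonal, positivity
-/

set_option autoImplicit false

namespace Gossip

open scoped ENNReal

variable {n : ℕ} (K L : ℕ → Fin n) (β : ℕ → ℝ≥0∞)

/-- `T_split` and `iInf_le`. -/
theorem T_le {a b c : ℕ} (hab : a ≤ b) (hbc : b ≤ c) (i m j : Fin n) :
    T K L β a c i j ≤ T K L β a b i m + T K L β b c m j := by
  rw [T_split K L β hab hbc]
  exact iInf_le _ m

/-- `T_split` and `exists_eq_ciInf_of_finite`. -/
theorem T_exists {a b c : ℕ} (hab : a ≤ b) (hbc : b ≤ c) (i j : Fin n) :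
    ∃ m, T K L β a c i j = T K L β a b i m + T K L β b c m j := by
  have : Nonempty (Fin n) := ⟨i⟩
  obtain ⟨m, hm⟩ := exists_eq_ciInf_of_finite (f := fun m => T K L β a b i m + T K L β b c m j)
  refine ⟨m, ?_⟩
  rw [T_split K L β hab hbc]
  exact hm.symm

/-- Induction on `b - a`; the diagonal of `call` is `0` (`T_le` with `m = i`). -/
theorem T_diag (a b : ℕ) (i : Fin n) : T K L β a b i i = 0 := by
  rcases le_total a b with h | h
  · induction b, h using Nat.le_induction with
    | base => rw [T_self]; exact if_pos rfl
    | succ b h ih =>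
      refine le_antisymm ?_ bot_le
      refine (T_le K L β h (Nat.le_succ b) i i i).trans ?_
      rw [ih, T_one, zero_add]
      exact le_of_eq (if_pos rfl)
  · have e : T K L β a b = one := by
      unfold T wd
      rw [Nat.sub_eq_zero_of_le h]
      rfl
    rw [e]
    exact if_pos rfl

/-- `T_le` with `m = i`, `T_diag`. -/
theorem T_mono_left {a b c : ℕ} (hab : a ≤ b) (hbc : b ≤ c) (i j : Fin n) :
    T K L β a c i j ≤ T K L β b c i j := by
  have h := T_le K L β hab hbc i i j
  rwa [T_diag, zero_add] at h

theorem T_mono_right {a b c : ℕ} (hab : a ≤ b) (hbc : b ≤ c) (i j : Fin n) :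
    T K L β a c i j ≤ T K L β a b i j := by
  have h := T_le K L β hab hbc i j j
  rwa [T_diag K L β b c j, add_zero] at h

/-- Positive weights: entries off the diagonal are positive. Induction on `b - a` (`Nat.le_induction`), `T_exists` with
the splitting `a, b, b + 1`: `T a (b+1) i j = T a b i m + call m j`; if `m ≠ i` the first summand is positive, if
`m = i ≠ j` the second one is `β b` or `⊤`. For `b ≤ a` the matrix is `one`. -/
theorem T_pos (hβ : ∀ s, 0 < β s) (a b : ℕ) {i j : Fin n} (hij : i ≠ j) : 0 < T K L β a b i j := by
  rcases le_total a b with h | h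
  · induction b, h using Nat.le_induction generalizing j with
    | base =>
      rw [T_self]
      unfold one
      rw [if_neg hij]
      exact ENNReal.zero_lt_top
    | succ b h ih =>
      obtain ⟨m, hm⟩ := T_exists K L β h (Nat.le_succ b) i j
      rw [hm]
      by_cases hmi : i = m
      · subst hmi
        refine lt_of_lt_of_le ?_ le_add_self
        rw [T_one]
        unfold call
        rw [if_neg hij]
        split_ifs
        · exact hβ b
        · exact ENNReal.zero_lt_top
      · exact lt_of_lt_of_le (ih hmi) le_self_add
  · have e : T K L β a b = one := by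
      unfold T wd
      rw [Nat.sub_eq_zero_of_le h]
      rfl
    rw [e]
    unfold one
    rw [if_neg hij]
    exact ENNReal.zero_lt_top

end Gossip
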