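import Mathlib
import Pool.Agent.Lib.MP_8f6a89_co.TrB

/-!
# Gossip: first letter
-/

set_option autoImplicit false

namespace Gossip

open scoped ENNReal

variable {n : ℕ} (K L : ℕ → Fin n) (β : ℕ → ℝ≥0∞)

theorem TrC_aux1 {s c : ℕ} (hs : s < c) (i j : Fin n) :
    T K L β s c i j = ⨅ m, call (K s) (L s) (β s) i m + T K L β (s + 1) c m j := by
  rw [T_split K L β (Nat.le_succ s) (Nat.succ_le_of_lt hs), T_one]
  rfl

/-- First letter: `T_split` at `s + 1`, `T_one`; the infimum over `m` of `call k m + T (s+1) c m j` has only the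
terms `m = k` and `m = l` finite in the first summand. -/
theorem T_first {s c : ℕ} (hs : s < c) (hKL : K s ≠ L s) {k l : Fin n} (h : Bet K L s k l) (j : Fin n) :
    T K L β s c k j = min (T K L β (s + 1) c k j) (β s + T K L β (s + 1) c l j) := by
  rw [TrC_aux1 K L β hs]
  have hkl : k ≠ l := by
    rcases h with ⟨h1, h2⟩ | ⟨h1, h2⟩
    · rw [h1, h2]; exact hKL
    · rw [h1, h2]; exact hKL.symm
  have hc1 : call (K s) (L s) (β s) k k = 0 := if_pos rfl
  have hc2 : call (K s) (L s) (β s) k l = β s := by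
    have h1 : (k = K s ∧ l = L s) ∨ (k = L s ∧ l = K s) := h
    unfold call
    rw [if_neg hkl, if_pos h1]
  have hc3 : ∀ m, m ≠ k → m ≠ l → call (K s) (L s) (β s) k m = ⊤ := by
    intro m h1 h2
    have h3 : ¬ ((k = K s ∧ m = L s) ∨ (k = L s ∧ m = K s)) := by
      rcases h with ⟨h4, h5⟩ | ⟨h4, h5⟩
      · rintro (⟨_, h7⟩ | ⟨h6, _⟩)
        · exact h2 (h7.trans h5.symm)
        · exact hKL (h4.symm.trans h6)
      · rintro (⟨h6, _⟩ | ⟨_, h7⟩)
        · exact hKL (h6.symm.trans h4)
        · exact h2 (h7.trans h5.symm)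
    unfold call
    rw [if_neg (fun h4 => h1 h4.symm), if_neg h3]
  refine le_antisymm (le_min ?_ ?_) (le_iInf fun m => ?_)
  · refine (iInf_le _ k).trans ?_
    rw [hc1, zero_add]
  · refine (iInf_le _ l).trans ?_
    rw [hc2]
  · by_cases h1 : m = k
    · rw [h1, hc1, zero_add]
      exact min_le_left _ _
    · by_cases h2 : m = l
      · rw [h2, hc2]
        exact min_le_right _ _
      · rw [hc3 m h1 h2, top_add]
        exact le_top

theorem T_first_other {s c : ℕ} (hs : s < c) {i : Fin n} (hK : i ≠ K s) (hL : i ≠ L s) (j : Fin n) :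
    T K L β s c i j = T K L β (s + 1) c i j := by
  rw [TrC_aux1 K L β hs]
  have hc : ∀ m, m ≠ i → call (K s) (L s) (β s) i m = ⊤ := by
    intro m h1
    have h3 : ¬ ((i = K s ∧ m = L s) ∨ (i = L s ∧ m = K s)) := by
      rintro (⟨h6, _⟩ | ⟨h6, _⟩)
      · exact hK h6
      · exact hL h6
    unfold call
    rw [if_neg (fun h4 => h1 h4.symm), if_neg h3]
  have hc1 : call (K s) (L s) (β s) i i = 0 := if_pos rfl
  refine le_antisymm ?_ (le_iInf fun m => ?_)
  · refine (iInf_le _ i).trans ?_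
    rw [hc1, zero_add]
  · by_cases h1 : m = i
    · rw [h1, hc1, zero_add]
    · rw [hc m h1, top_add]
      exact le_top

end Gossip
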