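import Mathlib
import Pool.Agent.Lib.MP_8f6a89_co.TrC

/-!
# Gossip: last letter
-/

set_option autoImplicit false

namespace Gossip

open scoped ENNReal

variable {n : ℕ} (K L : ℕ → Fin n) (β : ℕ → ℝ≥0∞)

theorem TrD_split {a s : ℕ} (hs : a ≤ s) (i j : Fin n) :
    T K L β a (s + 1) i j = ⨅ m, T K L β a s i m + call (K s) (L s) (β s) m j := by
  rw [T_split K L β hs (Nat.le_succ s), T_one]
  rfl

/-- Last letter: as `T_first`, from the right. -/
theorem T_last {a s : ℕ} (hs : a ≤ s) (hKL : K s ≠ L s) {k l : Fin n} (h : Bet K L s k l) (i : Fin n) :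
    T K L β a (s + 1) i k = min (T K L β a s i k) (T K L β a s i l + β s) := by
  rw [TrD_split K L β hs]
  have hkk : call (K s) (L s) (β s) k k = 0 := by
    unfold call
    rw [if_pos rfl]
  have hlk : l ≠ k := by
    rcases h with ⟨h1, h2⟩ | ⟨h1, h2⟩
    · rw [h1, h2]
      exact hKL.symm
    · rw [h1, h2]
      exact hKL
  have hcl : call (K s) (L s) (β s) l k = β s := by
    unfold call
    rw [if_neg hlk, if_pos]
    rcases h with ⟨h1, h2⟩ | ⟨h1, h2⟩
    · exact Or.inr ⟨h2, h1⟩
    · exact Or.inl ⟨h2, h1⟩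
  have hcm : ∀ m, m ≠ k → m ≠ l → call (K s) (L s) (β s) m k = ⊤ := by
    intro m hmk hml
    unfold call
    rw [if_neg hmk, if_neg]
    rintro (⟨h3, h4⟩ | ⟨h3, h4⟩)
    · rcases h with ⟨h1, h2⟩ | ⟨h1, h2⟩
      · exact hKL (h1.symm.trans h4)
      · exact hml (h3.trans h2.symm)
    · rcases h with ⟨h1, h2⟩ | ⟨h1, h2⟩
      · exact hml (h3.trans h2.symm)
      · exact hKL (h4.symm.trans h1)
  refine le_antisymm (le_min ?_ ?_) (le_iInf fun m => ?_)
  · refine (iInf_le _ k).trans (le_of_eq ?_)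
    rw [hkk, add_zero]
  · refine (iInf_le _ l).trans (le_of_eq ?_)
    rw [hcl]
  · by_cases hmk : m = k
    · rw [hmk, hkk, add_zero]
      exact min_le_left _ _
    · by_cases hml : m = l
      · rw [hml, hcl]
        exact min_le_right _ _
      · rw [hcm m hmk hml, add_top]
        exact le_top

theorem T_last_other {a s : ℕ} (hs : a ≤ s) {j : Fin n} (hK : j ≠ K s) (hL : j ≠ L s) (i : Fin n) :
    T K L β a (s + 1) i j = T K L β a s i j := by
  rw [TrD_split K L β hs]
  have hjj : call (K s) (L s) (β s) j j = 0 := by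
    unfold call
    rw [if_pos rfl]
  have hcm : ∀ m, m ≠ j → call (K s) (L s) (β s) m j = ⊤ := by
    intro m hmj
    unfold call
    rw [if_neg hmj, if_neg]
    rintro (⟨-, h4⟩ | ⟨-, h4⟩)
    · exact hL h4
    · exact hK h4
  refine le_antisymm ?_ (le_iInf fun m => ?_)
  · refine (iInf_le _ j).trans (le_of_eq ?_)
    rw [hjj, add_zero]
  · by_cases hmj : m = j
    · rw [hmj, hjj, add_zero]
    · rw [hcm m hmj, add_top]
      exact le_top

end Gossip
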