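import Mathlib
import Pool.Agent.Lib.MP_8f6a89_co.TrD

/-!
# Gossip: witness pairs
-/

set_option autoImplicit false

namespace Gossip

open scoped ENNReal

variable {n : ℕ} (K L : ℕ → Fin n) (β : ℕ → ℝ≥0∞)

/-- the cost of the best path from `i` to `j` which uses the letter `t` from `K t` to `L t` -/
noncomputable def DD (N t : ℕ) (i j : Fin n) : ℝ≥0∞ :=
  T K L β 0 t i (K t) + β t + T K L β (t + 1) N (L t) j

/-- `(i, j)` is a witness pair of the letter `t`: without `t` every path from `i` to `j` is more expensive -/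
def Wit (N t : ℕ) (i j : Fin n) : Prop :=
  ∀ m, DD K L β N t i j < T K L β 0 t i m + T K L β (t + 1) N m j

section
variable {K L β}

theorem DD_lt_top {N t : ℕ} {i j : Fin n} (hw : Wit K L β N t i j) : DD K L β N t i j < ⊤ := by
  exact lt_of_lt_of_le (hw (K t)) le_top

/-- `Wit` with `m = L t`; cancel the finite `T (t+1) N (L t) j`. -/
theorem S2 {N t : ℕ} {i j : Fin n} (hw : Wit K L β N t i j) :
    T K L β 0 t i (K t) + β t < T K L β 0 t i (L t) := by
  have h := hw (L t)
  unfold DD at h
  by_contra hc
  exact absurd h (not_lt.2 (add_le_add (not_lt.1 hc) le_rfl))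

/-- `Wit` with `m = K t`; cancel the finite `T 0 t i (K t)`. -/
theorem S3 {N t : ℕ} {i j : Fin n} (hw : Wit K L β N t i j) :
    β t + T K L β (t + 1) N (L t) j < T K L β (t + 1) N (K t) j := by
  have h := hw (K t)
  unfold DD at h
  by_contra hc
  refine absurd h (not_lt.2 ?_)
  rw [add_assoc]
  exact add_le_add le_rfl (not_lt.1 hc)

/-- Every path from `i` to `j` costs at least `DD`. Proof. First `DD ≤ T 0 N i j`: by `T_exists` at `0, t, N` there is `m` with
`T 0 N i j = T 0 t i m + T t N m j`; if `m ≠ K t, L t` then `T t N m j = T (t+1) N m j` (`T_first_other`) and `Wit` applies;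
if `m = K t` then by `T_first` `T t N m j` is `T (t+1) N (K t) j` (`Wit`) or `β t + T (t+1) N (L t) j` (equality);
if `m = L t` it is `T (t+1) N (L t) j` (`Wit`) or `β t + T (t+1) N (K t) j`, which is at least `T (t+1) N (L t) j` by `S3`,
so `Wit` with `m = L t` again. Then `T_le` at `0, a, N`. -/
theorem S4 (hKL : ∀ s, K s ≠ L s) {N t : ℕ} (ht : t < N) {i j : Fin n} (hw : Wit K L β N t i j) {a : ℕ} (ha : a ≤ N)
    (m : Fin n) : DD K L β N t i j ≤ T K L β 0 a i m + T K L β a N m j := by
  have h0 : DD K L β N t i j ≤ T K L β 0 N i j := by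
    obtain ⟨m, hm⟩ := T_exists K L β (Nat.zero_le t) ht.le i j
    rw [hm]
    by_cases h1 : m = K t
    · subst h1
      rw [T_first K L β ht (hKL t) (Or.inl ⟨rfl, rfl⟩)]
      rcases le_total (T K L β (t + 1) N (K t) j) (β t + T K L β (t + 1) N (L t) j) with h2 | h2
      · rw [min_eq_left h2]
        exact (hw (K t)).le
      · rw [min_eq_right h2, ← add_assoc]
        exact le_rfl
    · by_cases h2 : m = L t
      · subst h2
        rw [T_first K L β ht (hKL t) (Or.inr ⟨rfl, rfl⟩)]
        rcases le_total (T K L β (t + 1) N (L t) j) (β t + T K L β (t + 1) N (K t) j) with h3 | h3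
        · rw [min_eq_left h3]
          exact (hw (L t)).le
        · have h4 : T K L β (t + 1) N (L t) j ≤ β t + T K L β (t + 1) N (K t) j := by
            calc T K L β (t + 1) N (L t) j ≤ β t + T K L β (t + 1) N (L t) j := le_add_self
              _ ≤ T K L β (t + 1) N (K t) j := (S3 hw).le
              _ ≤ β t + T K L β (t + 1) N (K t) j := le_add_self
          rw [min_eq_left h4]
          exact (hw (L t)).le
      · rw [T_first_other K L β ht h1 h2]
        exact (hw m).le
  exact h0.trans (T_le K L β (Nat.zero_le a) ha i m j)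

end

end Gossip
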