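import Mathlib
import Pool.Agent.Lib.MP_8f6a89_co.StA

/-!
# Gossip: no other arrival
-/

set_option autoImplicit false

namespace Gossip

open scoped ENNReal

variable {n : ℕ} {K L : ℕ → Fin n} {β : ℕ → ℝ≥0∞}

/-- No other letter arrives at `L t` on an optimal path. Proof. Let `l = L t`, `k = K t`, `D = DD`, and suppose
`X := T 0 s i k' + β s + T (s+1) N l j ≤ D`; note `X < ⊤`.
Case `s < t`. By `T_exists` at `s+1, t, N` there is `m` with `T (s+1) N l j = M l m + T t N m j`, `M = T (s+1) t`.
`T 0 t i m ≤ T 0 s i k' + β s + M l m` (`T_le` at `0, s, t`, then `T s t k' m ≤ β s + T (s+1) t l m`, from `T_first` and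
`min_le_right`). So `T 0 t i m + T t N m j ≤ X ≤ D`. If `m ≠ k, l` this contradicts `Wit` (`T_first_other`). If `m = l`: `T t N l j`
is `T (t+1) N l j` (contradiction to `Wit`) or `β t + T (t+1) N k j ≥ T (t+1) N l j` (`S3`; contradiction to `Wit` again). If `m = k`:
`T t N k j` is `T (t+1) N k j` (contradiction to `Wit`) or `β t + T (t+1) N l j`; then
`T 0 s i k' + β s + M l k + β t + T (t+1) N l j = X ≤ D = T 0 t i k + β t + T (t+1) N l j`, so (cancel, finite)
`T 0 s i k' + β s + M l k ≤ T 0 t i k`; but `T 0 t i l ≤ T 0 s i k' + β s` (as above with `M l l = 0`), so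
`T 0 t i l ≤ T 0 t i k`, a contradiction to `S2`.
Case `t < s`. By `T_exists` at `0, t+1, s` there is `m` with `T 0 s i k' = P m + M m k'`, `P m = T 0 (t+1) i m`, `M = T (t+1) s`.
`T (t+1) N m j ≤ M m k' + β s + T (s+1) N l j` (`T_le` at `t+1, s, N` and `T_first`). So `P m + T (t+1) N m j ≤ X ≤ D`. By `T_last`,
`T_last_other`: if `P m = T 0 t i m` this contradicts `Wit`. If `m = k` and `P k = T 0 t i l + β t`: at least `T 0 t i k` by `S2`,
so `Wit` is contradicted again. If `m = l` and `P l = T 0 t i k + β t`: `T (t+1) N l j ≤ T (s+1) N l j` (`T_mono_left`), so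
`X ≥ T 0 t i k + β t + M l k' + β s + T (t+1) N l j ≥ D + β s > D` (`D < ⊤`, `0 < β s`), a contradiction. -/
theorem S5 (hβ : ∀ s, 0 < β s) (hKL : ∀ s, K s ≠ L s) {N t : ℕ} (ht : t < N) {i j : Fin n} (hw : Wit K L β N t i j)
    {s : ℕ} (hs : s < N) (hst : s ≠ t) {k' : Fin n} (h : Bet K L s k' (L t)) :
    DD K L β N t i j < T K L β 0 s i k' + β s + T K L β (s + 1) N (L t) j := by
  have hD := DD_lt_top hw
  have h2 := S2 hw
  have h3 := S3 hw
  by_contra hcon
  have hX : T K L β 0 s i k' + β s + T K L β (s + 1) N (L t) j ≤ DD K L β N t i j := not_lt.1 hcon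
  rcases lt_or_gt_of_ne hst with hlt | hgt
  · -- `s < t`
    obtain ⟨m, hm⟩ := T_exists K L β (Nat.succ_le_of_lt hlt) ht.le (L t) j
    have hA : ∀ m', T K L β 0 t i m' ≤ T K L β 0 s i k' + (β s + T K L β (s + 1) t (L t) m') := by
      intro m'
      refine (T_le K L β (Nat.zero_le s) hlt.le i k' m').trans ?_
      gcongr
      rw [T_first K L β hlt (hKL s) h]
      exact min_le_right _ _
    have hB : T K L β 0 t i m + T K L β t N m j ≤ DD K L β N t i j := by
      refine le_trans ?_ hX
      rw [hm]
      calc T K L β 0 t i m + T K L β t N m j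
          ≤ T K L β 0 s i k' + (β s + T K L β (s + 1) t (L t) m) + T K L β t N m j := by
            gcongr
            exact hA m
        _ = T K L β 0 s i k' + β s + (T K L β (s + 1) t (L t) m + T K L β t N m j) := by
            ac_rfl
    by_cases hmK : m = K t
    · subst hmK
      have hf := T_first K L β ht (hKL t) (Or.inl ⟨rfl, rfl⟩ : Bet K L t (K t) (L t)) j
      rcases min_choice (T K L β (t + 1) N (K t) j) (β t + T K L β (t + 1) N (L t) j) with hc | hc
      · rw [hf, hc] at hB
        exact absurd (hw (K t)) (not_lt.2 hB)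
      · rw [hc] at hf
        have e1 : T K L β 0 s i k' + β s + T K L β (s + 1) t (L t) (K t) +
            (β t + T K L β (t + 1) N (L t) j) ≤
            T K L β 0 t i (K t) + (β t + T K L β (t + 1) N (L t) j) := by
          have e2 := hX
          rw [hm, hf] at e2
          unfold DD at e2
          calc T K L β 0 s i k' + β s + T K L β (s + 1) t (L t) (K t) +
              (β t + T K L β (t + 1) N (L t) j)
              = T K L β 0 s i k' + β s + (T K L β (s + 1) t (L t) (K t) +
                (β t + T K L β (t + 1) N (L t) j)) := by ac_rfl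
            _ ≤ T K L β 0 t i (K t) + β t + T K L β (t + 1) N (L t) j := e2
            _ = T K L β 0 t i (K t) + (β t + T K L β (t + 1) N (L t) j) := by ac_rfl
        have hfin : β t + T K L β (t + 1) N (L t) j ≠ ⊤ := by
          intro htop
          unfold DD at hD
          rw [add_assoc, htop, add_top] at hD
          exact lt_irrefl _ hD
        have e3 : T K L β 0 s i k' + β s + T K L β (s + 1) t (L t) (K t) ≤ T K L β 0 t i (K t) :=
          (ENNReal.add_le_add_iff_right hfin).1 e1
        have e4 : T K L β 0 t i (L t) ≤ T K L β 0 s i k' + β s := by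
          have := hA (L t)
          rwa [T_diag, add_zero] at this
        have e5 : T K L β 0 t i (L t) ≤ T K L β 0 t i (K t) :=
          e4.trans (le_self_add.trans e3)
        exact absurd h2 (not_lt.2 (e5.trans le_self_add))
    · by_cases hmL : m = L t
      · subst hmL
        have hf := T_first K L β ht (hKL t) (Or.inr ⟨rfl, rfl⟩ : Bet K L t (L t) (K t)) j
        have hge : T K L β (t + 1) N (L t) j ≤ T K L β t N (L t) j := by
          rw [hf]
          refine le_min le_rfl ?_
          calc T K L β (t + 1) N (L t) j ≤ β t + T K L β (t + 1) N (L t) j := le_add_self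
            _ ≤ T K L β (t + 1) N (K t) j := h3.le
            _ ≤ β t + T K L β (t + 1) N (K t) j := le_add_self
        have : T K L β 0 t i (L t) + T K L β (t + 1) N (L t) j ≤ DD K L β N t i j :=
          le_trans (by gcongr) hB
        exact absurd (hw (L t)) (not_lt.2 this)
      · rw [T_first_other K L β ht hmK hmL] at hB
        exact absurd (hw m) (not_lt.2 hB)
  · -- `t < s`
    obtain ⟨m, hm⟩ := T_exists K L β (Nat.zero_le (t + 1)) (Nat.succ_le_of_lt hgt) i k'
    have hA : T K L β (t + 1) N m j ≤
        T K L β (t + 1) s m k' + (β s + T K L β (s + 1) N (L t) j) := by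
      refine (T_le K L β (Nat.succ_le_of_lt hgt) hs.le m k' j).trans ?_
      gcongr
      rw [T_first K L β hs (hKL s) h]
      exact min_le_right _ _
    have hB : T K L β 0 (t + 1) i m + T K L β (t + 1) N m j ≤ DD K L β N t i j := by
      refine le_trans ?_ hX
      rw [hm]
      calc T K L β 0 (t + 1) i m + T K L β (t + 1) N m j
          ≤ T K L β 0 (t + 1) i m +
              (T K L β (t + 1) s m k' + (β s + T K L β (s + 1) N (L t) j)) := by
            gcongr
        _ = T K L β 0 (t + 1) i m + T K L β (t + 1) s m k' + β s +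
              T K L β (s + 1) N (L t) j := by
            ac_rfl
    by_cases hmK : m = K t
    · subst hmK
      have hf := T_last K L β (Nat.zero_le t) (hKL t) (Or.inl ⟨rfl, rfl⟩ : Bet K L t (K t) (L t)) i
      have hge : T K L β 0 t i (K t) ≤ T K L β 0 (t + 1) i (K t) := by
        rw [hf]
        refine le_min le_rfl ?_
        calc T K L β 0 t i (K t) ≤ T K L β 0 t i (K t) + β t := le_self_add
          _ ≤ T K L β 0 t i (L t) := h2.le
          _ ≤ T K L β 0 t i (L t) + β t := le_self_add
      have : T K L β 0 t i (K t) + T K L β (t + 1) N (K t) j ≤ DD K L β N t i j :=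
        le_trans (by gcongr) hB
      exact absurd (hw (K t)) (not_lt.2 this)
    · by_cases hmL : m = L t
      · subst hmL
        have hf := T_last K L β (Nat.zero_le t) (hKL t) (Or.inr ⟨rfl, rfl⟩ : Bet K L t (L t) (K t)) i
        rcases min_choice (T K L β 0 t i (L t)) (T K L β 0 t i (K t) + β t) with hc | hc
        · rw [hf, hc] at hB
          exact absurd (hw (L t)) (not_lt.2 hB)
        · rw [hc] at hf
          have hmono := T_mono_left K L β (Nat.succ_le_succ hgt.le) (Nat.succ_le_of_lt hs) (L t) j
          have e1 : DD K L β N t i j + β s ≤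
              T K L β 0 s i k' + β s + T K L β (s + 1) N (L t) j := by
            rw [hm, hf]
            unfold DD
            calc T K L β 0 t i (K t) + β t + T K L β (t + 1) N (L t) j + β s
                ≤ T K L β 0 t i (K t) + β t + T K L β (s + 1) N (L t) j + β s := by
                  gcongr
              _ ≤ T K L β 0 t i (K t) + β t + T K L β (s + 1) N (L t) j + β s +
                    T K L β (t + 1) s (L t) k' := le_self_add
              _ = T K L β 0 t i (K t) + β t + T K L β (t + 1) s (L t) k' + β s +
                    T K L β (s + 1) N (L t) j := by ac_rfl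
          have e2 : DD K L β N t i j < DD K L β N t i j + β s :=
            ENNReal.lt_add_right hD.ne (hβ s).ne'
          exact absurd (e1.trans hX) (not_le.2 e2)
      · rw [T_last_other K L β (Nat.zero_le t) hmK hmL] at hB
        exact absurd (hw m) (not_lt.2 hB)

end Gossip
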