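import Mathlib
import Pool.Agent.Lib.MP_8f6a89_co.StB

/-!
# Gossip: no other departure
-/

set_option autoImplicit false

namespace Gossip

open scoped ENNReal

variable {n : ℕ} {K L : ℕ → Fin n} {β : ℕ → ℝ≥0∞}

/-- No other letter departs from `K t` on an optimal path: `S5` with the direction of time reversed. Proof. Let `l = L t`,
`k = K t`, `D = DD`, and suppose `X := T 0 s i k + β s + T (s+1) N l' j ≤ D`.
Case `t < s`. `T_exists` at `0, t+1, s`: `T 0 s i k = P m + M m k`, `P m = T 0 (t+1) i m`, `M = T (t+1) s`;
`T (t+1) N m j ≤ M m k + β s + T (s+1) N l' j`, so `P m + T (t+1) N m j ≤ X ≤ D`. If `P m = T 0 t i m`: contradiction to `Wit`.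
If `m = k`, `P k = T 0 t i l + β t ≥ T 0 t i k` (`S2`): contradiction to `Wit`. If `m = l`, `P l = T 0 t i k + β t`: then
`T 0 t i k + β t + M l k + β s + T (s+1) N l' j = X ≤ D` gives `M l k + β s + T (s+1) N l' j ≤ T (t+1) N l j`; but
`T (t+1) N k j ≤ β s + T (s+1) N l' j` (`T_le` at `t+1, s, N` with `m = k` and `T_diag`, `T_first`), so
`T (t+1) N k j ≤ T (t+1) N l j`, a contradiction to `S3`.
Case `s < t`. `T_exists` at `s+1, t, N`: `T (s+1) N l' j = M l' m + T t N m j`, `M = T (s+1) t`;
`T 0 t i m ≤ T 0 s i k + β s + M l' m`, so `T 0 t i m + T t N m j ≤ X ≤ D`. If `T t N m j = T (t+1) N m j`: contradiction to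
`Wit`. If `m = l` and `T t N l j = β t + T (t+1) N k j ≥ T (t+1) N l j` (`S3`): contradiction to `Wit`. If `m = k` and
`T t N k j = β t + T (t+1) N l j`: `T 0 t i k ≤ T 0 s i k` (`T_mono_right`), so
`X ≥ T 0 t i k + β s + β t + T (t+1) N l j = D + β s > D`, a contradiction. -/
theorem S6 (hβ : ∀ s, 0 < β s) (hKL : ∀ s, K s ≠ L s) {N t : ℕ} (ht : t < N) {i j : Fin n} (hw : Wit K L β N t i j)
    {s : ℕ} (hs : s < N) (hst : s ≠ t) {l' : Fin n} (h : Bet K L s (K t) l') :
    DD K L β N t i j < T K L β 0 s i (K t) + β s + T K L β (s + 1) N l' j := by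
  by_contra hcon
  rw [not_lt] at hcon
  have hD : DD K L β N t i j < ⊤ := DD_lt_top hw
  have hDe : DD K L β N t i j = T K L β 0 t i (K t) + β t + T K L β (t + 1) N (L t) j := rfl
  have h2 := S2 hw
  have h3 := S3 hw
  rcases lt_or_gt_of_ne hst with hlt | hgt
  · obtain ⟨m, hm⟩ := T_exists K L β (show s + 1 ≤ t by omega) ht.le l' j
    have a1 : T K L β 0 t i m ≤ T K L β 0 s i (K t) + (β s + T K L β (s + 1) t l' m) := by
      refine (T_le K L β (Nat.zero_le s) hlt.le i (K t) m).trans ?_
      gcongr
      rw [T_first K L β hlt (hKL s) h m]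
      exact min_le_right _ _
    have a2 : T K L β 0 t i m + T K L β t N m j ≤ DD K L β N t i j := by
      refine le_trans ?_ hcon
      rw [hm]
      calc T K L β 0 t i m + T K L β t N m j
          ≤ T K L β 0 s i (K t) + (β s + T K L β (s + 1) t l' m) + T K L β t N m j := by gcongr
        _ = _ := by ring
    by_cases hK : m = K t
    · subst hK
      rcases le_total (T K L β (t + 1) N (K t) j) (β t + T K L β (t + 1) N (L t) j) with h5 | h5
      · rw [T_first K L β ht (hKL t) (Or.inl ⟨rfl, rfl⟩) j, min_eq_left h5] at a2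
        exact absurd a2 (not_le.2 (hw (K t)))
      · have hm' : T K L β t N (K t) j = β t + T K L β (t + 1) N (L t) j := by
          rw [T_first K L β ht (hKL t) (Or.inl ⟨rfl, rfl⟩) j, min_eq_right h5]
        have a4 := T_mono_right K L β (Nat.zero_le s) hlt.le i (K t)
        have a3 : DD K L β N t i j + β s ≤ DD K L β N t i j := by
          refine le_trans ?_ hcon
          rw [hm, hm', hDe]
          calc T K L β 0 t i (K t) + β t + T K L β (t + 1) N (L t) j + β s
              ≤ T K L β 0 s i (K t) + β t + T K L β (t + 1) N (L t) j + β s := by gcongr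
            _ ≤ T K L β 0 s i (K t) + β t + T K L β (t + 1) N (L t) j + β s +
                T K L β (s + 1) t l' (K t) := le_self_add
            _ = _ := by ring
        exact absurd a3 (not_le.2 (ENNReal.lt_add_right hD.ne (hβ s).ne'))
    · by_cases hL : m = L t
      · subst hL
        have a3 : T K L β (t + 1) N (L t) j ≤ T K L β t N (L t) j := by
          rw [T_first K L β ht (hKL t) (Or.inr ⟨rfl, rfl⟩) j]
          refine le_min le_rfl ?_
          exact (le_add_self.trans h3.le).trans le_add_self
        have a4 : T K L β 0 t i (L t) + T K L β (t + 1) N (L t) j ≤ DD K L β N t i j :=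
          le_trans (by gcongr) a2
        exact absurd a4 (not_le.2 (hw (L t)))
      · rw [T_first_other K L β ht hK hL j] at a2
        exact absurd a2 (not_le.2 (hw m))
  · obtain ⟨m, hm⟩ := T_exists K L β (Nat.zero_le (t + 1)) (show t + 1 ≤ s by omega) i (K t)
    have a1 : ∀ x : Fin n, T K L β (t + 1) N x j ≤
        T K L β (t + 1) s x (K t) + (β s + T K L β (s + 1) N l' j) := by
      intro x
      refine (T_le K L β (show t + 1 ≤ s by omega) hs.le x (K t) j).trans ?_
      gcongr
      rw [T_first K L β hs (hKL s) h j]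
      exact min_le_right _ _
    have a2 : T K L β 0 (t + 1) i m + T K L β (t + 1) N m j ≤ DD K L β N t i j := by
      refine le_trans ?_ hcon
      rw [hm]
      calc T K L β 0 (t + 1) i m + T K L β (t + 1) N m j
          ≤ T K L β 0 (t + 1) i m + (T K L β (t + 1) s m (K t) + (β s + T K L β (s + 1) N l' j)) := by
            gcongr
            exact a1 m
        _ = _ := by ring
    by_cases hK : m = K t
    · subst hK
      have a3 : T K L β 0 t i (K t) ≤ T K L β 0 (t + 1) i (K t) := by
        rw [T_last K L β (Nat.zero_le t) (hKL t) (Or.inl ⟨rfl, rfl⟩) i]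
        refine le_min le_rfl ?_
        exact (le_self_add.trans h2.le).trans le_self_add
      have a4 : T K L β 0 t i (K t) + T K L β (t + 1) N (K t) j ≤ DD K L β N t i j :=
        le_trans (by gcongr) a2
      exact absurd a4 (not_le.2 (hw (K t)))
    · by_cases hL : m = L t
      · subst hL
        rcases le_total (T K L β 0 t i (L t)) (T K L β 0 t i (K t) + β t) with h5 | h5
        · rw [T_last K L β (Nat.zero_le t) (hKL t) (Or.inr ⟨rfl, rfl⟩) i, min_eq_left h5] at a2
          exact absurd a2 (not_le.2 (hw (L t)))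
        · have hm' : T K L β 0 (t + 1) i (L t) = T K L β 0 t i (K t) + β t := by
            rw [T_last K L β (Nat.zero_le t) (hKL t) (Or.inr ⟨rfl, rfl⟩) i, min_eq_right h5]
          have a3 : T K L β 0 t i (K t) + β t + (T K L β (t + 1) s (L t) (K t) +
              (β s + T K L β (s + 1) N l' j)) ≤
              T K L β 0 t i (K t) + β t + T K L β (t + 1) N (L t) j := by
            rw [← hDe]
            refine le_trans (le_of_eq ?_) hcon
            rw [hm, hm']
            ring
          have a5 : T K L β 0 t i (K t) + β t ≠ ⊤ := by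
            intro h0
            rw [hDe, h0, top_add] at hD
            exact lt_irrefl _ hD
          have a6 := (ENNReal.add_le_add_iff_left a5).1 a3
          have a7 := a1 (K t)
          rw [T_diag, zero_add] at a7
          have a8 : T K L β (t + 1) N (K t) j ≤ β t + T K L β (t + 1) N (L t) j :=
            (a7.trans (le_add_self.trans a6)).trans le_add_self
          exact absurd h3 (not_lt.2 a8)
      · rw [T_last_other K L β (Nat.zero_le t) hK hL i] at a2
        exact absurd a2 (not_le.2 (hw m))

end Gossip
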