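import Mathlib
import Pool.Agent.Lib.MP_8f6a89_co.StC

/-!
# Gossip: strict inequalities
-/

set_option autoImplicit false

namespace Gossip

open scoped ENNReal

variable {n : ℕ} {K L : ℕ → Fin n} {β : ℕ → ℝ≥0∞}

theorem StD_swap {s : ℕ} {k' l' : Fin n} (h : Bet K L s k' l') : Bet K L s l' k' := by
  rcases h with ⟨h1, h2⟩ | ⟨h1, h2⟩
  · exact Or.inr ⟨h2, h1⟩
  · exact Or.inl ⟨h2, h1⟩

/-- the second case of the minimum -/
theorem StD_second (hβ : ∀ s, 0 < β s) (hKL : ∀ s, K s ≠ L s) {N t : ℕ} (ht : t < N) {i j : Fin n}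
    (hw : Wit K L β N t i j) {s : ℕ} (hs : s < N) (k' : Fin n) (X : ℝ≥0∞) :
    DD K L β N t i j < β s + (T K L β 0 s i k' + X + (β s + T K L β (s + 1) N k' j)) := by
  have h1 := S4 hKL ht hw hs.le k'
  have h2 := T_mono_left K L β (Nat.le_succ s) hs k' j
  have h3 : DD K L β N t i j ≤ T K L β 0 s i k' + X + (β s + T K L β (s + 1) N k' j) := by
    calc DD K L β N t i j ≤ T K L β 0 s i k' + T K L β s N k' j := h1
      _ ≤ (T K L β 0 s i k' + X) + (β s + T K L β (s + 1) N k' j) :=
        add_le_add le_self_add (h2.trans le_add_self)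
  calc DD K L β N t i j = 0 + DD K L β N t i j := (zero_add _).symm
    _ < β s + (T K L β 0 s i k' + X + (β s + T K L β (s + 1) N k' j)) := by
      rw [add_comm (0 : ℝ≥0∞), add_comm (β s)]
      exact ENNReal.add_lt_add_of_le_of_lt (DD_lt_top hw).ne h3 (hβ s)

/-- the path through the letter `s` -/
theorem StD_through (hKL : ∀ s, K s ≠ L s) {N t : ℕ} (ht : t < N) {i j : Fin n}
    (hw : Wit K L β N t i j) {s : ℕ} (hs : s < N) {k' l' : Fin n} (h : Bet K L s k' l')
    {P : ℝ≥0∞} (hP : 0 < P) :
    DD K L β N t i j < (T K L β 0 s i k' + (β s + T K L β (s + 1) N l' j)) + P := by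
  have h1 := S4 hKL ht hw hs.le k'
  have h2 : T K L β s N k' j ≤ β s + T K L β (s + 1) N l' j := by
    rw [T_first K L β hs (hKL s) h j]
    exact min_le_right _ _
  have h3 : DD K L β N t i j ≤ T K L β 0 s i k' + (β s + T K L β (s + 1) N l' j) :=
    h1.trans (add_le_add le_rfl h2)
  calc DD K L β N t i j = DD K L β N t i j + 0 := (add_zero _).symm
    _ < _ := ENNReal.add_lt_add_of_le_of_lt (DD_lt_top hw).ne h3 hP

/-- Proof. `T s N l' j` is `T (s+1) N l' j` or `β s + T (s+1) N k' j` (`T_first`). In the second case the right side is at least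
`T 0 s i k' + T s N k' j + β s` (`T_mono_left`), at least `D + β s` (`S4`), larger than `D` (finite, `0 < β s`). In the first
case, if `l' = L t` use `S5` and drop `T 0 s (L t) l'`; if `l' ≠ L t` then `0 < T 0 s (L t) l'` (`T_pos`) and
`D ≤ T 0 s i k' + T s N k' j ≤ T 0 s i k' + β s + T (s+1) N l' j` (`S4`, `T_first`), `D < ⊤`. -/
theorem S7 (hβ : ∀ s, 0 < β s) (hKL : ∀ s, K s ≠ L s) {N t : ℕ} (ht : t < N) {i j : Fin n} (hw : Wit K L β N t i j)
    {s : ℕ} (hs : s < N) (hst : s ≠ t) {k' l' : Fin n} (h : Bet K L s k' l') :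
    DD K L β N t i j < β s + (T K L β 0 s i k' + T K L β 0 s (L t) l' + T K L β s N l' j) := by
  have hf := T_first K L β hs (hKL s) (StD_swap h) j
  rcases min_choice (T K L β (s + 1) N l' j) (β s + T K L β (s + 1) N k' j) with hm | hm
  · rw [hm] at hf
    rw [hf]
    by_cases hl : l' = L t
    · subst hl
      have h5 := S5 hβ hKL ht hw hs hst h
      refine lt_of_lt_of_le h5 ?_
      calc T K L β 0 s i k' + β s + T K L β (s + 1) N (L t) j
          = β s + (T K L β 0 s i k' + T K L β (s + 1) N (L t) j) := by ring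
        _ ≤ β s + (T K L β 0 s i k' + T K L β 0 s (L t) (L t) + T K L β (s + 1) N (L t) j) :=
          add_le_add le_rfl (add_le_add le_self_add le_rfl)
    · have hP : 0 < T K L β 0 s (L t) l' := T_pos K L β hβ 0 s (Ne.symm hl)
      have h6 := StD_through hKL ht hw hs h hP
      calc DD K L β N t i j < (T K L β 0 s i k' + (β s + T K L β (s + 1) N l' j)) +
            T K L β 0 s (L t) l' := h6
        _ = β s + (T K L β 0 s i k' + T K L β 0 s (L t) l' + T K L β (s + 1) N l' j) := by ring
  · rw [hm] at hf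
    rw [hf]
    exact StD_second hβ hKL ht hw hs k' _

/-- As `S7`, with `S6` instead of `S5` and `0 < T s N k' (K t)` if `k' ≠ K t`. -/
theorem S8 (hβ : ∀ s, 0 < β s) (hKL : ∀ s, K s ≠ L s) {N t : ℕ} (ht : t < N) {i j : Fin n} (hw : Wit K L β N t i j)
    {s : ℕ} (hs : s < N) (hst : s ≠ t) {k' l' : Fin n} (h : Bet K L s k' l') :
    DD K L β N t i j < β s + (T K L β s N k' (K t) + T K L β s N l' j + T K L β 0 s i k') := by
  have hf := T_first K L β hs (hKL s) (StD_swap h) j
  rcases min_choice (T K L β (s + 1) N l' j) (β s + T K L β (s + 1) N k' j) with hm | hm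
  · rw [hm] at hf
    rw [hf]
    by_cases hk : k' = K t
    · subst hk
      have h5 := S6 hβ hKL ht hw hs hst h
      refine lt_of_lt_of_le h5 ?_
      calc T K L β 0 s i (K t) + β s + T K L β (s + 1) N l' j
          = β s + (T K L β (s + 1) N l' j + T K L β 0 s i (K t)) := by ring
        _ ≤ β s + (T K L β s N (K t) (K t) + T K L β (s + 1) N l' j + T K L β 0 s i (K t)) :=
          add_le_add le_rfl (add_le_add le_add_self le_rfl)
    · have hP : 0 < T K L β s N k' (K t) := T_pos K L β hβ s N hk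
      have h6 := StD_through hKL ht hw hs h hP
      calc DD K L β N t i j < (T K L β 0 s i k' + (β s + T K L β (s + 1) N l' j)) +
            T K L β s N k' (K t) := h6
        _ = β s + (T K L β s N k' (K t) + T K L β (s + 1) N l' j + T K L β 0 s i k') := by ring
  · rw [hm] at hf
    rw [hf]
    have h7 := StD_second hβ hKL ht hw hs k' (T K L β s N k' (K t))
    calc DD K L β N t i j < β s + (T K L β 0 s i k' + T K L β s N k' (K t) +
          (β s + T K L β (s + 1) N k' j)) := h7
      _ = β s + (T K L β s N k' (K t) + (β s + T K L β (s + 1) N k' j) + T K L β 0 s i k') := by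
        ring

end Gossip
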