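import Mathlib
import Pool.Agent.Lib.MP_8f6a89_co.StD

/-!
# Gossip: scaling and monotonicity
-/

set_option autoImplicit false

namespace Gossip

open scoped ENNReal

variable {n : ℕ} (K L : ℕ → Fin n) (β : ℕ → ℝ≥0∞)

/-- no letters -/
theorem ApA_one {a c : ℕ} (h : c ≤ a) : T K L β a c = one := by
  unfold T wd
  rw [Nat.sub_eq_zero_of_le h]
  rfl

/-- one more letter -/
theorem ApA_step {a c : ℕ} (h : a ≤ c) (i j : Fin n) :
    T K L β a (c + 1) i j = ⨅ m, (T K L β a c i m + call (K c) (L c) (β c) m j) := by
  rw [T_split K L β h (Nat.le_succ c), T_one]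
  rfl

/-- Induction on `c - a` (`Nat.le_induction`) with `T_split` at `a, c, c + 1`: `ENNReal.mul_iInf_of_ne` (or
`ENNReal.mul_iInf`), `mul_add`; `M * 0 = 0`, `M * ⊤ = ⊤`. For `c ≤ a` both sides are `one`. -/
theorem T_scale {M : ℝ≥0∞} (hM0 : M ≠ 0) (hM : M ≠ ⊤) (a c : ℕ) (i j : Fin n) :
    T K L (fun s => M * β s) a c i j = M * T K L β a c i j := by
  have h0 : ∀ i j : Fin n, (one i j : ℝ≥0∞) = M * one i j := by
    intro i j
    unfold one
    by_cases h : i = j
    · rw [if_pos h, mul_zero]
    · rw [if_neg h, ENNReal.mul_top hM0]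
  have hc : ∀ (k l : Fin n) (x : ℝ≥0∞) (i j : Fin n), call k l (M * x) i j = M * call k l x i j := by
    intro k l x i j
    unfold call
    by_cases h : i = j
    · rw [if_pos h, if_pos h, mul_zero]
    · rw [if_neg h, if_neg h]
      by_cases h' : (i = k ∧ j = l) ∨ (i = l ∧ j = k)
      · rw [if_pos h', if_pos h']
      · rw [if_neg h', if_neg h', ENNReal.mul_top hM0]
  rcases le_total c a with h | h
  · rw [ApA_one K L _ h, ApA_one K L _ h]
    exact h0 i j
  · induction c, h using Nat.le_induction generalizing i j with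
    | base =>
      rw [ApA_one K L _ le_rfl, ApA_one K L _ le_rfl]
      exact h0 i j
    | succ c h ih =>
      rw [ApA_step K L _ h, ApA_step K L _ h, ENNReal.mul_iInf_of_ne hM0 hM]
      refine iInf_congr fun m => ?_
      rw [ih, hc, mul_add]

/-- Induction on `c - a` with `T_split` at `a, c, c + 1`, `iInf_mono`, monotonicity of `call`. -/
theorem T_mono {β' : ℕ → ℝ≥0∞} (h : ∀ s, β s ≤ β' s) (a c : ℕ) (i j : Fin n) :
    T K L β a c i j ≤ T K L β' a c i j := by
  rcases le_total c a with h1 | h1
  · rw [ApA_one K L _ h1, ApA_one K L _ h1]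
  · induction c, h1 using Nat.le_induction generalizing i j with
    | base => rw [ApA_one K L _ le_rfl, ApA_one K L _ le_rfl]
    | succ c h1 ih =>
      rw [ApA_step K L _ h1, ApA_step K L _ h1]
      refine iInf_mono fun m => add_le_add (ih i m) ?_
      unfold call
      split_ifs with h2 h3
      · exact le_rfl
      · exact h c
      · exact le_rfl

/-- Induction on `c - a` with `T_exists` for `β` and `T_le` for `β'` at `a, c, c + 1`; the entries of `call` change by at
most `C`. -/
theorem T_upper {β' : ℕ → ℝ≥0∞} (C : ℝ≥0∞) (h : ∀ s, β' s ≤ β s + C) (a c : ℕ) (i j : Fin n) :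
    T K L β' a c i j ≤ T K L β a c i j + C * ((c - a : ℕ) : ℝ≥0∞) := by
  rcases le_total c a with h1 | h1
  · rw [ApA_one K L _ h1, ApA_one K L _ h1]
    exact le_self_add
  · induction c, h1 using Nat.le_induction generalizing i j with
    | base =>
      rw [ApA_one K L _ le_rfl, ApA_one K L _ le_rfl]
      exact le_self_add
    | succ c h1 ih =>
      obtain ⟨m, hm⟩ := T_exists K L β h1 (Nat.le_succ c) i j
      rw [hm]
      refine (T_le K L β' h1 (Nat.le_succ c) i m j).trans ?_
      have h2 : T K L β' c (c + 1) m j ≤ T K L β c (c + 1) m j + C := by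
        rw [T_one, T_one]
        unfold call
        split_ifs with h2 h3
        · exact zero_le
        · exact h c
        · exact le_self_add
      have h3 : ((c + 1 - a : ℕ) : ℝ≥0∞) = ((c - a : ℕ) : ℝ≥0∞) + 1 := by
        rw [Nat.sub_add_comm h1]
        push_cast
        rfl
      rw [h3]
      refine (add_le_add (ih i m) h2).trans (le_of_eq ?_)
      rw [mul_add, mul_one]
      ring

end Gossip
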