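import Mathlib
import Pool.Agent.Lib.MP_8f6a89_co.StD

/-!
# Gossip: weights with divisibilities
-/

set_option autoImplicit false

namespace Gossip

open scoped ENNReal

variable (β : ℕ → ℝ≥0∞)

/-- the factor of the weight -/
def ApB_f (N s : ℕ) : ℕ := 2 ^ (min s N) * 3 ^ (N - min s N)

theorem ApB_f_pos (N s : ℕ) : 0 < ApB_f N s := by
  unfold ApB_f
  positivity

theorem ApB_f_le (N s : ℕ) : ApB_f N s ≤ 6 ^ N := by
  unfold ApB_f
  have h1 : (2 : ℕ) ^ (min s N) ≤ 6 ^ (min s N) := Nat.pow_le_pow_left (by norm_num) _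
  have h2 : (3 : ℕ) ^ (N - min s N) ≤ 6 ^ (N - min s N) := Nat.pow_le_pow_left (by norm_num) _
  calc 2 ^ (min s N) * 3 ^ (N - min s N) ≤ 6 ^ (min s N) * 6 ^ (N - min s N) := Nat.mul_le_mul h1 h2
    _ = 6 ^ N := by
      rw [← pow_add, Nat.add_sub_cancel' (min_le_right s N)]

theorem ApB_two (N s m : ℕ) (hs : s < N) :
    (∀ r, s < r → ∀ k : ℕ, 2 ^ (s + 1) ∣ ApB_f N r * k) ∧ ¬ 2 ^ (s + 1) ∣ ApB_f N s * (6 * m + 1) := by
  constructor
  · intro r hr k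
    apply Dvd.dvd.mul_right
    unfold ApB_f
    apply Dvd.dvd.mul_right
    exact pow_dvd_pow 2 (by omega)
  · intro h
    unfold ApB_f at h
    rw [min_eq_left hs.le, mul_assoc, pow_succ] at h
    have h1 : 2 ∣ 3 ^ (N - s) * (6 * m + 1) := (Nat.mul_dvd_mul_iff_left (by positivity)).mp h
    rcases (Nat.Prime.dvd_mul Nat.prime_two).mp h1 with h2 | h2
    · have h3 := Nat.Prime.dvd_of_dvd_pow Nat.prime_two h2
      omega
    · omega

theorem ApB_three (N s m : ℕ) (hs : s < N) :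
    (∀ r, r < s → ∀ k : ℕ, 3 ^ (N - s + 1) ∣ ApB_f N r * k) ∧
      ¬ 3 ^ (N - s + 1) ∣ ApB_f N s * (6 * m + 1) := by
  constructor
  · intro r hr k
    apply Dvd.dvd.mul_right
    unfold ApB_f
    apply Dvd.dvd.mul_left
    exact pow_dvd_pow 3 (by omega)
  · intro h
    unfold ApB_f at h
    have h0 : 2 ^ (min s N) * 3 ^ (N - min s N) * (6 * m + 1) = 3 ^ (N - s) * (2 ^ s * (6 * m + 1)) := by
      rw [min_eq_left hs.le]
      ring
    rw [h0, pow_succ] at h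
    have h1 : 3 ∣ 2 ^ s * (6 * m + 1) := (Nat.mul_dvd_mul_iff_left (by positivity)).mp h
    rcases (Nat.Prime.dvd_mul Nat.prime_three).mp h1 with h2 | h2
    · have h3 := Nat.Prime.dvd_of_dvd_pow Nat.prime_three h2
      omega
    · omega

/-- Weights with many divisibilities. Proof. Let `f s = 2 ^ (min s N) * 3 ^ (N - min s N)`, `1 ≤ f s ≤ 6 ^ N`, and
`b s = f s * (6 * m s + 1)`, `m s = ⌈(M * β s).toReal / (6 * f s)⌉₊`. Then `M * β s ≤ 6 * f s * m s ≤ M * β s + 6 * f s`. For `s < N`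
take `d = 2 ^ (s + 1)` in the first statement (`min r N ≥ s + 1` for `r > s`) and `d = 3 ^ (N - s + 1)` in the second one
(`N - min r N ≥ N - s + 1` for `r < s`); `6 * m + 1` is odd and not divisible by `3`. -/
theorem exists_weights (hβ : ∀ s, β s < ⊤) (M : ℕ) (N : ℕ) : ∃ b : ℕ → ℕ, (∀ s, 0 < b s) ∧
    (∀ s, (M : ℝ≥0∞) * β s ≤ (b s : ℝ≥0∞)) ∧ (∀ s, (b s : ℝ≥0∞) ≤ (M : ℝ≥0∞) * β s + ((7 * 6 ^ N : ℕ) : ℝ≥0∞)) ∧
    (∀ s, s < N → ∃ d : ℕ, (∀ r, s < r → d ∣ b r) ∧ ¬ d ∣ b s) ∧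
    (∀ s, s < N → ∃ d : ℕ, (∀ r, r < s → d ∣ b r) ∧ ¬ d ∣ b s) := by
  have hfin : ∀ s, (M : ℝ≥0∞) * β s ≠ ⊤ := fun s =>
    ENNReal.mul_ne_top (ENNReal.natCast_ne_top M) (hβ s).ne
  obtain ⟨x, hx⟩ : ∃ x : ℕ → ℝ, x = fun s => ((M : ℝ≥0∞) * β s).toReal := ⟨_, rfl⟩
  have hx0 : ∀ s, 0 ≤ x s := fun s => by rw [hx]; exact ENNReal.toReal_nonneg
  have hxe : ∀ s, (M : ℝ≥0∞) * β s = ENNReal.ofReal (x s) := fun s => by
    rw [hx]
    exact (ENNReal.ofReal_toReal (hfin s)).symm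
  obtain ⟨m, hm⟩ : ∃ m : ℕ → ℕ, m = fun s => ⌈x s / (6 * (ApB_f N s : ℝ))⌉₊ := ⟨_, rfl⟩
  have hfr : ∀ s, (0 : ℝ) < (ApB_f N s : ℝ) := fun s => by exact_mod_cast ApB_f_pos N s
  have hlo : ∀ s, x s ≤ 6 * (ApB_f N s : ℝ) * (m s : ℝ) := by
    intro s
    have h1 : x s / (6 * (ApB_f N s : ℝ)) ≤ (m s : ℝ) := by
      rw [hm]
      exact Nat.le_ceil _
    have h2 : (0 : ℝ) < 6 * (ApB_f N s : ℝ) := by have := hfr s; linarith
    rw [div_le_iff₀ h2] at h1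
    linarith
  have hup : ∀ s, 6 * (ApB_f N s : ℝ) * (m s : ℝ) ≤ x s + 6 * (ApB_f N s : ℝ) := by
    intro s
    have h2 : (0 : ℝ) < 6 * (ApB_f N s : ℝ) := by have := hfr s; linarith
    have h1 : (m s : ℝ) < x s / (6 * (ApB_f N s : ℝ)) + 1 := by
      rw [hm]
      exact Nat.ceil_lt_add_one (div_nonneg (hx0 s) h2.le)
    have h3 : 6 * (ApB_f N s : ℝ) * (m s : ℝ) ≤
        6 * (ApB_f N s : ℝ) * (x s / (6 * (ApB_f N s : ℝ)) + 1) :=
      mul_le_mul_of_nonneg_left h1.le h2.le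
    have h4 : 6 * (ApB_f N s : ℝ) * (x s / (6 * (ApB_f N s : ℝ)) + 1) =
        x s + 6 * (ApB_f N s : ℝ) := by
      rw [mul_add, mul_div_cancel₀ _ h2.ne', mul_one]
    linarith
  refine ⟨fun s => ApB_f N s * (6 * m s + 1), ?_, ?_, ?_, ?_, ?_⟩
  · intro s
    exact Nat.mul_pos (ApB_f_pos N s) (by omega)
  · intro s
    rw [hxe s, ← ENNReal.ofReal_natCast]
    apply ENNReal.ofReal_le_ofReal
    push_cast
    have := hlo s
    have := hfr s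
    nlinarith
  · intro s
    rw [hxe s, ← ENNReal.ofReal_natCast, ← ENNReal.ofReal_natCast (7 * 6 ^ N),
      ← ENNReal.ofReal_add (hx0 s) (Nat.cast_nonneg _)]
    apply ENNReal.ofReal_le_ofReal
    have h1 := hup s
    have h2 : (ApB_f N s : ℝ) ≤ (6 : ℝ) ^ N := by exact_mod_cast ApB_f_le N s
    push_cast
    nlinarith
  · intro s hs
    obtain ⟨h1, h2⟩ := ApB_two N s (m s) hs
    exact ⟨2 ^ (s + 1), fun r hr => h1 r hr _, h2⟩
  · intro s hs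
    obtain ⟨h1, h2⟩ := ApB_three N s (m s) hs
    exact ⟨3 ^ (N - s + 1), fun r hr => h1 r hr _, h2⟩

end Gossip
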