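import Mathlib
import Pool.Agent.Lib.MP_8f6a89_co.ApA
import Pool.Agent.Lib.MP_8f6a89_co.ApB

/-!
# Gossip: integer weights
-/

set_option autoImplicit false

namespace Gossip

open scoped ENNReal

variable {n : ℕ} (K L : ℕ → Fin n) (β : ℕ → ℝ≥0∞)

/-- Strict inequalities survive scaling. Proof. If `y = ⊤` then `M * y = ⊤` for `M > 0`, and the left side is finite. If `y < ⊤` take
`M` with `M * (y - x) > C` (reals, Archimedean). -/
theorem eventually_scale {x y C : ℝ≥0∞} (h : x < y) (hC : C < ⊤) :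
    ∀ᶠ M : ℕ in Filter.atTop, (M : ℝ≥0∞) * x + C < (M : ℝ≥0∞) * y := by
  have hx : x ≠ ⊤ := (lt_of_lt_of_le h le_top).ne
  have hd : y - x ≠ 0 := (tsub_pos_iff_lt.2 h).ne'
  obtain ⟨n₀, hn₀⟩ := ENNReal.exists_nat_mul_gt hd hC.ne
  filter_upwards [Filter.eventually_ge_atTop n₀] with M hM
  have h1 : C < (M : ℝ≥0∞) * (y - x) :=
    lt_of_lt_of_le hn₀ (mul_le_mul_left (by exact_mod_cast hM) _)
  have h2 : (M : ℝ≥0∞) * y = (M : ℝ≥0∞) * x + (M : ℝ≥0∞) * (y - x) := by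
    rw [← mul_add, add_tsub_cancel_of_le h.le]
  rw [h2]
  exact ENNReal.add_lt_add_left (ENNReal.mul_ne_top (ENNReal.natCast_ne_top M) hx) h1

/-- Proof. For `t < N` and `m : Fin n` let `x = DD t (i t) (j t)`, `y = T 0 t (i t) m + T (t+1) N m (j t)`; `x < y`. By
`eventually_scale` (finitely many pairs `(t, m)`) choose `M > 0` with `M * x + C < M * y` for all of them, where
`C = 7 * 6 ^ N * (N + 1)`. Take `b` from `exists_weights`. Then the `DD` of `b` is at most `M * x + C` (`T_upper` applied to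
`M * β` and `b`, `T_scale`; lengths `t` and `N - (t + 1)`, plus one letter) and `M * y ≤ T_b 0 t i m + T_b (t+1) N m j` (`T_scale`,
`T_mono`). -/
theorem exists_nat_weights (hβ : ∀ s, β s < ⊤) (N : ℕ) (i j : ℕ → Fin n)
    (hw : ∀ t, t < N → Wit K L β N t (i t) (j t)) :
    ∃ b : ℕ → ℕ, (∀ s, 0 < b s) ∧ (∀ t, t < N → Wit K L (fun s => (b s : ℝ≥0∞)) N t (i t) (j t)) ∧
    (∀ s, s < N → ∃ d : ℕ, (∀ r, s < r → d ∣ b r) ∧ ¬ d ∣ b s) ∧
    (∀ s, s < N → ∃ d : ℕ, (∀ r, r < s → d ∣ b r) ∧ ¬ d ∣ b s) := by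
  obtain ⟨C0, hC0⟩ : ∃ C0 : ℝ≥0∞, C0 = ((7 * 6 ^ N : ℕ) : ℝ≥0∞) := ⟨_, rfl⟩
  have hC0t : C0 ≠ ⊤ := by
    rw [hC0]
    exact ENNReal.natCast_ne_top _
  have hCt : C0 * (N : ℝ≥0∞) < ⊤ := (ENNReal.mul_ne_top hC0t (ENNReal.natCast_ne_top N)).lt_top
  have h1 : ∀ᶠ M : ℕ in Filter.atTop, ∀ t ∈ Finset.range N, ∀ m : Fin n,
      (M : ℝ≥0∞) * DD K L β N t (i t) (j t) + C0 * (N : ℝ≥0∞) <
        (M : ℝ≥0∞) * (T K L β 0 t (i t) m + T K L β (t + 1) N m (j t)) := by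
    refine (Filter.eventually_all_finset _).2 fun t ht => ?_
    refine Filter.eventually_all.2 fun m => ?_
    exact eventually_scale (hw t (Finset.mem_range.1 ht) m) hCt
  obtain ⟨M, hM, hM1⟩ := (h1.and (Filter.eventually_ge_atTop 1)).exists
  have hM0 : (M : ℝ≥0∞) ≠ 0 := by
    have : M ≠ 0 := by omega
    exact_mod_cast this
  have hMt : (M : ℝ≥0∞) ≠ ⊤ := ENNReal.natCast_ne_top M
  obtain ⟨b, hb0, hb1, hb2, hb3, hb4⟩ := exists_weights β hβ M N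
  refine ⟨b, hb0, ?_, hb3, hb4⟩
  intro t ht m
  have h2 := hM t (Finset.mem_range.2 ht) m
  have hup : ∀ a c : ℕ, ∀ i j : Fin n, T K L (fun s => (b s : ℝ≥0∞)) a c i j ≤
      (M : ℝ≥0∞) * T K L β a c i j + C0 * ((c - a : ℕ) : ℝ≥0∞) := by
    intro a c i j
    rw [← T_scale K L β hM0 hMt]
    exact T_upper K L (fun s => (M : ℝ≥0∞) * β s) C0 (fun s => by rw [hC0]; exact hb2 s) a c i j
  have hlo : ∀ a c : ℕ, ∀ i j : Fin n, (M : ℝ≥0∞) * T K L β a c i j ≤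
      T K L (fun s => (b s : ℝ≥0∞)) a c i j := by
    intro a c i j
    rw [← T_scale K L β hM0 hMt]
    exact T_mono K L (fun s => (M : ℝ≥0∞) * β s) hb1 a c i j
  have hb2' : (b t : ℝ≥0∞) ≤ (M : ℝ≥0∞) * β t + C0 := by
    rw [hC0]
    exact hb2 t
  have h3 : DD K L (fun s => (b s : ℝ≥0∞)) N t (i t) (j t) ≤
      (M : ℝ≥0∞) * DD K L β N t (i t) (j t) + C0 * (N : ℝ≥0∞) := by
    unfold DD
    refine (add_le_add (add_le_add (hup 0 t (i t) (K t)) hb2')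
      (hup (t + 1) N (L t) (j t))).trans (le_of_eq ?_)
    have h4 : (N : ℝ≥0∞) = ((t - 0 : ℕ) : ℝ≥0∞) + 1 + ((N - (t + 1) : ℕ) : ℝ≥0∞) := by
      have h5 : N = (t - 0) + 1 + (N - (t + 1)) := by omega
      exact_mod_cast h5
    rw [h4]
    ring
  refine lt_of_le_of_lt h3 (lt_of_lt_of_le h2 ?_)
  rw [mul_add]
  exact add_le_add (hlo _ _ _ _) (hlo _ _ _ _)

end Gossip
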