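import Mathlib

/-!
# Gossip: orders of power series
-/

set_option autoImplicit false

namespace Gossip

open scoped ENNReal

/-- power series over `F_2` -/
abbrev R := PowerSeries (ZMod 2)

/-- the order of a power series -/
noncomputable def v (p : R) : ℝ≥0∞ := ((p.order : ℕ∞) : ℝ≥0∞)

theorem v_zero : v 0 = ⊤ := by
  unfold v
  rw [PowerSeries.order_zero, ENat.toENNReal_top]

theorem v_eq_top {p : R} : v p = ⊤ ↔ p = 0 := by
  unfold v
  rw [ENat.toENNReal_eq_top, PowerSeries.order_eq_top]

theorem v_one : v 1 = 0 := by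
  unfold v
  rw [PowerSeries.order_one, ENat.toENNReal_zero]

/-- `PowerSeries.order_mul`. -/
theorem v_mul (p q : R) : v (p * q) = v p + v q := by
  unfold v
  rw [PowerSeries.order_mul, ENat.toENNReal_add]

/-- `PowerSeries.min_order_le_order_add`. -/
theorem v_add (p q : R) : min (v p) (v q) ≤ v (p + q) := by
  unfold v
  rw [← ENat.toENNReal_min, ENat.toENNReal_le]
  exact PowerSeries.min_order_le_order_add p q

/-- `PowerSeries.order_add_of_order_ne`. -/
theorem v_add_of_ne {p q : R} (h : v p ≠ v q) : v (p + q) = min (v p) (v q) := by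
  unfold v at h ⊢
  rw [Ne, ENat.toENNReal_inj] at h
  rw [← ENat.toENNReal_min, ENat.toENNReal_inj]
  exact PowerSeries.order_add_of_order_ne p q h

theorem v_neg (p : R) : v (-p) = v p := by
  unfold v
  rw [PowerSeries.order_neg]

theorem v_sub (p q : R) : min (v p) (v q) ≤ v (p - q) := by
  rw [sub_eq_add_neg, ← v_neg q]
  exact v_add p (-q)

/-- the smaller order wins -/
theorem v_sub_of_lt {p q : R} (h : v p < v q) : v (p - q) = v p := by
  rw [sub_eq_add_neg, v_add_of_ne (by rw [v_neg]; exact h.ne), v_neg, min_eq_left h.le]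

theorem v_X_pow (b : ℕ) : v ((PowerSeries.X : R) ^ b) = b := by
  unfold v
  rw [PowerSeries.order_X_pow, ENat.toENNReal_coe]

theorem v_one_add_X_pow {b : ℕ} (hb : 0 < b) : v (1 + (PowerSeries.X : R) ^ b) = 0 := by
  have h1 : v 1 ≠ v ((PowerSeries.X : R) ^ b) := by
    rw [v_one, v_X_pow]
    intro h
    have h2 : (b : ℝ≥0∞) = ((0 : ℕ) : ℝ≥0∞) := by
      rw [Nat.cast_zero]
      exact h.symm
    have h3 : b = 0 := by exact_mod_cast h2
    omega
  rw [v_add_of_ne h1, v_one]
  exact min_eq_left zero_le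

/-- Induction on `s`, `v_add`. -/
theorem lt_v_sum {ι : Type*} (s : Finset ι) (f : ι → R) (c : ℝ≥0∞) (hc : c < ⊤) (h : ∀ i ∈ s, c < v (f i)) :
    c < v (∑ i ∈ s, f i) := by
  classical
  induction s using Finset.induction_on with
  | empty =>
    rw [Finset.sum_empty, v_zero]
    exact hc
  | insert a s ha ih =>
    rw [Finset.sum_insert ha]
    refine lt_of_lt_of_le ?_ (v_add _ _)
    rw [lt_min_iff]
    exact ⟨h a (Finset.mem_insert_self a s), ih fun i hi => h i (Finset.mem_insert_of_mem hi)⟩

end Gossip
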