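import Mathlib
import Pool.Agent.Lib.MP_8f6a89_co.VaA

/-!
# Gossip: number of coordinates
-/

set_option autoImplicit false

namespace Gossip

open scoped ENNReal

/-- independent coordinates of tensors of hook symmetry -/
abbrev Idx (n : ℕ) := {z : Fin n × Fin n × Fin n // z.1 < z.2.1 ∧ z.1 ≤ z.2.2}

theorem HoA_two (m : ℕ) : 2 * (m + 1).choose 2 = m * (m + 1) := by
  induction m with
  | zero => simp
  | succ m ih =>
    rw [Nat.choose_succ_succ (m + 1) 1, Nat.choose_one_right, mul_add]
    have : 2 * (m + 1).choose (Nat.succ 1) = m * (m + 1) := ih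
    rw [this]
    ring

theorem HoA_sum (n : ℕ) : ∑ m ∈ Finset.range n, m * (m + 1) = 2 * (n + 1).choose 3 := by
  induction n with
  | zero => simp [Nat.choose]
  | succ n ih =>
    have h1 := HoA_two n
    have h2 : (n + 1 + 1).choose 3 = (n + 1).choose 2 + (n + 1).choose 3 :=
      Nat.choose_succ_succ (n + 1) 2
    rw [Finset.sum_range_succ, ih, h2]
    omega

/-- `Idx n` is the disjoint union over `p : Fin n` of `Ioi p × Ici p`, of size `∑ p, (n - 1 - p) * (n - p)`, equal to
`∑ m < n, m * (m + 1) = 2 * (n + 1).choose 3` (`Finset.sum_range_reflect`, induction, `Nat.choose_succ_succ`;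
`(m + 1).choose 2 * 2 = m * (m + 1)`). -/
theorem card_Idx (n : ℕ) : Fintype.card (Idx n) = 2 * (n + 1).choose 3 := by
  classical
  rw [Fintype.card_subtype,
    Finset.card_eq_sum_card_fiberwise (f := Prod.fst) (t := Finset.univ)
      (fun _ _ => Finset.mem_coe.mpr (Finset.mem_univ _))]
  have h1 : ∀ p : Fin n, ((Finset.univ.filter
      (fun z : Fin n × Fin n × Fin n => z.1 < z.2.1 ∧ z.1 ≤ z.2.2)).filter
        (fun z => z.1 = p)).card = (n - 1 - (p : ℕ)) * (n - p) := by
    intro p
    have h2 : ((Finset.univ.filter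
      (fun z : Fin n × Fin n × Fin n => z.1 < z.2.1 ∧ z.1 ≤ z.2.2)).filter
        (fun z => z.1 = p)) = (Finset.Ioi p ×ˢ Finset.Ici p).image (fun w => (p, w)) := by
      ext z
      simp only [Finset.mem_filter, Finset.mem_univ, true_and, Finset.mem_image,
        Finset.mem_product, Finset.mem_Ioi, Finset.mem_Ici]
      constructor
      · rintro ⟨⟨h3, h4⟩, h5⟩
        subst h5
        exact ⟨z.2, ⟨h3, h4⟩, rfl⟩
      · rintro ⟨w, ⟨h3, h4⟩, rfl⟩
        exact ⟨⟨h3, h4⟩, rfl⟩
    rw [h2, Finset.card_image_of_injective _ (Prod.mk_right_injective p), Finset.card_product,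
      Fin.card_Ioi, Fin.card_Ici]
  rw [Finset.sum_congr rfl fun p _ => h1 p,
    Fin.sum_univ_eq_sum_range (fun p => (n - 1 - p) * (n - p)) n, ← HoA_sum n,
    ← Finset.sum_range_reflect (fun m => m * (m + 1)) n]
  refine Finset.sum_congr rfl fun p hp => ?_
  have h3 := Finset.mem_range.mp hp
  have h4 : n - 1 - p + 1 = n - p := by omega
  rw [h4]

end Gossip
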