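import Mathlib
import Pool.Agent.Lib.MP_8f6a89_co.HoA

/-!
# Gossip: tensors of hook symmetry
-/

set_option autoImplicit false

namespace Gossip

open scoped ENNReal

variable {n : ℕ}

/-- the tensors of hook symmetry -/
def Hk (n : ℕ) : Submodule R (Fin n → Fin n → Fin n → R) where
  carrier := {h | (∀ p r, h p p r = 0) ∧ (∀ p q r, h q p r = - h p q r) ∧
    ∀ p q r, h p q r + h q r p + h r p q = 0}
  add_mem' := by
    rintro f g ⟨f0, f1, f2⟩ ⟨g0, g1, g2⟩
    refine ⟨fun p r => ?_, fun p q r => ?_, fun p q r => ?_⟩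
    · simp [f0, g0]
    · simp only [Pi.add_apply, f1 p q r, g1 p q r]; ring
    · simp only [Pi.add_apply]
      linear_combination f2 p q r + g2 p q r
  zero_mem' := by simp
  smul_mem' := by
    rintro c f ⟨f0, f1, f2⟩
    refine ⟨fun p r => ?_, fun p q r => ?_, fun p q r => ?_⟩
    · simp [f0]
    · simp only [Pi.smul_apply, f1 p q r, smul_eq_mul]; ring
    · simp only [Pi.smul_apply, smul_eq_mul]
      linear_combination c * f2 p q r

/-- the coordinates in `Idx n` -/
def rho (n : ℕ) : Hk n →ₗ[R] (Idx n → R) where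
  toFun h z := h.1 z.1.1 z.1.2.1 z.1.2.2
  map_add' _ _ := rfl
  map_smul' _ _ := rfl

/-- Proof. Let `h` vanish on `Idx n`. `h p q r = 0` if `p = q`; if `p < q` and `p ≤ r`; if `r < p < q` then
`h p q r = - h q r p - h r p q = h r q p - h r p q = 0`; if `q < p` use `h p q r = - h q p r`. -/
theorem rho_injective (n : ℕ) : Function.Injective (rho n) := by
  rw [injective_iff_map_eq_zero]
  intro h hz
  obtain ⟨f0, f1, f2⟩ := h.2
  have hb : ∀ p q r : Fin n, p < q → p ≤ r → h.1 p q r = 0 := fun p q r hpq hpr =>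
    congrFun hz ⟨(p, q, r), hpq, hpr⟩
  have hc : ∀ p q r : Fin n, p < q → h.1 p q r = 0 := by
    intro p q r hpq
    rcases le_or_gt p r with hpr | hrp
    · exact hb p q r hpq hpr
    · have e1 := f2 p q r
      have e2 := f1 r q p
      have e3 := hb r q p (hrp.trans hpq) hrp.le
      have e4 := hb r p q hrp (hrp.trans hpq).le
      rw [e2, e3, e4] at e1
      simpa using e1
  apply Subtype.ext
  funext p q r
  show h.1 p q r = 0
  rcases lt_trichotomy p q with hpq | hpq | hpq
  · exact hc p q r hpq
  · rw [hpq]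
    exact f0 q r
  · rw [f1 q p r, hc q p r hpq, neg_zero]

/-- `LinearIndependent.map'` along `rho n` and `LinearIndependent.fintype_card_le_finrank` (or
`LinearIndependent.fintype_card_le_card`), `card_Idx`. -/
theorem card_le_of_linearIndependent {κ : Type*} [Fintype κ] (V : κ → Hk n) (h : LinearIndependent R V) :
    Fintype.card κ ≤ 2 * (n + 1).choose 3 := by
  have h1 : LinearIndependent R (rho n ∘ V) :=
    h.map' (rho n) (LinearMap.ker_eq_bot.2 (rho_injective n))
  have h2 := h1.fintype_card_le_finrank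
  rwa [Module.finrank_fintype_fun_eq_card, card_Idx] at h2

end Gossip
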