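import Mathlib
import Pool.Agent.Lib.MP_8f6a89_co.HoB

/-!
# Gossip: decomposable tensors and functionals
-/

set_option autoImplicit false

namespace Gossip

open scoped ENNReal

variable {n : ℕ}

/-- the tensor `(x ∧ y) ⊗ x` or `(x ∧ y) ⊗ y` -/
noncomputable def tens (x y : Fin n → R) (c : Bool) : Fin n → Fin n → Fin n → R :=
  fun p q r => (x p * y q - x q * y p) * (bif c then y r else x r)

theorem tens_mem (x y : Fin n → R) (c : Bool) : tens x y c ∈ Hk n := by
  refine ⟨fun p r => ?_, fun p q r => ?_, fun p q r => ?_⟩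
  · simp only [tens]; ring
  · simp only [tens]; ring
  · cases c
    · simp only [tens, cond_false]; ring
    · simp only [tens, cond_true]; ring

/-- the functional `(i ∧ l) ⊗ (column j of A)` -/
noncomputable def phi1 (A : Matrix (Fin n) (Fin n) R) (i l j : Fin n) : Hk n →ₗ[R] R where
  toFun h := ∑ r, h.1 i l r * A r j
  map_add' f g := by simp [add_mul, Finset.sum_add_distrib]
  map_smul' c f := by simp [Finset.mul_sum, mul_assoc]

/-- the functional `(column k of A ∧ column j of A) ⊗ i` -/
noncomputable def phi2 (A : Matrix (Fin n) (Fin n) R) (k j i : Fin n) : Hk n →ₗ[R] R where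
  toFun h := ∑ p, ∑ q, A p k * A q j * h.1 p q i
  map_add' f g := by simp [mul_add, Finset.sum_add_distrib]
  map_smul' c f := by
    simp only [Submodule.coe_smul, Pi.smul_apply, smul_eq_mul, RingHom.id_apply, Finset.mul_sum]
    refine Finset.sum_congr rfl fun p _ => Finset.sum_congr rfl fun q _ => by ring

theorem phi1_tens (A : Matrix (Fin n) (Fin n) R) (i l j : Fin n) (x y : Fin n → R) (c : Bool) :
    phi1 A i l j ⟨tens x y c, tens_mem x y c⟩ =
      (x i * y l - x l * y i) * ∑ r, A r j * (bif c then y r else x r) := by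
  show ∑ r, tens x y c i l r * A r j = _
  rw [Finset.mul_sum]
  refine Finset.sum_congr rfl fun r _ => ?_
  simp only [tens]
  ring

theorem phi2_tens (A : Matrix (Fin n) (Fin n) R) (k j i : Fin n) (x y : Fin n → R) (c : Bool) :
    phi2 A k j i ⟨tens x y c, tens_mem x y c⟩ =
      ((∑ p, A p k * x p) * (∑ q, A q j * y q) - (∑ q, A q j * x q) * (∑ p, A p k * y p)) *
        (bif c then y i else x i) := by
  show ∑ p, ∑ q, A p k * A q j * tens x y c p q i = _
  have h1 : (∑ p, A p k * x p) * (∑ q, A q j * y q) =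
      ∑ p, ∑ q, (A p k * x p) * (A q j * y q) := Finset.sum_mul_sum _ _ _ _
  have h2 : (∑ q, A q j * x q) * (∑ p, A p k * y p) =
      ∑ p, ∑ q, (A q j * x q) * (A p k * y p) := by
    rw [mul_comm, Finset.sum_mul_sum]
    refine Finset.sum_congr rfl fun p _ => Finset.sum_congr rfl fun q _ => ?_
    ring
  rw [h1, h2, ← Finset.sum_sub_distrib, Finset.sum_mul]
  refine Finset.sum_congr rfl fun p _ => ?_
  rw [← Finset.sum_sub_distrib, Finset.sum_mul]
  refine Finset.sum_congr rfl fun q _ => ?_
  simp only [tens]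
  ring

end Gossip
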