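import Mathlib
import Pool.Agent.Lib.MP_8f6a89_co.VaA

/-!
# Gossip: dominant diagonal
-/

set_option autoImplicit false

namespace Gossip

open scoped ENNReal

/-- Dominant diagonal. Let `V c`, `c : κ`, be vectors of an `R`-module, and for each `c` let `φ c` be a linear
functional and `D c < ⊤` with `v (φ c (V c)) = D c` and `D c < v (φ c (V c'))` for `c' ≠ c`. Then the `V c` are linearly
independent. Proof. Let `∑ y c • V c = 0` (`Fintype.linearIndependent_iff`) and suppose that some `y c ≠ 0`. Choose `c` with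
`v (y c)` minimal (`Finite.exists_min`); then `v (y c) < ⊤` (`v_eq_top`). Apply `φ c`: the summand of `c` has order
`v (y c) + D c`, all others have larger order (`v (y c') + v (φ c (V c')) > v (y c) + D c`, as `v (y c) < ⊤`); so
`y c * φ c (V c) = - ∑ (others)` has order larger than itself (`lt_v_sum`, `v_neg`), a contradiction. -/
theorem linearIndependent_of_dominant {κ E : Type*} [Fintype κ] [AddCommGroup E] [Module R E]
    (V : κ → E) (φ : κ → E →ₗ[R] R) (D : κ → ℝ≥0∞) (hD : ∀ c, D c < ⊤)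
    (h1 : ∀ c, v (φ c (V c)) = D c) (h2 : ∀ c c', c' ≠ c → D c < v (φ c (V c'))) :
    LinearIndependent R V := by
  classical
  rw [Fintype.linearIndependent_iff]
  intro y hy
  by_contra hne
  push Not at hne
  obtain ⟨c₀, hc₀⟩ := hne
  have : Nonempty κ := ⟨c₀⟩
  obtain ⟨c, hc⟩ := Finite.exists_min (fun c => v (y c))
  have hc₀' : v (y c₀) ≠ ⊤ := fun h => hc₀ (v_eq_top.1 h)
  have hfin : v (y c) < ⊤ := lt_of_le_of_lt (hc c₀) (lt_top_iff_ne_top.2 hc₀')
  have h0 : ∑ c', y c' * φ c (V c') = 0 := by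
    have h := congrArg (φ c) hy
    rw [map_sum, map_zero] at h
    rw [← h]
    exact Finset.sum_congr rfl fun c' _ => by rw [map_smul, smul_eq_mul]
  rw [← Finset.add_sum_erase Finset.univ _ (Finset.mem_univ c)] at h0
  have h3 : v (y c * φ c (V c)) = v (∑ x ∈ Finset.univ.erase c, y x * φ c (V x)) := by
    rw [eq_neg_of_add_eq_zero_left h0, v_neg]
  have h4 : v (y c) + D c < v (∑ x ∈ Finset.univ.erase c, y x * φ c (V x)) := by
    refine lt_v_sum _ _ _ (ENNReal.add_lt_top.2 ⟨hfin, hD c⟩) fun x hx => ?_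
    rw [v_mul]
    exact ENNReal.add_lt_add_of_le_of_lt hfin.ne (hc x) (h2 c x (Finset.ne_of_mem_erase hx))
  rw [← h3, v_mul, h1] at h4
  exact lt_irrefl _ h4

end Gossip
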