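import Mathlib
import Pool.Agent.Lib.MP_8f6a89_co.VaB
import Pool.Agent.Lib.MP_8f6a89_co.TrD

/-!
# Gossip: orthogonal matrices over power series
-/

set_option autoImplicit false

namespace Gossip

open scoped ENNReal

open Matrix

variable {n : ℕ}

/-- the vector `e_k + e_l` -/
noncomputable def uu (k l : Fin n) : Fin n → R := Pi.single k 1 + Pi.single l 1

/-- the rotation `1 + X^b (e_k + e_l)(e_k + e_l)^T` -/
noncomputable def G (k l : Fin n) (b : ℕ) : Matrix (Fin n) (Fin n) R :=
  1 + (PowerSeries.X : R) ^ b • Matrix.vecMulVec (uu k l) (uu k l)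

/-- the product of the rotations `a, ..., c - 1` -/
noncomputable def PM (K L : ℕ → Fin n) (b : ℕ → ℕ) (a c : ℕ) : Matrix (Fin n) (Fin n) R :=
  ((List.range' a (c - a)).map fun s => G (K s) (L s) (b s)).prod

theorem MaA_two : (1 : R) + 1 = 0 := by
  have h : (1 : R) + 1 = PowerSeries.C ((1 : ZMod 2) + 1) := by
    rw [map_add, map_one]
  rw [h]
  have h2 : (1 : ZMod 2) + 1 = 0 := by decide
  rw [h2, map_zero]

theorem G_transpose (k l : Fin n) (b : ℕ) : (G k l b)ᵀ = G k l b := by
  unfold G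
  rw [Matrix.transpose_add, Matrix.transpose_one, Matrix.transpose_smul, Matrix.transpose_vecMulVec]

/-- `uu ⬝ uu = 1 + 1 = 0` in characteristic 2 (`k ≠ l`), and `M * M = x ^ 2 (uu ⬝ uu) • vecMulVec uu uu = 0` for
`M = x • vecMulVec uu uu`, `M + M = 0` (`CharTwo.add_self_eq_zero`; `PowerSeries (ZMod 2)` has characteristic 2). -/
theorem G_sq {k l : Fin n} (hkl : k ≠ l) (b : ℕ) : G k l b * G k l b = 1 := by
  have h2 : (1 : R) + 1 = 0 := MaA_two
  have hu : uu k l ⬝ᵥ uu k l = 0 := by
    unfold uu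
    rw [add_dotProduct, dotProduct_add, dotProduct_add]
    simp only [dotProduct_single, single_dotProduct, Pi.single_eq_same, Pi.single_eq_of_ne hkl,
      Pi.single_eq_of_ne hkl.symm, mul_one, one_mul, add_zero, zero_add]
    exact h2
  have hM : ((PowerSeries.X : R) ^ b • Matrix.vecMulVec (uu k l) (uu k l)) *
      ((PowerSeries.X : R) ^ b • Matrix.vecMulVec (uu k l) (uu k l)) = 0 := by
    rw [Matrix.smul_mul, Matrix.mul_smul, Matrix.vecMulVec_mul_vecMulVec, hu]
    simp
  have hA : ∀ N : Matrix (Fin n) (Fin n) R, N + N = 0 := by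
    intro N
    ext i j
    rw [Matrix.add_apply, Matrix.zero_apply]
    have : N i j + N i j = (1 + 1) * N i j := by ring
    rw [this, h2, zero_mul]
  unfold G
  rw [add_mul, mul_add, mul_add, hM, one_mul, mul_one, one_mul, add_zero, add_assoc, hA, add_zero]

section
variable (K L : ℕ → Fin n) (b : ℕ → ℕ)

theorem PM_split {a c d : ℕ} (hac : a ≤ c) (hcd : c ≤ d) :
    PM K L b a d = PM K L b a c * PM K L b c d := by
  unfold PM
  rw [← List.prod_append, ← List.map_append]
  have h : List.range' a (d - a) = List.range' a (c - a) ++ List.range' c (d - c) := by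
    have h1 : d - a = (c - a) + (d - c) := by omega
    have h2 : c = a + (c - a) := by omega
    rw [h1]
    conv_rhs => rw [h2]
    have h3 : a + (c - a) - a = c - a := by omega
    have h4 : d - (a + (c - a)) = d - c := by omega
    rw [h3, h4]
    have h5 := @List.range'_append_1 a (c - a) (d - c)
    rw [← h5]
  rw [h]

theorem PM_self (a : ℕ) : PM K L b a a = 1 := by
  unfold PM
  rw [Nat.sub_self]
  rfl

theorem PM_one (s : ℕ) : PM K L b s (s + 1) = G (K s) (L s) (b s) := by
  unfold PM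
  rw [Nat.add_sub_cancel_left]
  simp

theorem MaA_list (hKL : ∀ s, K s ≠ L s) (l : List ℕ) :
    ((l.map fun s => G (K s) (L s) (b s)).prod)ᵀ * (l.map fun s => G (K s) (L s) (b s)).prod = 1 := by
  induction l with
  | nil => simp
  | cons s l ih =>
    rw [List.map_cons, List.prod_cons, Matrix.transpose_mul, G_transpose, mul_assoc,
      ← mul_assoc (G (K s) (L s) (b s)), G_sq (hKL s), one_mul]
    exact ih

/-- Induction on the list, `G_transpose`, `G_sq`: `(A * B)ᵀ * (A * B) = Bᵀ * (Aᵀ * A) * B`. -/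
theorem PM_orth (hKL : ∀ s, K s ≠ L s) (a c : ℕ) : (PM K L b a c)ᵀ * PM K L b a c = 1 := by
  unfold PM
  exact MaA_list K L b hKL _

/-- `(PM 0 N)ᵀ * PM 0 s = (PM s N)ᵀ`: `PM_split`, `transpose_mul`, `PM_orth`. -/
theorem PM_adj (hKL : ∀ s, K s ≠ L s) {s N : ℕ} (hs : s ≤ N) :
    (PM K L b 0 N)ᵀ * PM K L b 0 s = (PM K L b s N)ᵀ := by
  rw [PM_split K L b (Nat.zero_le s) hs, Matrix.transpose_mul, mul_assoc, PM_orth K L b hKL, mul_one]

end

end Gossip
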