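import Mathlib
import Pool.Agent.Lib.MP_8f6a89_co.MaA

/-!
# Gossip: first and last letter of the matrix products
-/

set_option autoImplicit false

namespace Gossip

open scoped ENNReal

open Matrix

variable {n : ℕ} (K L : ℕ → Fin n) (b : ℕ → ℕ)

theorem MaB_uu_left {k l : Fin n} (hkl : k ≠ l) : uu k l k = 1 := by
  unfold uu
  rw [Pi.add_apply, Pi.single_eq_same, Pi.single_eq_of_ne hkl, add_zero]

theorem MaB_uu_right {k l : Fin n} (hkl : k ≠ l) : uu k l l = 1 := by
  unfold uu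
  rw [Pi.add_apply, Pi.single_eq_same, Pi.single_eq_of_ne hkl.symm, zero_add]

theorem MaB_uu_other {k l i : Fin n} (hk : i ≠ k) (hl : i ≠ l) : uu k l i = 0 := by
  unfold uu
  rw [Pi.add_apply, Pi.single_eq_of_ne hk, Pi.single_eq_of_ne hl, zero_add]

theorem MaB_uu_dot (k l : Fin n) (v : Fin n → R) : uu k l ⬝ᵥ v = v k + v l := by
  unfold uu
  rw [add_dotProduct, single_dotProduct, single_dotProduct, one_mul, one_mul]

/-- the rows of `G * P` -/
theorem MaB_G_mul (k l : Fin n) (e : ℕ) (P : Matrix (Fin n) (Fin n) R) (i j : Fin n) :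
    (G k l e * P) i j = P i j + (PowerSeries.X : R) ^ e * (uu k l i * (P k j + P l j)) := by
  unfold G
  rw [Matrix.add_mul, Matrix.one_mul, Matrix.add_apply, Matrix.smul_mul, Matrix.smul_apply,
    smul_eq_mul]
  have h : (vecMulVec (uu k l) (uu k l) * P) i j = uu k l i * (uu k l ⬝ᵥ fun m => P m j) := by
    rw [Matrix.mul_apply, dotProduct, Finset.mul_sum]
    refine Finset.sum_congr rfl fun m _ => ?_
    rw [Matrix.vecMulVec_apply, mul_assoc]
  rw [h, MaB_uu_dot]

/-- the columns of `P * G` -/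
theorem MaB_mul_G (k l : Fin n) (e : ℕ) (P : Matrix (Fin n) (Fin n) R) (i j : Fin n) :
    (P * G k l e) i j = P i j + (PowerSeries.X : R) ^ e * (uu k l j * (P i k + P i l)) := by
  unfold G
  rw [Matrix.mul_add, Matrix.mul_one, Matrix.add_apply, Matrix.mul_smul, Matrix.smul_apply,
    smul_eq_mul]
  have h : (P * vecMulVec (uu k l) (uu k l)) i j = uu k l j * (uu k l ⬝ᵥ fun m => P i m) := by
    rw [Matrix.mul_apply, dotProduct, Finset.mul_sum]
    refine Finset.sum_congr rfl fun m _ => ?_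
    rw [Matrix.vecMulVec_apply]
    ring
  rw [h, MaB_uu_dot]

theorem MaB_first {s c : ℕ} (hs : s < c) :
    PM K L b s c = G (K s) (L s) (b s) * PM K L b (s + 1) c := by
  rw [PM_split K L b (Nat.le_succ s) hs, PM_one]

theorem MaB_last {a s : ℕ} (hs : a ≤ s) :
    PM K L b a (s + 1) = PM K L b a s * G (K s) (L s) (b s) := by
  rw [PM_split K L b hs (Nat.le_succ s), PM_one]

/-- First letter, entries: for a call `s` between `k` and `l`,
`PM s c k j = (1 + X^b) * PM (s+1) c k j + X^b * PM (s+1) c l j`. -/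
theorem PM_first {s c : ℕ} (hs : s < c) (hKL : K s ≠ L s) {k l : Fin n} (h : Bet K L s k l) (j : Fin n) :
    PM K L b s c k j = (1 + (PowerSeries.X : R) ^ b s) * PM K L b (s + 1) c k j +
      (PowerSeries.X : R) ^ b s * PM K L b (s + 1) c l j := by
  rw [MaB_first K L b hs, MaB_G_mul]
  rcases h with ⟨hk, hl⟩ | ⟨hk, hl⟩
  · rw [hk, hl, MaB_uu_left hKL]
    ring
  · rw [hk, hl, MaB_uu_right hKL]
    ring

theorem PM_first_other {s c : ℕ} (hs : s < c) {i : Fin n} (hK : i ≠ K s) (hL : i ≠ L s) (j : Fin n) :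
    PM K L b s c i j = PM K L b (s + 1) c i j := by
  rw [MaB_first K L b hs, MaB_G_mul, MaB_uu_other hK hL, zero_mul, mul_zero, add_zero]

theorem PM_last {a s : ℕ} (hs : a ≤ s) (hKL : K s ≠ L s) {k l : Fin n} (h : Bet K L s k l) (i : Fin n) :
    PM K L b a (s + 1) i k = PM K L b a s i k * (1 + (PowerSeries.X : R) ^ b s) +
      PM K L b a s i l * (PowerSeries.X : R) ^ b s := by
  rw [MaB_last K L b hs, MaB_mul_G]
  rcases h with ⟨hk, hl⟩ | ⟨hk, hl⟩
  · rw [hk, hl, MaB_uu_left hKL]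
    ring
  · rw [hk, hl, MaB_uu_right hKL]
    ring

theorem PM_last_other {a s : ℕ} (hs : a ≤ s) {j : Fin n} (hK : j ≠ K s) (hL : j ≠ L s) (i : Fin n) :
    PM K L b a (s + 1) i j = PM K L b a s i j := by
  rw [MaB_last K L b hs, MaB_mul_G, MaB_uu_other hK hL, zero_mul, mul_zero, add_zero]

end Gossip
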