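import Mathlib
import Pool.Agent.Lib.MP_8f6a89_co.MaB

/-!
# Gossip: exact orders, suffixes
-/

set_option autoImplicit false

namespace Gossip

open scoped ENNReal

open Matrix

variable {n : ℕ} (K L : ℕ → Fin n) (b : ℕ → ℕ)

/-- All weights divisible by `d`: finite entries are divisible by `d`. Induction on `c - a` with `T_exists` at
`a, c, c + 1` and `T_one` (entries of `call`: `0`, `b s`, `⊤`). -/
theorem T_dvd (d a c : ℕ) (h : ∀ r, a ≤ r → r < c → d ∣ b r) (i j : Fin n) :
    T K L (fun s => (b s : ℝ≥0∞)) a c i j = ⊤ ∨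
      ∃ m : ℕ, T K L (fun s => (b s : ℝ≥0∞)) a c i j = ((d * m : ℕ) : ℝ≥0∞) := by
  by_cases hac : a ≤ c
  · induction c, hac using Nat.le_induction generalizing i j with
    | base =>
      rw [T_self]
      by_cases hij : i = j
      · exact Or.inr ⟨0, by simp [one, hij]⟩
      · exact Or.inl (by simp [one, hij])
    | succ c hac ih =>
      obtain ⟨m, hm⟩ := T_exists K L (fun s => (b s : ℝ≥0∞)) hac (Nat.le_succ c) i j
      rw [hm]
      rcases ih (fun r h1 h2 => h r h1 (by omega)) i m with h1 | ⟨p, hp⟩
      · exact Or.inl (by rw [h1, top_add])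
      · rw [hp]
        show _ + T K L (fun s => (b s : ℝ≥0∞)) c (c + 1) m j = ⊤ ∨ ∃ m_1 : ℕ,
          _ + T K L (fun s => (b s : ℝ≥0∞)) c (c + 1) m j = _
        rw [T_one]
        unfold call
        split_ifs with h2 h3
        · exact Or.inr ⟨p, by rw [add_zero]⟩
        · obtain ⟨e, he⟩ := h c hac (Nat.lt_succ_self c)
          refine Or.inr ⟨p + e, ?_⟩
          rw [he]
          push_cast
          ring
        · exact Or.inl (by rw [add_top])
  · have h0 : T K L (fun s => (b s : ℝ≥0∞)) a c = one := by
      have h1 : c - a = 0 := by omega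
      unfold T wd
      rw [h1]
      rfl
    rw [h0]
    by_cases hij : i = j
    · exact Or.inr ⟨0, by simp [one, hij]⟩
    · exact Or.inl (by simp [one, hij])

/-- Exact orders, suffixes. Proof. Induction on `c - a` (letter `a` first): `T_self`, `PM_self` for `a = c`. Step: for
`i ≠ K a, L a` use `PM_first_other`, `T_first_other`. For `i = k` with `Bet K L a k l`: `PM_first`, `T_first`; put
`α = T (a+1) c k j`, `β = T (a+1) c l j`; the two summands have orders `α` (`v_one_add_X_pow`) and `b a + β` (`v_mul`,
`v_X_pow`). If they are different use `v_add_of_ne`. If they are equal and finite then `α = d m`, `β = d m'`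
(`T_dvd` for the `d` of `a`), so `b a = d m - d m'` is divisible by `d`, a contradiction; if both are `⊤` then both
summands are `0` (`v_eq_top`). -/
theorem exact_suffix (hb : ∀ s, 0 < b s) (hKL : ∀ s, K s ≠ L s) (a c : ℕ) (hac : a ≤ c)
    (hd : ∀ s, a ≤ s → s < c → ∃ d : ℕ, (∀ r, s < r → r < c → d ∣ b r) ∧ ¬ d ∣ b s) (i j : Fin n) :
    v (PM K L b a c i j) = T K L (fun s => (b s : ℝ≥0∞)) a c i j := by
  induction hk : c - a generalizing a i j with
  | zero =>
    have h0 : a = c := by omega
    subst h0
    rw [PM_self, T_self]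
    by_cases hij : i = j
    · subst hij
      rw [Matrix.one_apply_eq, v_one]
      simp [one]
    · rw [Matrix.one_apply_ne hij, v_zero]
      simp [one, hij]
  | succ k ih =>
    have ha : a < c := by omega
    have ih' : ∀ i j, v (PM K L b (a + 1) c i j) = T K L (fun s => (b s : ℝ≥0∞)) (a + 1) c i j :=
      fun i j => ih (a + 1) (by omega) (fun s h1 h2 => hd s (by omega) h2) i j (by omega)
    have key : ∀ k l, Bet K L a k l → ∀ j,
        v (PM K L b a c k j) = T K L (fun s => (b s : ℝ≥0∞)) a c k j := by
      intro k l h j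
      rw [PM_first K L b ha (hKL a) h j, T_first K L (fun s => (b s : ℝ≥0∞)) ha (hKL a) h j]
      have h1 : v ((1 + (PowerSeries.X : R) ^ b a) * PM K L b (a + 1) c k j) =
          T K L (fun s => (b s : ℝ≥0∞)) (a + 1) c k j := by
        rw [v_mul, v_one_add_X_pow (hb a), zero_add, ih']
      have h2 : v ((PowerSeries.X : R) ^ b a * PM K L b (a + 1) c l j) =
          (b a : ℝ≥0∞) + T K L (fun s => (b s : ℝ≥0∞)) (a + 1) c l j := by
        rw [v_mul, v_X_pow, ih']
      by_cases hne : T K L (fun s => (b s : ℝ≥0∞)) (a + 1) c k j =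
          (b a : ℝ≥0∞) + T K L (fun s => (b s : ℝ≥0∞)) (a + 1) c l j
      · obtain ⟨d, hd1, hd2⟩ := hd a le_rfl ha
        rcases T_dvd K L b d (a + 1) c (fun r h1 h2 => hd1 r (by omega) h2) k j with h3 | ⟨m, hm⟩
        · have h5 := v_eq_top.1 (h1.trans h3)
          have h6 := v_eq_top.1 (h2.trans (hne.symm.trans h3))
          rw [h5, h6, add_zero, v_zero, ← hne, h3, min_self]
        · rcases T_dvd K L b d (a + 1) c (fun r h1 h2 => hd1 r (by omega) h2) l j with h4 | ⟨m', hm'⟩
          · rw [hm, h4, add_top] at hne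
            exact absurd hne (ENNReal.natCast_ne_top _)
          · exfalso
            rw [hm, hm'] at hne
            have h7 : d * m = b a + d * m' := by exact_mod_cast hne
            apply hd2
            have h8 : d ∣ b a + d * m' := h7 ▸ Dvd.intro _ rfl
            exact (Nat.dvd_add_left (Dvd.intro _ rfl)).1 h8
      · rw [v_add_of_ne (by rw [h1, h2]; exact hne), h1, h2]
    by_cases hK : i = K a
    · exact key i (L a) (Or.inl ⟨hK, rfl⟩) j
    · by_cases hL : i = L a
      · exact key i (K a) (Or.inr ⟨hL, rfl⟩) j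
      · rw [PM_first_other K L b ha hK hL, T_first_other K L (fun s => (b s : ℝ≥0∞)) ha hK hL, ih']

end Gossip
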