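import Mathlib
import Pool.Agent.Lib.MP_8f6a89_co.MaC

/-!
# Gossip: exact orders, words from the left
-/

set_option autoImplicit false

namespace Gossip

open scoped ENNReal

open Matrix

variable {n : ℕ} (K L : ℕ → Fin n) (b : ℕ → ℕ)

/-- Exact orders, words starting at `a`, last letter first: as `exact_suffix`, with `PM_last`, `T_last`. -/
theorem exact_pre (hb : ∀ s, 0 < b s) (hKL : ∀ s, K s ≠ L s) (a c : ℕ) (hac : a ≤ c)
    (hd : ∀ s, a ≤ s → s < c → ∃ d : ℕ, (∀ r, a ≤ r → r < s → d ∣ b r) ∧ ¬ d ∣ b s) (i j : Fin n) :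
    v (PM K L b a c i j) = T K L (fun s => (b s : ℝ≥0∞)) a c i j := by
  induction c, hac using Nat.le_induction generalizing i j with
  | base =>
    rw [PM_self, T_self]
    unfold one
    by_cases h : i = j
    · subst h
      rw [Matrix.one_apply_eq, v_one, if_pos rfl]
    · rw [Matrix.one_apply_ne h, v_zero, if_neg h]
  | succ c hac ih =>
    have ih' : ∀ i j : Fin n, v (PM K L b a c i j) = T K L (fun s => (b s : ℝ≥0∞)) a c i j :=
      fun i j => ih (fun s h1 h2 => hd s h1 (by omega)) i j
    have key : ∀ k l : Fin n, Bet K L c k l →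
        v (PM K L b a (c + 1) i k) = T K L (fun s => (b s : ℝ≥0∞)) a (c + 1) i k := by
      intro k l hkl
      rw [PM_last K L b hac (hKL c) hkl i, T_last K L _ hac (hKL c) hkl i]
      have e1 : v (PM K L b a c i k * (1 + (PowerSeries.X : R) ^ b c)) =
          T K L (fun s => (b s : ℝ≥0∞)) a c i k := by
        rw [v_mul, v_one_add_X_pow (hb c), add_zero, ih']
      have e2 : v (PM K L b a c i l * (PowerSeries.X : R) ^ b c) =
          T K L (fun s => (b s : ℝ≥0∞)) a c i l + (b c : ℝ≥0∞) := by
        rw [v_mul, v_X_pow, ih']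
      by_cases hne : T K L (fun s => (b s : ℝ≥0∞)) a c i k =
          T K L (fun s => (b s : ℝ≥0∞)) a c i l + (b c : ℝ≥0∞)
      · obtain ⟨d, hd1, hd2⟩ := hd c hac (by omega)
        rcases T_dvd K L b d a c hd1 i k with h1 | ⟨m, h1⟩
        · have h2 : T K L (fun s => (b s : ℝ≥0∞)) a c i l + (b c : ℝ≥0∞) = ⊤ := by rw [← hne, h1]
          have h3 : PM K L b a c i k = 0 := by rw [← v_eq_top, ih', h1]
          have h4 : PM K L b a c i l * (PowerSeries.X : R) ^ b c = 0 := by rw [← v_eq_top, e2, h2]
          rw [h3, h4, zero_mul, add_zero, v_zero, h1, h2, min_self]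
        · exfalso
          rcases T_dvd K L b d a c hd1 i l with h2 | ⟨m', h2⟩
          · rw [h1, h2, top_add] at hne
            exact ENNReal.natCast_ne_top _ hne
          · rw [h1, h2] at hne
            have h3 : d * m = d * m' + b c := by exact_mod_cast hne
            exact hd2 ((Nat.dvd_add_right (dvd_mul_right d m')).1 (h3 ▸ dvd_mul_right d m))
      · rw [v_add_of_ne (by rw [e1, e2]; exact hne), e1, e2]
    by_cases hK : j = K c
    · exact key j (L c) (Or.inl ⟨hK, rfl⟩)
    · by_cases hL : j = L c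
      · exact key j (K c) (Or.inr ⟨hL, rfl⟩)
      · rw [PM_last_other K L b hac hK hL i, T_last_other K L _ hac hK hL i]
        exact ih' i j

end Gossip
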