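import Mathlib
import Pool.Agent.Lib.MP_8f6a89_co.StD
import Pool.Agent.Lib.MP_8f6a89_co.MaD
import Pool.Agent.Lib.MP_8f6a89_co.HoC

/-!
# Gossip: vectors of the letters
-/

set_option autoImplicit false

namespace Gossip

open scoped ENNReal

variable {n : ℕ} (K L : ℕ → Fin n) (b : ℕ → ℕ)

/-- integer weights as weights -/
noncomputable def nb (s : ℕ) : ℝ≥0∞ := (b s : ℝ≥0∞)

/-- the two vectors of the letter `s` -/
noncomputable def vec (s : ℕ) (c : Bool) : Hk n :=
  (PowerSeries.X : R) ^ b s •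
    ⟨tens (fun p => PM K L b 0 s p (K s)) (fun p => PM K L b 0 s p (L s)) c, tens_mem _ _ _⟩

section
variable {K L b}

theorem CoA_adj (hKL : ∀ s, K s ≠ L s) {s N : ℕ} (hs : s ≤ N) (j k : Fin n) :
    ∑ r, PM K L b 0 N r j * PM K L b 0 s r k = PM K L b s N k j := by
  have h := congrFun (congrFun (PM_adj K L b hKL hs) j) k
  rw [Matrix.mul_apply, Matrix.transpose_apply] at h
  rw [← h]
  refine Finset.sum_congr rfl fun r _ => ?_
  rw [Matrix.transpose_apply]

/-- `phi1_tens`, `PM_adj` (entry `(j, K s)` resp. `(j, L s)`: `∑ r, A r j * PM 0 s r k = PM s N k j`). -/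
theorem phi1_vec (hKL : ∀ s, K s ≠ L s) {s N : ℕ} (hs : s ≤ N) (c : Bool) (i l j : Fin n) :
    phi1 (PM K L b 0 N) i l j (vec K L b s c) = (PowerSeries.X : R) ^ b s *
      ((PM K L b 0 s i (K s) * PM K L b 0 s l (L s) - PM K L b 0 s l (K s) * PM K L b 0 s i (L s)) *
        PM K L b s N (bif c then L s else K s) j) := by
  unfold vec
  rw [map_smul, phi1_tens, smul_eq_mul]
  congr 2
  rw [← CoA_adj hKL hs]
  cases c
  · rfl
  · rfl

theorem phi2_vec (hKL : ∀ s, K s ≠ L s) {s N : ℕ} (hs : s ≤ N) (c : Bool) (k j i : Fin n) :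
    phi2 (PM K L b 0 N) k j i (vec K L b s c) = (PowerSeries.X : R) ^ b s *
      ((PM K L b s N (K s) k * PM K L b s N (L s) j - PM K L b s N (K s) j * PM K L b s N (L s) k) *
        PM K L b 0 s i (bif c then L s else K s)) := by
  unfold vec
  rw [map_smul, phi2_tens, smul_eq_mul]
  simp only [CoA_adj hKL hs]
  cases c
  · rfl
  · rfl

/-- orders of the products are the min-plus entries -/
structure Exact (K L : ℕ → Fin n) (b : ℕ → ℕ) (N : ℕ) : Prop where
  pre : ∀ s, s ≤ N → ∀ i j, v (PM K L b 0 s i j) = T K L (nb b) 0 s i j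
  suf : ∀ s, s ≤ N → ∀ i j, v (PM K L b s N i j) = T K L (nb b) s N i j

end

end Gossip
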