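import Mathlib
import Pool.Agent.Lib.MP_8f6a89_co.CoA

/-!
# Gossip: pivots
-/

set_option autoImplicit false

namespace Gossip

open scoped ENNReal

variable {n : ℕ} {K L : ℕ → Fin n} {b : ℕ → ℕ}

/-- the finite parts -/
theorem CoB_fin {β : ℕ → ℝ≥0∞} {N t : ℕ} {i j : Fin n} (hw : Wit K L β N t i j) :
    T K L β 0 t i (K t) < ⊤ ∧ β t < ⊤ ∧ T K L β (t + 1) N (L t) j < ⊤ := by
  have h := DD_lt_top hw
  unfold DD at h
  rw [ENNReal.add_lt_top, ENNReal.add_lt_top] at h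
  exact ⟨h.1.1, h.1.2, h.2⟩

theorem CoB_suf_l {β : ℕ → ℝ≥0∞} (hKL : ∀ s, K s ≠ L s) {N t : ℕ} (ht : t < N) {i j : Fin n}
    (hw : Wit K L β N t i j) : T K L β t N (L t) j = T K L β (t + 1) N (L t) j := by
  rw [T_first K L β ht (hKL t) (k := L t) (l := K t) (Or.inr ⟨rfl, rfl⟩) j]
  refine min_eq_left ?_
  have h := S3 hw
  exact le_trans le_add_self (le_trans h.le le_add_self)

theorem CoB_suf_k {β : ℕ → ℝ≥0∞} (hKL : ∀ s, K s ≠ L s) {N t : ℕ} (ht : t < N) {i j : Fin n}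
    (hw : Wit K L β N t i j) : T K L β t N (K t) j = β t + T K L β (t + 1) N (L t) j := by
  rw [T_first K L β ht (hKL t) (k := K t) (l := L t) (Or.inl ⟨rfl, rfl⟩) j]
  exact min_eq_right (S3 hw).le

/-- the minor of the first part -/
theorem CoB_minor1 {N t : ℕ} (ht : t < N) (he : Exact K L b N) {i j : Fin n} (hw : Wit K L (nb b) N t i j) :
    v (PM K L b 0 t i (K t) * PM K L b 0 t (L t) (L t) - PM K L b 0 t (L t) (K t) * PM K L b 0 t i (L t)) =
      T K L (nb b) 0 t i (K t) := by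
  have h1 : v (PM K L b 0 t i (K t) * PM K L b 0 t (L t) (L t)) = T K L (nb b) 0 t i (K t) := by
    rw [v_mul, he.pre t ht.le, he.pre t ht.le, T_diag, add_zero]
  have h2 : T K L (nb b) 0 t i (L t) ≤ v (PM K L b 0 t (L t) (K t) * PM K L b 0 t i (L t)) := by
    rw [v_mul, he.pre t ht.le, he.pre t ht.le]
    exact le_add_self
  have h3 : T K L (nb b) 0 t i (K t) < T K L (nb b) 0 t i (L t) := lt_of_le_of_lt le_self_add (S2 hw)
  rw [v_sub_of_lt (by rw [h1]; exact lt_of_lt_of_le h3 h2), h1]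

/-- the minor of the last part -/
theorem CoB_minor2 (hb : ∀ s, 0 < b s) (hKL : ∀ s, K s ≠ L s) {N t : ℕ} (ht : t < N) (he : Exact K L b N) {i j : Fin n}
    (hw : Wit K L (nb b) N t i j) :
    v (PM K L b t N (K t) (K t) * PM K L b t N (L t) j - PM K L b t N (K t) j * PM K L b t N (L t) (K t)) =
      T K L (nb b) (t + 1) N (L t) j := by
  have h1 : v (PM K L b t N (K t) (K t) * PM K L b t N (L t) j) = T K L (nb b) (t + 1) N (L t) j := by
    rw [v_mul, he.suf t ht.le, he.suf t ht.le, T_diag, zero_add, CoB_suf_l hKL ht hw]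
  have h2 : nb b t + T K L (nb b) (t + 1) N (L t) j ≤ v (PM K L b t N (K t) j * PM K L b t N (L t) (K t)) := by
    rw [v_mul, he.suf t ht.le, he.suf t ht.le, CoB_suf_k hKL ht hw]
    exact le_self_add
  have h3 : T K L (nb b) (t + 1) N (L t) j < nb b t + T K L (nb b) (t + 1) N (L t) j := by
    have h4 : (0 : ℝ≥0∞) < nb b t := by
      unfold nb
      exact_mod_cast hb t
    have h5 := ENNReal.lt_add_right (CoB_fin hw).2.2.ne h4.ne'
    rw [add_comm (nb b t) (T K L (nb b) (t + 1) N (L t) j)]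
    exact h5
  rw [v_sub_of_lt (by rw [h1]; exact lt_of_lt_of_le h3 h2), h1]

/-- Pivot of the first kind: `v (phi1 .. (vec t true)) = DD`. Proof. `phi1_vec`, `v_mul`, `v_X_pow`, `Exact`. The minor
`P i k * P l l - P l k * P i l` has order `T 0 t i k` (`v_sub_of_lt`: `v (P l l) = T_diag = 0`, and `T 0 t i l > T 0 t i k` by `S2`); and
`T t N l j = T (t+1) N l j` by `T_first` and `S3`. -/
theorem pivot1 (hb : ∀ s, 0 < b s) (hKL : ∀ s, K s ≠ L s) {N t : ℕ} (ht : t < N) (he : Exact K L b N) {i j : Fin n}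
    (hw : Wit K L (nb b) N t i j) :
    v (phi1 (PM K L b 0 N) i (L t) j (vec K L b t true)) = DD K L (nb b) N t i j := by
  rw [phi1_vec hKL ht.le, v_mul, v_mul, v_X_pow, CoB_minor1 ht he hw]
  show (b t : ℝ≥0∞) + (_ + v (PM K L b t N (L t) j)) = _
  rw [he.suf t ht.le, CoB_suf_l hKL ht hw]
  unfold DD nb
  ring

/-- The other vector of the same letter. As `pivot1`, with `T t N k j = b t + T (t+1) N l j` (`T_first`, `S3`), so the order is
`DD + b t`. -/
theorem other1 (hb : ∀ s, 0 < b s) (hKL : ∀ s, K s ≠ L s) {N t : ℕ} (ht : t < N) (he : Exact K L b N) {i j : Fin n}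
    (hw : Wit K L (nb b) N t i j) :
    DD K L (nb b) N t i j < v (phi1 (PM K L b 0 N) i (L t) j (vec K L b t false)) := by
  rw [phi1_vec hKL ht.le, v_mul, v_mul, v_X_pow, CoB_minor1 ht he hw]
  show _ < (b t : ℝ≥0∞) + (_ + v (PM K L b t N (K t) j))
  rw [he.suf t ht.le, CoB_suf_k hKL ht hw]
  have h4 : (0 : ℝ≥0∞) < nb b t := by
    unfold nb
    exact_mod_cast hb t
  have h5 := ENNReal.lt_add_right (DD_lt_top hw).ne h4.ne'
  refine lt_of_lt_of_eq h5 ?_
  unfold DD nb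
  ring

/-- Pivot of the second kind. Proof. `phi2_vec`. The minor `Q k k * Q l j - Q k j * Q l k` has order `T (t+1) N l j`:
`v (Q k k) = 0` (`T_diag`), `T t N l j = T (t+1) N l j`, `T t N k j = b t + T (t+1) N l j` (`T_first`, `S3`). -/
theorem pivot2 (hb : ∀ s, 0 < b s) (hKL : ∀ s, K s ≠ L s) {N t : ℕ} (ht : t < N) (he : Exact K L b N) {i j : Fin n}
    (hw : Wit K L (nb b) N t i j) :
    v (phi2 (PM K L b 0 N) (K t) j i (vec K L b t false)) = DD K L (nb b) N t i j := by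
  rw [phi2_vec hKL ht.le, v_mul, v_mul, v_X_pow, CoB_minor2 hb hKL ht he hw]
  show (b t : ℝ≥0∞) + (_ + v (PM K L b 0 t i (K t))) = _
  rw [he.pre t ht.le]
  unfold DD nb
  ring

/-- As `pivot2`, with `T 0 t i l > T 0 t i k + b t` (`S2`). -/
theorem other2 (hb : ∀ s, 0 < b s) (hKL : ∀ s, K s ≠ L s) {N t : ℕ} (ht : t < N) (he : Exact K L b N) {i j : Fin n}
    (hw : Wit K L (nb b) N t i j) :
    DD K L (nb b) N t i j < v (phi2 (PM K L b 0 N) (K t) j i (vec K L b t true)) := by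
  rw [phi2_vec hKL ht.le, v_mul, v_mul, v_X_pow, CoB_minor2 hb hKL ht he hw]
  show _ < (b t : ℝ≥0∞) + (_ + v (PM K L b 0 t i (L t)))
  rw [he.pre t ht.le]
  have h3 : T K L (nb b) 0 t i (K t) < T K L (nb b) 0 t i (L t) := lt_of_le_of_lt le_self_add (S2 hw)
  have h6 : (nb b t + T K L (nb b) (t + 1) N (L t) j) ≠ ⊤ :=
    (ENNReal.add_lt_top.2 ⟨(CoB_fin hw).2.1, (CoB_fin hw).2.2⟩).ne
  have h7 := ENNReal.add_lt_add_left h6 h3
  have e1 : DD K L (nb b) N t i j =
      nb b t + T K L (nb b) (t + 1) N (L t) j + T K L (nb b) 0 t i (K t) := by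
    unfold DD
    ring
  have e2 : (b t : ℝ≥0∞) + (T K L (nb b) (t + 1) N (L t) j + T K L (nb b) 0 t i (L t)) =
      nb b t + T K L (nb b) (t + 1) N (L t) j + T K L (nb b) 0 t i (L t) := by
    unfold nb
    ring
  rw [e1, e2]
  exact h7

end Gossip
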