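import Mathlib
import Pool.Agent.Lib.MP_8f6a89_co.CoB

/-!
# Gossip: other letters
-/

set_option autoImplicit false

namespace Gossip

open scoped ENNReal

variable {n : ℕ} {K L : ℕ → Fin n} {b : ℕ → ℕ}

theorem CoC_aux1 {D b p q w m : ℝ≥0∞} (h1 : D < b + (p + w)) (h2 : D < b + (q + w)) (hm : min p q ≤ m) :
    D < b + (m + w) := by
  rcases min_choice p q with h | h
  · rw [h] at hm
    exact lt_of_lt_of_le h1 (by gcongr)
  · rw [h] at hm
    exact lt_of_lt_of_le h2 (by gcongr)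

theorem CoC_aux2 {D b x y z : ℝ≥0∞} (hD : D < ⊤) (hb : 0 < b) (h : D ≤ x + z) :
    D < b + (x + y + z) := by
  have h1 : D < D + b := ENNReal.lt_add_right hD.ne hb.ne'
  refine lt_of_lt_of_le h1 ?_
  calc D + b ≤ (x + z) + b := by gcongr
    _ = b + (x + 0 + z) := by rw [add_zero, add_comm]
    _ ≤ b + (x + y + z) := by gcongr; exact zero_le

theorem CoC_aux3 {D b x y z : ℝ≥0∞} (hD : D < ⊤) (hb : 0 < b) (h : D ≤ y + z) :
    D < b + (x + y + z) := by
  rw [add_comm x y]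
  exact CoC_aux2 hD hb h

/-- The vectors of the other letters. Proof. `phi1_vec`, `v_mul`, `v_sub`: the order is at least the minimum of
`b s + (T 0 s i K + T 0 s l L + T s N z j)` and `b s + (T 0 s l K + T 0 s i L + T s N z j)`, `K = K s`, `L = L s`, `z ∈ {K, L}`. For
`T 0 s i K` with `z = K` and `T 0 s i L` with `z = L` use `S4` (and `DD < ⊤`, `0 < b s`); for `T 0 s i K` with `z = L` use `S7`
for `(K, L)`, for `T 0 s i L` with `z = K` use `S7` for `(L, K)`. -/
theorem off1 (hb : ∀ s, 0 < b s) (hKL : ∀ s, K s ≠ L s) {N t : ℕ} (ht : t < N) (he : Exact K L b N) {i j : Fin n}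
    (hw : Wit K L (nb b) N t i j) {s : ℕ} (hs : s < N) (hst : s ≠ t) (c : Bool) :
    DD K L (nb b) N t i j < v (phi1 (PM K L b 0 N) i (L t) j (vec K L b s c)) := by
  have hD := DD_lt_top hw
  have hβ : ∀ s, 0 < nb b s := fun s => by
    unfold nb
    exact_mod_cast hb s
  have hX : v ((PowerSeries.X : R) ^ b s) = nb b s := v_X_pow (b s)
  rw [phi1_vec hKL hs.le, v_mul, v_mul, hX, he.suf s hs.le]
  refine CoC_aux1 ?_ ?_ (v_sub _ _)
  · rw [v_mul, he.pre s hs.le, he.pre s hs.le]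
    cases c
    · exact CoC_aux2 hD (hβ s) (S4 hKL ht hw hs.le (K s))
    · exact S7 hβ hKL ht hw hs hst (Or.inl ⟨rfl, rfl⟩)
  · rw [v_mul, he.pre s hs.le, he.pre s hs.le]
    cases c
    · have := S7 hβ hKL ht hw hs hst (k' := L s) (l' := K s) (Or.inr ⟨rfl, rfl⟩)
      rw [add_comm (T K L (nb b) 0 s (L t) (K s))]
      exact this
    · exact CoC_aux3 hD (hβ s) (S4 hKL ht hw hs.le (L s))

/-- As `off1`, with `phi2_vec`, `S4`, `S8`. -/
theorem off2 (hb : ∀ s, 0 < b s) (hKL : ∀ s, K s ≠ L s) {N t : ℕ} (ht : t < N) (he : Exact K L b N) {i j : Fin n}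
    (hw : Wit K L (nb b) N t i j) {s : ℕ} (hs : s < N) (hst : s ≠ t) (c : Bool) :
    DD K L (nb b) N t i j < v (phi2 (PM K L b 0 N) (K t) j i (vec K L b s c)) := by
  have hD := DD_lt_top hw
  have hβ : ∀ s, 0 < nb b s := fun s => by
    unfold nb
    exact_mod_cast hb s
  have hX : v ((PowerSeries.X : R) ^ b s) = nb b s := v_X_pow (b s)
  rw [phi2_vec hKL hs.le, v_mul, v_mul, hX, he.pre s hs.le]
  refine CoC_aux1 ?_ ?_ (v_sub _ _)
  · rw [v_mul, he.suf s hs.le, he.suf s hs.le]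
    cases c
    · exact S8 hβ hKL ht hw hs hst (Or.inl ⟨rfl, rfl⟩)
    · refine CoC_aux3 hD (hβ s) ?_
      rw [add_comm]
      exact S4 hKL ht hw hs.le (L s)
  · rw [v_mul, he.suf s hs.le, he.suf s hs.le]
    cases c
    · refine CoC_aux2 hD (hβ s) ?_
      rw [add_comm]
      exact S4 hKL ht hw hs.le (K s)
    · have := S8 hβ hKL ht hw hs hst (k' := L s) (l' := K s) (Or.inr ⟨rfl, rfl⟩)
      rw [add_comm (T K L (nb b) s N (K s) j)]
      exact this

end Gossip
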