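import Mathlib
import Pool.Agent.Lib.MP_8f6a89_co.CoC

/-!
# Gossip: the bound for integer weights
-/

set_option autoImplicit false

namespace Gossip

open scoped ENNReal

variable {n : ℕ} {K L : ℕ → Fin n} {b : ℕ → ℕ}

/-- Proof. `linearIndependent_of_dominant` for `V (s, c) = vec s c`, `κ = Fin N × Bool`, `φ (t, true) = phi1 A i (L t) j`,
`φ (t, false) = phi2 A (K t) j i` (`A = PM 0 N`, `(i, j)` the witness pair of `t`), `D (t, c) = DD t`; then
`card_le_of_linearIndependent`. -/
theorem core (hb : ∀ s, 0 < b s) (hKL : ∀ s, K s ≠ L s) {N : ℕ} (he : Exact K L b N) (i j : ℕ → Fin n)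
    (hw : ∀ t, t < N → Wit K L (nb b) N t (i t) (j t)) : N ≤ (n + 1).choose 3 := by
  have hli : LinearIndependent R (fun z : Fin N × Bool => vec K L b (z.1 : ℕ) z.2) := by
    refine linearIndependent_of_dominant (fun z : Fin N × Bool => vec K L b (z.1 : ℕ) z.2)
      (fun z => bif z.2 then phi1 (PM K L b 0 N) (i z.1) (L z.1) (j z.1)
        else phi2 (PM K L b 0 N) (K z.1) (j z.1) (i z.1))
      (fun z => DD K L (nb b) N z.1 (i z.1) (j z.1)) ?_ ?_ ?_
    · rintro ⟨t, c⟩
      exact DD_lt_top (hw t t.2)
    · rintro ⟨t, c⟩
      cases c with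
      | true => exact pivot1 hb hKL t.2 he (hw t t.2)
      | false => exact pivot2 hb hKL t.2 he (hw t t.2)
    · rintro ⟨t, c⟩ ⟨s, c'⟩ hne
      by_cases hst : s = t
      · subst hst
        cases c with
        | true =>
          cases c' with
          | true => exact absurd rfl hne
          | false => exact other1 hb hKL s.2 he (hw s s.2)
        | false =>
          cases c' with
          | true => exact other2 hb hKL s.2 he (hw s s.2)
          | false => exact absurd rfl hne
      · have hst' : (s : ℕ) ≠ t := fun h => hst (Fin.ext h)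
        cases c with
        | true => exact off1 hb hKL t.2 he (hw t t.2) s.2 hst' c'
        | false => exact off2 hb hKL t.2 he (hw t t.2) s.2 hst' c'
  have h := card_le_of_linearIndependent _ hli
  rw [Fintype.card_prod, Fintype.card_fin, Fintype.card_bool] at h
  omega

end Gossip
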