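import Mathlib
import Pool.Agent.Lib.MP_8f6a89_co.CoA

/-!
# Gossip: products of three distance matrices, definitions
-/

set_option autoImplicit false

namespace Gossip

open scoped ENNReal

variable {n : ℕ}

/-- the cost of the chain `i, k, l, j` -/
def cst (c : ℕ → Fin n → Fin n → ℕ) (i j k l : Fin n) : ℕ := c 0 i k + c 1 k l + c 2 l j

/-- strict metrics with values in `ℕ`, such that the chains from `i` to `j` have different costs -/
structure Str (c : ℕ → Fin n → Fin n → ℕ) : Prop where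
  diag : ∀ t i, c t i i = 0
  pos : ∀ t i j, i ≠ j → 0 < c t i j
  symm : ∀ t i j, c t i j = c t j i
  tri : ∀ t i j k, i ≠ j → j ≠ k → c t i k < c t i j + c t j k
  uniq : ∀ i j k l k' l', cst c i j k l = cst c i j k' l' → k = k' ∧ l = l'

/-- an enumeration of the pairs `k < l` by the numbers below `P`, continued with period `P` -/
structure Enm (P : ℕ) (K L : ℕ → Fin n) : Prop where
  lt : ∀ s, K s < L s
  per : ∀ s t, s < P → K (t * P + s) = K s ∧ L (t * P + s) = L s
  ex : ∀ i j, i < j → ∃ s, s < P ∧ K s = i ∧ L s = j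
  inj : ∀ s s', s < P → s' < P → K s = K s' → L s = L s' → s = s'

/-- a cheapest chain from `i` to `j` -/
def Opt (c : ℕ → Fin n → Fin n → ℕ) (i j k l : Fin n) : Prop :=
  ∀ k' l', cst c i j k l ≤ cst c i j k' l'

/-- the weights of the letters -/
def bw (P : ℕ) (K L : ℕ → Fin n) (c : ℕ → Fin n → Fin n → ℕ) (s : ℕ) : ℕ :=
  c (s / P) (K s) (L s)

/-- the letter `s` is a step of the chain `i, k, l, j` -/
def Stp (P : ℕ) (K L : ℕ → Fin n) (s : ℕ) (i j k l : Fin n) : Prop :=
  (s / P = 0 ∧ Bet K L s i k) ∨ (s / P = 1 ∧ Bet K L s k l) ∨ (s / P = 2 ∧ Bet K L s l j)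

/-- the matrix of the words that use the letter `s` -/
noncomputable def GG (K L : ℕ → Fin n) (b : ℕ → ℕ) (N s : ℕ) : Matrix (Fin n) (Fin n) R :=
  PM K L b 0 s * ((PowerSeries.X : R) ^ b s • Matrix.vecMulVec (uu (K s) (L s)) (uu (K s) (L s))) *
    PM K L b (s + 1) N

/-- the vector of the letter `s` -/
noncomputable def uv (K L : ℕ → Fin n) (b : ℕ → ℕ) (N s : ℕ) : Fin n → R :=
  Matrix.mulVec (PM K L b (s + 1) N).transpose (uu (K s) (L s))

/-- the symmetric matrix of the letter `s` -/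
noncomputable def ZZ (K L : ℕ → Fin n) (b : ℕ → ℕ) (N s : ℕ) : Matrix (Fin n) (Fin n) R :=
  (PowerSeries.X : R) ^ b s • Matrix.vecMulVec (uv K L b N s) (uv K L b N s)

theorem Enm.ne {P : ℕ} {K L : ℕ → Fin n} (h : Enm P K L) (s : ℕ) : K s ≠ L s := (h.lt s).ne

end Gossip
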