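import Mathlib
import Pool.Agent.Lib.MP_8f6a89_co.M3A

set_option autoImplicit false

namespace Gossip

open scoped ENNReal

variable {n : ℕ}

theorem M3B_card (n : ℕ) : Fintype.card {p : Fin n × Fin n // p.1 < p.2} = n.choose 2 := by
  have e : {p : Fin n × Fin n // p.1 < p.2} ≃ Σ j : Fin n, {i : Fin n // i < j} :=
    ⟨fun p => ⟨p.1.2, ⟨p.1.1, p.2⟩⟩, fun q => ⟨(q.2.1, q.1), q.2.2⟩, fun p => rfl, fun q => rfl⟩
  rw [Fintype.card_congr e, Fintype.card_sigma]
  have h : ∀ j : Fin n, Fintype.card {i : Fin n // i < j} = (j : ℕ) := by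
    intro j
    rw [Fintype.card_subtype]
    have h2 : (Finset.univ.filter fun i : Fin n => i < j) = Finset.Iio j := by
      ext i
      simp
    rw [h2, Fin.card_Iio]
  simp only [h]
  rw [Fin.sum_univ_eq_sum_range (fun i => i) n, Finset.sum_range_id, Nat.choose_two_right]

/-- enumeration: `e : Fin (n.choose 2) ≃ {p : Fin n × Fin n // p.1 < p.2}`, `K s = (e (s % P)).1.1`. -/
theorem exists_enm (hn : 2 ≤ n) : ∃ K L : ℕ → Fin n, Enm (n.choose 2) K L := by
  have hP : 0 < n.choose 2 := Nat.choose_pos hn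
  let e : Fin (n.choose 2) ≃ {p : Fin n × Fin n // p.1 < p.2} :=
    (Fintype.equivFinOfCardEq (M3B_card n)).symm
  refine ⟨fun s => (e ⟨s % n.choose 2, Nat.mod_lt _ hP⟩).1.1,
    fun s => (e ⟨s % n.choose 2, Nat.mod_lt _ hP⟩).1.2, ?_, ?_, ?_, ?_⟩
  · intro s
    exact (e ⟨s % n.choose 2, Nat.mod_lt _ hP⟩).2
  · intro s t _
    have h : (⟨(t * n.choose 2 + s) % n.choose 2, Nat.mod_lt _ hP⟩ : Fin (n.choose 2)) =
        ⟨s % n.choose 2, Nat.mod_lt _ hP⟩ := by
      apply Fin.ext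
      show (t * n.choose 2 + s) % n.choose 2 = s % n.choose 2
      rw [Nat.add_comm, Nat.add_mul_mod_self_right]
    constructor
    · show (e _).1.1 = (e _).1.1
      rw [h]
    · show (e _).1.2 = (e _).1.2
      rw [h]
  · intro i j hij
    refine ⟨(e.symm ⟨(i, j), hij⟩).1, (e.symm ⟨(i, j), hij⟩).2, ?_⟩
    have h : (⟨(e.symm ⟨(i, j), hij⟩).1 % n.choose 2, Nat.mod_lt _ hP⟩ : Fin (n.choose 2)) =
        e.symm ⟨(i, j), hij⟩ := by
      apply Fin.ext
      exact Nat.mod_eq_of_lt (e.symm ⟨(i, j), hij⟩).2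
    constructor
    · show (e _).1.1 = i
      rw [h, e.apply_symm_apply]
    · show (e _).1.2 = j
      rw [h, e.apply_symm_apply]
  · intro s s' hs hs' h1 h2
    have h3 : e ⟨s % n.choose 2, Nat.mod_lt _ hP⟩ = e ⟨s' % n.choose 2, Nat.mod_lt _ hP⟩ :=
      Subtype.ext (Prod.ext h1 h2)
    have h4 := congrArg Fin.val (e.injective h3)
    have h5 : s % n.choose 2 = s' % n.choose 2 := h4
    rwa [Nat.mod_eq_of_lt hs, Nat.mod_eq_of_lt hs'] at h5

end Gossip
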