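import Mathlib
import Pool.Agent.Lib.MP_8f6a89_co.M3A

set_option autoImplicit false

namespace Gossip

open scoped ENNReal

variable {n : ℕ}

/-- A product of letters is at least a metric that is at most the letters. Induction on `b` (`Nat.le_induction`),
`T_exists` at `a, b, b + 1`, `T_one`. -/
theorem M3_le_T (K L : ℕ → Fin n) (β : ℕ → ℝ≥0∞) (D : Fin n → Fin n → ℝ≥0∞) (h0 : ∀ i, D i i = 0)
    (hs : ∀ i j, D i j = D j i) (ht : ∀ i j k, D i k ≤ D i j + D j k) (a b : ℕ) (hab : a ≤ b)
    (h : ∀ s, a ≤ s → s < b → D (K s) (L s) ≤ β s) (i j : Fin n) : D i j ≤ T K L β a b i j := by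
  induction b, hab using Nat.le_induction generalizing i j with
  | base =>
    rw [T_self]
    by_cases hij : i = j
    · subst hij
      rw [h0]
      exact bot_le
    · have e : (one : Fin n → Fin n → ℝ≥0∞) i j = ⊤ := if_neg hij
      rw [e]
      exact le_top
  | succ b hb ih =>
    obtain ⟨m, hm⟩ := T_exists K L β hb (Nat.le_succ b) i j
    rw [hm, T_one]
    refine (ht i m j).trans (add_le_add (ih (fun s h1 h2 => h s h1 (Nat.lt_succ_of_lt h2)) i m) ?_)
    have hK := h b hb (Nat.lt_succ_self b)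
    unfold call
    split_ifs with h1 h2
    · subst h1
      rw [h0]
    · rcases h2 with ⟨rfl, rfl⟩ | ⟨rfl, rfl⟩
      · exact hK
      · rw [hs]
        exact hK
    · exact le_top

/-- Lower bound: `T_exists` at `0, P, 3 * P` and at `P, 2 * P, 3 * P`, `M3_le_T` for the three blocks. -/
theorem low {P : ℕ} {K L : ℕ → Fin n} (c : ℕ → Fin n → Fin n → ℕ) (h0 : ∀ t i, c t i i = 0)
    (hs : ∀ t i j, c t i j = c t j i) (ht : ∀ t i j k, c t i k ≤ c t i j + c t j k) (i j : Fin n) :
    ∃ k l, (cst c i j k l : ℝ≥0∞) ≤ T K L (fun s => (bw P K L c s : ℝ≥0∞)) 0 (3 * P) i j := by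
  obtain ⟨k, hk⟩ := T_exists K L (fun s => (bw P K L c s : ℝ≥0∞)) (Nat.zero_le P)
    (show P ≤ 3 * P by omega) i j
  obtain ⟨l, hl⟩ := T_exists K L (fun s => (bw P K L c s : ℝ≥0∞)) (show P ≤ 2 * P by omega)
    (show 2 * P ≤ 3 * P by omega) k j
  have key : ∀ t a b : ℕ, a = t * P → b = t * P + P → ∀ x y : Fin n,
      (c t x y : ℝ≥0∞) ≤ T K L (fun s => (bw P K L c s : ℝ≥0∞)) a b x y := by
    intro t a b ha hb x y
    refine M3_le_T K L (fun s => (bw P K L c s : ℝ≥0∞)) (fun u v => (c t u v : ℝ≥0∞)) ?_ ?_ ?_ a b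
      (by omega) ?_ x y
    · intro u
      simp only [h0, Nat.cast_zero]
    · intro u v
      simp only [hs t u v]
    · intro u v w
      exact_mod_cast ht t u v w
    · intro s h1 h2
      have hdiv : s / P = t := by
        apply Nat.div_eq_of_lt_le
        · rw [← ha]
          exact h1
        · rw [Nat.succ_mul, ← hb]
          exact h2
      simp only [bw, hdiv]
      exact le_refl _
  refine ⟨k, l, ?_⟩
  rw [hk, hl]
  have e : (cst c i j k l : ℝ≥0∞) = (c 0 i k : ℝ≥0∞) + ((c 1 k l : ℝ≥0∞) + (c 2 l j : ℝ≥0∞)) := by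
    simp only [cst, Nat.cast_add, add_assoc]
  rw [e]
  exact add_le_add (key 0 0 P (by omega) (by omega) i k)
    (add_le_add (key 1 P (2 * P) (by omega) (by omega) k l)
      (key 2 (2 * P) (3 * P) (by omega) (by omega) l j))

end Gossip
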