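import Mathlib
import Pool.Agent.Lib.MP_8f6a89_co.M3A

set_option autoImplicit false

namespace Gossip

open scoped ENNReal

variable {n : ℕ}

/-- A letter is an upper bound: `T_le` twice, `T_one`, `T_diag`, `call`. -/
theorem M3_T_le (K L : ℕ → Fin n) (β : ℕ → ℝ≥0∞) {a b s : ℕ} (has : a ≤ s) (hsb : s < b)
    {i j : Fin n} (h : Bet K L s i j) : T K L β a b i j ≤ β s := by
  refine (T_mono_left K L β has hsb.le i j).trans ?_
  refine (T_mono_right K L β (Nat.le_succ s) hsb i j).trans ?_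
  rw [T_one]
  unfold call
  by_cases hij : i = j
  · rw [if_pos hij]
    exact bot_le
  · have h' : (i = K s ∧ j = L s) ∨ (i = L s ∧ j = K s) := h
    rw [if_neg hij, if_pos h']

/-- one block -/
theorem M3C2_block {P : ℕ} {K L : ℕ → Fin n} (hE : Enm P K L) (c : ℕ → Fin n → Fin n → ℕ)
    (hs : ∀ t i j, c t i j = c t j i) (t : ℕ) (u v : Fin n) :
    T K L (fun s => (bw P K L c s : ℝ≥0∞)) (t * P) ((t + 1) * P) u v ≤ (c t u v : ℝ≥0∞) := by
  rcases lt_trichotomy u v with h | h | h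
  · obtain ⟨s, hsP, hK, hL⟩ := hE.ex u v h
    obtain ⟨hK', hL'⟩ := hE.per s t hsP
    have hd : (t * P + s) / P = t := by
      rw [Nat.mul_comm, Nat.mul_add_div (by omega), Nat.div_eq_of_lt hsP, Nat.add_zero]
    have h1 : t * P + s < (t + 1) * P := by
      rw [Nat.add_mul, Nat.one_mul]
      omega
    have hB : Bet K L (t * P + s) u v := Or.inl ⟨by rw [hK', hK], by rw [hL', hL]⟩
    refine (M3_T_le K L _ (Nat.le_add_right _ _) h1 hB).trans ?_
    show ((bw P K L c (t * P + s) : ℕ) : ℝ≥0∞) ≤ _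
    unfold bw
    rw [hd, hK', hL', hK, hL]
  · subst h
    rw [T_diag]
    exact bot_le
  · obtain ⟨s, hsP, hK, hL⟩ := hE.ex v u h
    obtain ⟨hK', hL'⟩ := hE.per s t hsP
    have hd : (t * P + s) / P = t := by
      rw [Nat.mul_comm, Nat.mul_add_div (by omega), Nat.div_eq_of_lt hsP, Nat.add_zero]
    have h1 : t * P + s < (t + 1) * P := by
      rw [Nat.add_mul, Nat.one_mul]
      omega
    have hB : Bet K L (t * P + s) u v := Or.inr ⟨by rw [hL', hL], by rw [hK', hK]⟩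
    refine (M3_T_le K L _ (Nat.le_add_right _ _) h1 hB).trans ?_
    show ((bw P K L c (t * P + s) : ℕ) : ℝ≥0∞) ≤ _
    unfold bw
    rw [hd, hK', hL', hK, hL, hs]

/-- Upper bound: `T_le` twice, `M3_T_le` in each block (`Enm.ex`, `Enm.per`), `T_diag` for trivial steps. -/
theorem upp {P : ℕ} {K L : ℕ → Fin n} (hE : Enm P K L) (c : ℕ → Fin n → Fin n → ℕ)
    (h0 : ∀ t i, c t i i = 0) (hs : ∀ t i j, c t i j = c t j i) (i j k l : Fin n) :
    T K L (fun s => (bw P K L c s : ℝ≥0∞)) 0 (3 * P) i j ≤ (cst c i j k l : ℝ≥0∞) := by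
  have b0 := M3C2_block hE c hs 0 i k
  have b1 := M3C2_block hE c hs 1 k l
  have b2 := M3C2_block hE c hs 2 l j
  rw [Nat.zero_mul, Nat.zero_add, Nat.one_mul] at b0
  rw [Nat.one_mul] at b1
  have e1 := T_le K L (fun s => (bw P K L c s : ℝ≥0∞)) (a := 0) (b := P) (c := 3 * P)
    (Nat.zero_le _) (by omega) i k j
  have e2 := T_le K L (fun s => (bw P K L c s : ℝ≥0∞)) (a := P) (b := 2 * P) (c := 3 * P)
    (by omega) (by omega) k l j
  have h3 : T K L (fun s => (bw P K L c s : ℝ≥0∞)) 0 (3 * P) i j ≤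
      (c 0 i k : ℝ≥0∞) + ((c 1 k l : ℝ≥0∞) + (c 2 l j : ℝ≥0∞)) :=
    e1.trans (add_le_add b0 (e2.trans (add_le_add b1 b2)))
  refine h3.trans (le_of_eq ?_)
  unfold cst
  push_cast
  rw [add_assoc]

end Gossip
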