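import Mathlib
import Pool.Agent.Lib.MP_8f6a89_co.M3A

set_option autoImplicit false

namespace Gossip

open scoped ENNReal

variable {n : ℕ}

theorem M3D1_red {P : ℕ} {K L : ℕ → Fin n} (hE : Enm P K L) (hP : 0 < P) (s : ℕ) :
    K s = K (s % P) ∧ L s = L (s % P) := by
  have h := hE.per (s % P) (s / P) (Nat.mod_lt _ hP)
  rw [Nat.div_add_mod'] at h
  exact h

/-- a letter is determined by its block and its pair -/
theorem M3_letter {P : ℕ} {K L : ℕ → Fin n} (hE : Enm P K L) {s s' : ℕ} (hP : 0 < P)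
    (hq : s / P = s' / P) {i j : Fin n} (h : Bet K L s i j) (h' : Bet K L s' i j) : s = s' := by
  have hKL : K s = K s' ∧ L s = L s' := by
    have h1 := hE.lt s
    have h2 := hE.lt s'
    rcases h with ⟨rfl, rfl⟩ | ⟨rfl, rfl⟩
    · rcases h' with ⟨h3, h4⟩ | ⟨h3, h4⟩
      · exact ⟨h3, h4⟩
      · rw [h3, h4] at h1
        exact absurd h1 (lt_asymm h2)
    · rcases h' with ⟨h3, h4⟩ | ⟨h3, h4⟩
      · rw [h3, h4] at h1
        exact absurd h1 (lt_asymm h2)
      · exact ⟨h4, h3⟩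
  have h1 := M3D1_red hE hP s
  have h2 := M3D1_red hE hP s'
  have h3 := hE.inj (s % P) (s' % P) (Nat.mod_lt _ hP) (Nat.mod_lt _ hP)
    (by rw [← h1.1, ← h2.1]; exact hKL.1) (by rw [← h1.2, ← h2.2]; exact hKL.2)
  rw [← Nat.div_add_mod' s P, ← Nat.div_add_mod' s' P, hq, h3]

/-- Weights changed at one letter: the words before and after the letter do not change. -/
theorem M3_congr (K L : ℕ → Fin n) (β β' : ℕ → ℝ≥0∞) (a b : ℕ) (h : ∀ s, a ≤ s → s < b → β s = β' s) :
    T K L β a b = T K L β' a b := by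
  unfold T
  congr 1
  unfold wd
  apply List.map_congr_left
  intro s hs
  rw [List.mem_range'_1] at hs
  rw [h s hs.1 (by omega)]

end Gossip
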