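import Mathlib
import Pool.Agent.Lib.MP_8f6a89_co.M3C1
import Pool.Agent.Lib.MP_8f6a89_co.M3D1

set_option autoImplicit false

namespace Gossip

open scoped ENNReal

variable {n : ℕ}

/-- the weights, lowered by `1` at the letter `s` -/
noncomputable def M3D2_c (P : ℕ) (K L : ℕ → Fin n) (c : ℕ → Fin n → Fin n → ℕ) (s : ℕ) :
    ℕ → Fin n → Fin n → ℕ := by
  classical
  exact fun t x y => if t = s / P ∧ Bet K L s x y then c t x y - 1 else c t x y

theorem M3D2_symm {K L : ℕ → Fin n} {s : ℕ} {x y : Fin n} (h : Bet K L s x y) : Bet K L s y x := by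
  rcases h with ⟨h1, h2⟩ | ⟨h1, h2⟩
  · exact Or.inr ⟨h2, h1⟩
  · exact Or.inl ⟨h2, h1⟩

theorem M3D2_le (P : ℕ) (K L : ℕ → Fin n) (c : ℕ → Fin n → Fin n → ℕ) (s t : ℕ) (x y : Fin n) :
    M3D2_c P K L c s t x y ≤ c t x y := by
  classical
  unfold M3D2_c
  split_ifs <;> omega

theorem M3D2_ge (P : ℕ) (K L : ℕ → Fin n) (c : ℕ → Fin n → Fin n → ℕ) (s t : ℕ) (x y : Fin n) :
    c t x y ≤ M3D2_c P K L c s t x y + 1 := by
  classical
  unfold M3D2_c
  split_ifs <;> omega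

theorem M3D2_eq {P : ℕ} {K L : ℕ → Fin n} {c : ℕ → Fin n → Fin n → ℕ} {s t : ℕ} {x y : Fin n}
    (h : ¬ (t = s / P ∧ Bet K L s x y)) : M3D2_c P K L c s t x y = c t x y := by
  classical
  unfold M3D2_c
  rw [if_neg h]

theorem M3D2_at {P : ℕ} {K L : ℕ → Fin n} {c : ℕ → Fin n → Fin n → ℕ} {s t : ℕ} {x y : Fin n}
    (h : t = s / P ∧ Bet K L s x y) : M3D2_c P K L c s t x y = c t x y - 1 := by
  classical
  unfold M3D2_c
  rw [if_pos h]

theorem M3D2_tri {P : ℕ} {K L : ℕ → Fin n} {c : ℕ → Fin n → Fin n → ℕ} (hc : Str c) (s t : ℕ)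
    (i j k : Fin n) :
    M3D2_c P K L c s t i k ≤ M3D2_c P K L c s t i j + M3D2_c P K L c s t j k := by
  have h0 : ∀ x, M3D2_c P K L c s t x x = 0 := fun x =>
    Nat.eq_zero_of_le_zero ((M3D2_le P K L c s t x x).trans (hc.diag t x).le)
  by_cases hij : i = j
  · subst hij; rw [h0]; omega
  by_cases hjk : j = k
  · subst hjk; rw [h0]; omega
  by_cases hik : i = k
  · subst hik; rw [h0]; omega
  have h1 := hc.tri t i j k hij hjk
  have h2 := M3D2_le P K L c s t i k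
  by_cases ha : t = s / P ∧ Bet K L s i j
  · have hb : ¬ (t = s / P ∧ Bet K L s j k) := by
      rintro ⟨-, hb⟩
      rcases ha.2 with ⟨e1, e2⟩ | ⟨e1, e2⟩ <;> rcases hb with ⟨e3, e4⟩ | ⟨e3, e4⟩
      · exact hij (e1.trans e3.symm)
      · exact hik (e1.trans e4.symm)
      · exact hik (e1.trans e4.symm)
      · exact hij (e1.trans e3.symm)
    have h3 := M3D2_eq (c := c) hb
    have h4 := M3D2_ge P K L c s t i j
    omega
  · have h3 := M3D2_eq (c := c) ha
    have h4 := M3D2_ge P K L c s t j k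
    omega

theorem M3D2_cst {P : ℕ} {K L : ℕ → Fin n} {c : ℕ → Fin n → Fin n → ℕ} (hc : Str c)
    {i j k l : Fin n} (hO : Opt c i j k l) {s : ℕ} (h : ¬ Stp P K L s i j k l) (k' l' : Fin n) :
    cst c i j k l ≤ cst (M3D2_c P K L c s) i j k' l' := by
  have h1 : cst c i j k' l' ≤ cst (M3D2_c P K L c s) i j k' l' + 1 := by
    unfold cst
    have e0 := M3D2_ge P K L c s 0 i k'
    have e1 := M3D2_ge P K L c s 1 k' l'
    have e2 := M3D2_ge P K L c s 2 l' j
    by_cases g0 : 0 = s / P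
    · have f1 : M3D2_c P K L c s 1 k' l' = c 1 k' l' := M3D2_eq (fun hh => by omega)
      have f2 : M3D2_c P K L c s 2 l' j = c 2 l' j := M3D2_eq (fun hh => by omega)
      omega
    · have f0 : M3D2_c P K L c s 0 i k' = c 0 i k' := M3D2_eq (fun hh => g0 hh.1)
      by_cases g1 : 1 = s / P
      · have f2 : M3D2_c P K L c s 2 l' j = c 2 l' j := M3D2_eq (fun hh => by omega)
        omega
      · have f1 : M3D2_c P K L c s 1 k' l' = c 1 k' l' := M3D2_eq (fun hh => g1 hh.1)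
        omega
  by_cases he : k = k' ∧ l = l'
  · obtain ⟨rfl, rfl⟩ := he
    have f0 : M3D2_c P K L c s 0 i k = c 0 i k :=
      M3D2_eq (fun hh => h (Or.inl ⟨hh.1.symm, hh.2⟩))
    have f1 : M3D2_c P K L c s 1 k l = c 1 k l :=
      M3D2_eq (fun hh => h (Or.inr (Or.inl ⟨hh.1.symm, hh.2⟩)))
    have f2 : M3D2_c P K L c s 2 l j = c 2 l j :=
      M3D2_eq (fun hh => h (Or.inr (Or.inr ⟨hh.1.symm, hh.2⟩)))
    unfold cst
    omega
  · have h2 := hO k' l'
    have h3 : cst c i j k l ≠ cst c i j k' l' := fun hh => he (hc.uniq i j k l k' l' hh)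
    omega

/-- (D1) A letter outside of the cheapest chain: every path through it is more expensive. Apply `low` to the metric
`c' t x y = if t = s / P ∧ Bet K L s x y then c t x y - 1 else c t x y` (a metric by `Str.tri`) and bound
`T` for `c'` by the path through `s` (`T_le` twice, `T_one`); its cost for `c'` is the cost for `c` minus `1`; chains for `c'`
cost at least `cst c i j k l` (chains which contain `s` are different from the cheapest one: `Str.uniq`). -/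
theorem not_step {P : ℕ} {K L : ℕ → Fin n} (hP : 0 < P) (hE : Enm P K L) {c : ℕ → Fin n → Fin n → ℕ}
    (hc : Str c) {i j k l : Fin n} (hO : Opt c i j k l) {s : ℕ} (hs : s < 3 * P)
    (h : ¬ Stp P K L s i j k l) {x y : Fin n} (hxy : Bet K L s x y) :
    (cst c i j k l : ℝ≥0∞) < T K L (fun s => (bw P K L c s : ℝ≥0∞)) 0 s i x + (bw P K L c s : ℝ≥0∞) +
      T K L (fun s => (bw P K L c s : ℝ≥0∞)) (s + 1) (3 * P) y j := by
  have hd : ∀ t i, M3D2_c P K L c s t i i = 0 := fun t x =>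
    Nat.eq_zero_of_le_zero ((M3D2_le P K L c s t x x).trans (hc.diag t x).le)
  have hsy : ∀ t i j, M3D2_c P K L c s t i j = M3D2_c P K L c s t j i := by
    intro t a b
    by_cases hh : t = s / P ∧ Bet K L s a b
    · rw [M3D2_at hh, M3D2_at ⟨hh.1, M3D2_symm hh.2⟩, hc.symm t a b]
    · rw [M3D2_eq hh, M3D2_eq (fun h' => hh ⟨h'.1, M3D2_symm h'.2⟩), hc.symm t a b]
  obtain ⟨k', l', hlow⟩ := low (P := P) (K := K) (L := L) (M3D2_c P K L c s) hd hsy
    (fun t a b d => M3D2_tri hc s t a b d) i j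
  have hcst : (cst c i j k l : ℝ≥0∞) ≤ (cst (M3D2_c P K L c s) i j k' l' : ℝ≥0∞) := by
    exact_mod_cast M3D2_cst hc hO h k' l'
  have hw : ∀ s', s' ≠ s → ((bw P K L (M3D2_c P K L c s) s' : ℕ) : ℝ≥0∞) =
      ((bw P K L c s' : ℕ) : ℝ≥0∞) := by
    intro s' hs'
    unfold bw
    rw [M3D2_eq]
    rintro ⟨h1, h2⟩
    exact hs' (M3_letter hE hP h1 (i := K s') (j := L s') (Or.inl ⟨rfl, rfl⟩) h2)
  have hT1 : T K L (fun s' => (bw P K L (M3D2_c P K L c s) s' : ℝ≥0∞)) 0 s =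
      T K L (fun s => (bw P K L c s : ℝ≥0∞)) 0 s :=
    M3_congr K L _ _ 0 s (fun s' _ h2 => hw s' (by omega))
  have hT2 : T K L (fun s' => (bw P K L (M3D2_c P K L c s) s' : ℝ≥0∞)) (s + 1) (3 * P) =
      T K L (fun s => (bw P K L c s : ℝ≥0∞)) (s + 1) (3 * P) :=
    M3_congr K L _ _ (s + 1) (3 * P) (fun s' h1 _ => hw s' (by omega))
  have hne : x ≠ y := by
    rcases hxy with ⟨h1, h2⟩ | ⟨h1, h2⟩
    · rw [h1, h2]; exact hE.ne s
    · rw [h1, h2]; exact (hE.ne s).symm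
  have hb : bw P K L (M3D2_c P K L c s) s = bw P K L c s - 1 := by
    unfold bw
    exact M3D2_at ⟨rfl, Or.inl ⟨rfl, rfl⟩⟩
  have hb0 : 0 < bw P K L c s := hc.pos _ _ _ (hE.ne s)
  have hone : T K L (fun s' => (bw P K L (M3D2_c P K L c s) s' : ℝ≥0∞)) s (s + 1) x y =
      ((bw P K L c s - 1 : ℕ) : ℝ≥0∞) := by
    rw [T_one]
    unfold call
    rw [if_neg hne, if_pos, hb]
    rcases hxy with h1 | h1
    · exact Or.inl h1
    · exact Or.inr h1
  have hA := T_le K L (fun s' => (bw P K L (M3D2_c P K L c s) s' : ℝ≥0∞)) (a := 0) (b := s)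
    (c := 3 * P) (Nat.zero_le s) hs.le i x j
  have hB := T_le K L (fun s' => (bw P K L (M3D2_c P K L c s) s' : ℝ≥0∞)) (a := s) (b := s + 1)
    (c := 3 * P) (Nat.le_succ s) hs x y j
  rw [hone, hT2] at hB
  rw [hT1] at hA
  obtain ⟨w, hwe⟩ : ∃ w, bw P K L c s = w + 1 := ⟨bw P K L c s - 1, by omega⟩
  have hall : (cst c i j k l : ℝ≥0∞) ≤ T K L (fun s => (bw P K L c s : ℝ≥0∞)) 0 s i x + (w : ℝ≥0∞) +
      T K L (fun s => (bw P K L c s : ℝ≥0∞)) (s + 1) (3 * P) y j := by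
    refine (hcst.trans hlow).trans (hA.trans ?_)
    rw [add_assoc]
    refine add_le_add le_rfl (hB.trans ?_)
    rw [hwe, Nat.add_sub_cancel]
  have hr : T K L (fun s => (bw P K L c s : ℝ≥0∞)) 0 s i x + ((bw P K L c s : ℕ) : ℝ≥0∞) +
      T K L (fun s => (bw P K L c s : ℝ≥0∞)) (s + 1) (3 * P) y j =
      (T K L (fun s => (bw P K L c s : ℝ≥0∞)) 0 s i x + (w : ℝ≥0∞) +
      T K L (fun s => (bw P K L c s : ℝ≥0∞)) (s + 1) (3 * P) y j) + 1 := by
    have : ((bw P K L c s : ℕ) : ℝ≥0∞) = (w : ℝ≥0∞) + 1 := by rw [hwe]; push_cast; rfl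
    rw [this]
    ring
  rw [hr]
  by_cases hf : T K L (fun s => (bw P K L c s : ℝ≥0∞)) 0 s i x + (w : ℝ≥0∞) +
      T K L (fun s => (bw P K L c s : ℝ≥0∞)) (s + 1) (3 * P) y j = ⊤
  · rw [hf, top_add]
    exact ENNReal.natCast_lt_top _
  · exact lt_of_le_of_lt hall (ENNReal.lt_add_right hf one_ne_zero)

end Gossip
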