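import Mathlib
import Pool.Agent.Lib.MP_8f6a89_co.M3C1
import Pool.Agent.Lib.MP_8f6a89_co.M3D1

set_option autoImplicit false

namespace Gossip

open scoped ENNReal

variable {n : ℕ}

/-- (D2) A letter of the cheapest chain: every path without it is more expensive. Apply `low` to the metric
`c'' t x y = if t = s / P ∧ Bet K L s x y then c t x y + 1 else c t x y`. -/
theorem step {P : ℕ} {K L : ℕ → Fin n} (hP : 0 < P) (hE : Enm P K L) {c : ℕ → Fin n → Fin n → ℕ}
    (hc : Str c) {i j k l : Fin n} (hO : Opt c i j k l) {s : ℕ} (hs : s < 3 * P)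
    (h : Stp P K L s i j k l) (m : Fin n) :
    (cst c i j k l : ℝ≥0∞) < T K L (fun s => (bw P K L c s : ℝ≥0∞)) 0 s i m +
      T K L (fun s => (bw P K L c s : ℝ≥0∞)) (s + 1) (3 * P) m j := by
  classical
  have hex : ∃ c2 : ℕ → Fin n → Fin n → ℕ, ∀ t x y,
      c2 t x y = if t = s / P ∧ Bet K L s x y then c t x y + 1 else c t x y :=
    ⟨_, fun _ _ _ => rfl⟩
  obtain ⟨c2, hc2⟩ := hex
  have hge : ∀ t x y, c t x y ≤ c2 t x y := by
    intro t x y
    rw [hc2]
    split_ifs
    · exact Nat.le_succ _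
    · exact le_rfl
  have hyes : ∀ t x y, t = s / P → Bet K L s x y → c2 t x y = c t x y + 1 := by
    intro t x y h1 h2
    rw [hc2, if_pos ⟨h1, h2⟩]
  have hno : ∀ t x y, ¬ (t = s / P ∧ Bet K L s x y) → c2 t x y = c t x y := by
    intro t x y h1
    rw [hc2, if_neg h1]
  have hbs : ∀ x y, Bet K L s x y → Bet K L s y x := by
    rintro x y (⟨h1, h2⟩ | ⟨h1, h2⟩)
    · exact Or.inr ⟨h2, h1⟩
    · exact Or.inl ⟨h2, h1⟩
  have h0 : ∀ t x, c2 t x x = 0 := by
    intro t x
    rw [hno t x x, hc.diag]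
    rintro ⟨_, (⟨h1, h2⟩ | ⟨h1, h2⟩)⟩
    · exact hE.ne s (h1.symm.trans h2)
    · exact hE.ne s (h2.symm.trans h1)
  have hsy : ∀ t x y, c2 t x y = c2 t y x := by
    intro t x y
    by_cases hb : t = s / P ∧ Bet K L s x y
    · rw [hyes t x y hb.1 hb.2, hyes t y x hb.1 (hbs _ _ hb.2), hc.symm]
    · rw [hno t x y hb, hno t y x (fun hb' => hb ⟨hb'.1, hbs _ _ hb'.2⟩), hc.symm]
  have htr : ∀ t x y z, c2 t x z ≤ c2 t x y + c2 t y z := by
    intro t x y z
    by_cases hxy : x = y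
    · subst hxy
      exact Nat.le_add_left _ _
    by_cases hyz : y = z
    · subst hyz
      exact Nat.le_add_right _ _
    have h1 := hc.tri t x y z hxy hyz
    have h2 := hge t x y
    have h3 := hge t y z
    have h4 : c2 t x z ≤ c t x z + 1 := by
      rw [hc2]
      split_ifs
      · exact le_rfl
      · exact Nat.le_succ _
    omega
  obtain ⟨k', l', hlow⟩ := low (P := P) (K := K) (L := L) c2 h0 hsy htr i j
  have hw : ∀ s', s' ≠ s → (bw P K L c s' : ℝ≥0∞) = (bw P K L c2 s' : ℝ≥0∞) := by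
    intro s' hne
    unfold bw
    rw [hno (s' / P) (K s') (L s')]
    rintro ⟨h1, h2⟩
    exact hne (M3_letter hE hP h1 (Or.inl ⟨rfl, rfl⟩) h2)
  have e1 : T K L (fun s => (bw P K L c s : ℝ≥0∞)) 0 s =
      T K L (fun s => (bw P K L c2 s : ℝ≥0∞)) 0 s :=
    M3_congr K L _ _ 0 s (fun s' _ h2 => hw s' h2.ne)
  have e2 : T K L (fun s => (bw P K L c s : ℝ≥0∞)) (s + 1) (3 * P) =
      T K L (fun s => (bw P K L c2 s : ℝ≥0∞)) (s + 1) (3 * P) :=
    M3_congr K L _ _ (s + 1) (3 * P) (fun s' h1 _ => hw s' (by omega))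
  rw [e1, e2]
  have hup : T K L (fun s => (bw P K L c2 s : ℝ≥0∞)) 0 (3 * P) i j ≤
      T K L (fun s => (bw P K L c2 s : ℝ≥0∞)) 0 s i m +
        T K L (fun s => (bw P K L c2 s : ℝ≥0∞)) (s + 1) (3 * P) m j := by
    refine (T_le K L _ (Nat.zero_le s) hs.le i m j).trans ?_
    refine add_le_add le_rfl ?_
    refine (T_le K L _ (Nat.le_succ s) hs m m j).trans ?_
    rw [T_diag, zero_add]
  refine lt_of_lt_of_le ?_ (hlow.trans hup)
  have hlt : cst c i j k l < cst c2 i j k' l' := by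
    by_cases heq : k = k' ∧ l = l'
    · obtain ⟨rfl, rfl⟩ := heq
      unfold cst
      have g0 := hge 0 i k
      have g1 := hge 1 k l
      have g2 := hge 2 l j
      rcases h with ⟨h1, h2⟩ | ⟨h1, h2⟩ | ⟨h1, h2⟩
      · have := hyes 0 i k h1.symm h2
        omega
      · have := hyes 1 k l h1.symm h2
        omega
      · have := hyes 2 l j h1.symm h2
        omega
    · have h1 := hO k' l'
      have h2 : cst c i j k l ≠ cst c i j k' l' := fun h => heq (hc.uniq i j k l k' l' h)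
      have h3 : cst c i j k' l' ≤ cst c2 i j k' l' := by
        unfold cst
        exact add_le_add (add_le_add (hge _ _ _) (hge _ _ _)) (hge _ _ _)
      omega
  exact_mod_cast hlt

end Gossip
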