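import Mathlib
import Pool.Agent.Lib.MP_8f6a89_co.M3A

set_option autoImplicit false

namespace Gossip

open scoped ENNReal
open Matrix

variable {n : ℕ} {K L : ℕ → Fin n} {b : ℕ → ℕ}

theorem M3E_uu_one {k l : Fin n} : uu k l ⬝ᵥ (fun _ => (1 : R)) = 0 := by
  rw [MaB_uu_dot]
  exact MaA_two

theorem M3E_uu_uu {k l : Fin n} (hkl : k ≠ l) : uu k l ⬝ᵥ uu k l = 0 := by
  rw [MaB_uu_dot, MaB_uu_left hkl, MaB_uu_right hkl]
  exact MaA_two

theorem M3E_G_mulVec (k l : Fin n) (e : ℕ) (w : Fin n → R) (hw : uu k l ⬝ᵥ w = 0) :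
    G k l e *ᵥ w = w := by
  unfold G
  rw [Matrix.add_mulVec, Matrix.one_mulVec]
  have h : ((PowerSeries.X : R) ^ e • vecMulVec (uu k l) (uu k l)) *ᵥ w = 0 := by
    ext i
    have h1 : (((PowerSeries.X : R) ^ e • vecMulVec (uu k l) (uu k l)) *ᵥ w) i =
        (PowerSeries.X : R) ^ e * uu k l i * (uu k l ⬝ᵥ w) := by
      simp only [Matrix.mulVec, dotProduct, Matrix.smul_apply, Matrix.vecMulVec_apply, smul_eq_mul,
        Finset.mul_sum]
      exact Finset.sum_congr rfl fun m _ => by ring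
    rw [h1, hw, mul_zero]
    rfl
  rw [h, add_zero]

theorem M3E_list (l : List ℕ) :
    ((l.map fun s => G (K s) (L s) (b s)).prod) *ᵥ (fun _ => (1 : R)) = fun _ => 1 := by
  induction l with
  | nil => rw [List.map_nil, List.prod_nil, Matrix.one_mulVec]
  | cons s l ih =>
    rw [List.map_cons, List.prod_cons, ← Matrix.mulVec_mulVec, ih]
    exact M3E_G_mulVec _ _ _ _ M3E_uu_one

/-- `PM s N *ᵥ 1 = 1` (each `G` fixes the vector of ones, `uu ⬝ᵥ 1 = 1 + 1 = 0`) -/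
theorem PM_ones (hKL : ∀ s, K s ≠ L s) (a c : ℕ) : PM K L b a c *ᵥ (fun _ => 1) = fun _ => 1 := by
  have _ := hKL
  unfold PM
  exact M3E_list _

theorem ZZ_symm (N s : ℕ) (i j : Fin n) : ZZ K L b N s i j = ZZ K L b N s j i := by
  unfold ZZ
  rw [Matrix.smul_apply, Matrix.smul_apply, Matrix.vecMulVec_apply, Matrix.vecMulVec_apply,
    mul_comm (uv K L b N s i)]

theorem M3E_uv (N s : ℕ) : uv K L b N s = uu (K s) (L s) ᵥ* PM K L b (s + 1) N := by
  unfold uv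
  rw [Matrix.mulVec_transpose]

/-- zero row sums: `uv ⬝ᵥ 1 = uu ⬝ᵥ (PM *ᵥ 1) = 0` -/
theorem ZZ_row (hKL : ∀ s, K s ≠ L s) (N s : ℕ) (i : Fin n) : ∑ j, ZZ K L b N s i j = 0 := by
  have h0 : uv K L b N s ⬝ᵥ (fun _ => (1 : R)) = 0 := by
    rw [M3E_uv, ← Matrix.dotProduct_mulVec, PM_ones hKL]
    exact M3E_uu_one
  have h1 : ∑ j, uv K L b N s j = 0 := by
    rw [← h0, dotProduct]
    exact Finset.sum_congr rfl fun m _ => (mul_one _).symm
  unfold ZZ
  have h2 : ∑ j, ((PowerSeries.X : R) ^ b s • vecMulVec (uv K L b N s) (uv K L b N s)) i j =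
      (PowerSeries.X : R) ^ b s * uv K L b N s i * ∑ j, uv K L b N s j := by
    rw [Finset.mul_sum]
    refine Finset.sum_congr rfl fun m _ => ?_
    rw [Matrix.smul_apply, Matrix.vecMulVec_apply, smul_eq_mul]
    ring
  rw [h2, h1, mul_zero]

theorem M3E_GG (N s : ℕ) : GG K L b N s = (PowerSeries.X : R) ^ b s •
    vecMulVec (PM K L b 0 s *ᵥ uu (K s) (L s)) (uu (K s) (L s) ᵥ* PM K L b (s + 1) N) := by
  unfold GG
  rw [Matrix.mul_smul, Matrix.smul_mul, Matrix.mul_vecMulVec, Matrix.vecMulVec_mul]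

/-- `PM 0 N = PM 0 s * G * PM (s+1) N`, `PM * PMᵀ = 1`, `G * (X^b • uu uuᵀ) = X^b • uu uuᵀ`. -/
theorem PM_mul_ZZ (hKL : ∀ s, K s ≠ L s) {N s : ℕ} (hs : s < N) :
    PM K L b 0 N * ZZ K L b N s = GG K L b N s := by
  rw [M3E_GG]
  unfold ZZ
  rw [Matrix.mul_smul, Matrix.mul_vecMulVec]
  have h1 : PM K L b 0 N *ᵥ uv K L b N s = PM K L b 0 s *ᵥ uu (K s) (L s) := by
    have e1 : PM K L b 0 N = PM K L b 0 s * (G (K s) (L s) (b s) * PM K L b (s + 1) N) := by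
      rw [PM_split K L b (Nat.zero_le s) hs.le, PM_split K L b (Nat.le_succ s) hs, PM_one]
    have e2 : PM K L b (s + 1) N * (PM K L b (s + 1) N)ᵀ = 1 :=
      mul_eq_one_comm.1 (PM_orth K L b hKL (s + 1) N)
    unfold uv
    rw [e1, Matrix.mulVec_mulVec, mul_assoc, mul_assoc, e2, mul_one, ← Matrix.mulVec_mulVec,
      M3E_G_mulVec _ _ _ _ (M3E_uu_uu (hKL s))]
  rw [h1, M3E_uv]

theorem GG_apply (N s : ℕ) (i j : Fin n) : GG K L b N s i j =
    (PowerSeries.X : R) ^ b s * ((PM K L b 0 s i (K s) + PM K L b 0 s i (L s)) *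
      (PM K L b (s + 1) N (K s) j + PM K L b (s + 1) N (L s) j)) := by
  rw [M3E_GG, Matrix.smul_apply, Matrix.vecMulVec_apply, smul_eq_mul]
  have h1 : (PM K L b 0 s *ᵥ uu (K s) (L s)) i = PM K L b 0 s i (K s) + PM K L b 0 s i (L s) := by
    rw [Matrix.mulVec, dotProduct_comm, MaB_uu_dot]
  have h2 : (uu (K s) (L s) ᵥ* PM K L b (s + 1) N) j =
      PM K L b (s + 1) N (K s) j + PM K L b (s + 1) N (L s) j := by
    rw [Matrix.vecMul, MaB_uu_dot]
  rw [h1, h2]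

end Gossip
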