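import Mathlib
import Pool.Agent.Lib.MP_8f6a89_co.M3E

set_option autoImplicit false

namespace Gossip

open scoped ENNReal
open Matrix

variable {n : ℕ} {K L : ℕ → Fin n} {b : ℕ → ℕ}

/-- `v p = x` in `ℕ` means that the coefficient of `X ^ x` is `1` and the lower ones are `0`; more than `x`: all are `0` -/
theorem coeff_of_lt_v {p : R} {x : ℕ} (h : (x : ℝ≥0∞) < v p) : PowerSeries.coeff x p = 0 := by
  apply PowerSeries.coeff_of_lt_order
  unfold v at h
  rw [← ENat.toENNReal_coe, ENat.toENNReal_lt] at h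
  exact h

theorem coeff_of_eq_v {p : R} {x : ℕ} (h : v p = x) : PowerSeries.coeff x p = 1 := by
  unfold v at h
  rw [← ENat.toENNReal_coe, ENat.toENNReal_inj] at h
  have h1 : PowerSeries.coeff x p ≠ 0 := ((PowerSeries.order_eq_nat).1 h).1
  have h2 : ∀ a : ZMod 2, a ≠ 0 → a = 1 := by decide
  exact h2 _ h1

/-- (E0, E1) a letter all whose paths from `i` to `j` cost more than `x`, where `x` is at most all paths -/
theorem coeff_GG_not (hb : ∀ s, 0 < b s) {N s x : ℕ} (hs : s < N) (he : Exact K L b N) {i j : Fin n}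
    (h1 : ∀ m, (x : ℝ≥0∞) ≤ T K L (nb b) 0 s i m + T K L (nb b) (s + 1) N m j)
    (h2 : (x : ℝ≥0∞) < T K L (nb b) 0 s i (K s) + b s + T K L (nb b) (s + 1) N (L s) j)
    (h3 : (x : ℝ≥0∞) < T K L (nb b) 0 s i (L s) + b s + T K L (nb b) (s + 1) N (K s) j) :
    ∀ y, y ≤ x → PowerSeries.coeff y (GG K L b N s i j) = 0 := by
  have hx : (x : ℝ≥0∞) ≠ ⊤ := ENNReal.natCast_ne_top x
  have hb0 : (b s : ℝ≥0∞) ≠ 0 := by
    have := (hb s).ne'
    exact_mod_cast this
  have h4 : ∀ m, (x : ℝ≥0∞) < b s + (T K L (nb b) 0 s i m + T K L (nb b) (s + 1) N m j) := by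
    intro m
    refine lt_of_lt_of_le ?_ (add_le_add_right (h1 m) _)
    rw [add_comm]
    exact ENNReal.lt_add_right hx hb0
  have key : (x : ℝ≥0∞) < v (GG K L b N s i j) := by
    rw [GG_apply, v_mul, v_mul, v_X_pow]
    have a1 := v_add (PM K L b 0 s i (K s)) (PM K L b 0 s i (L s))
    have a2 := v_add (PM K L b (s + 1) N (K s) j) (PM K L b (s + 1) N (L s) j)
    rw [he.pre s hs.le, he.pre s hs.le] at a1
    rw [he.suf (s + 1) hs, he.suf (s + 1) hs] at a2
    refine lt_of_lt_of_le ?_ (add_le_add_right (add_le_add a1 a2) _)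
    rcases min_choice (T K L (nb b) 0 s i (K s)) (T K L (nb b) 0 s i (L s)) with e1 | e1 <;>
    rcases min_choice (T K L (nb b) (s + 1) N (K s) j) (T K L (nb b) (s + 1) N (L s) j) with e2 | e2 <;>
    rw [e1, e2]
    · exact h4 (K s)
    · rw [add_left_comm, ← add_assoc]
      exact h2
    · rw [add_left_comm, ← add_assoc]
      exact h3
    · exact h4 (L s)
  intro y hy
  apply coeff_of_lt_v
  refine lt_of_le_of_lt ?_ key
  exact_mod_cast hy

/-- (E2) a letter without which all paths cost more than `x`, where `x` is the cost of a cheapest path -/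
theorem coeff_GG_step (hb : ∀ s, 0 < b s) (hKL : ∀ s, K s ≠ L s) {N s x : ℕ} (hs : s < N)
    (he : Exact K L b N) {i j : Fin n} (h0 : T K L (nb b) 0 N i j = x)
    (h1 : ∀ m, (x : ℝ≥0∞) < T K L (nb b) 0 s i m + T K L (nb b) (s + 1) N m j) :
    PowerSeries.coeff x (GG K L b N s i j) = 1 ∧
      ∀ y, y < x → PowerSeries.coeff y (GG K L b N s i j) = 0 := by
  have hsplit : PM K L b 0 N = PM K L b 0 s * PM K L b (s + 1) N + GG K L b N s := by
    rw [PM_split K L b (Nat.zero_le s) hs.le, PM_split K L b (Nat.le_succ s) hs, PM_one]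
    unfold G GG
    rw [add_mul, one_mul, mul_add, mul_assoc]
  have hv0 : v (PM K L b 0 N i j) = x := by
    rw [he.pre N le_rfl]
    exact h0
  have hv1 : (x : ℝ≥0∞) < v ((PM K L b 0 s * PM K L b (s + 1) N) i j) := by
    rw [Matrix.mul_apply]
    refine lt_v_sum _ _ _ (ENNReal.natCast_lt_top x) fun m _ => ?_
    rw [v_mul, he.pre s hs.le, he.suf (s + 1) hs]
    exact h1 m
  have hco : ∀ y, y ≤ x → PowerSeries.coeff y (GG K L b N s i j) =
      PowerSeries.coeff y (PM K L b 0 N i j) := by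
    intro y hy
    have h2 : PowerSeries.coeff y ((PM K L b 0 s * PM K L b (s + 1) N) i j) = 0 := by
      apply coeff_of_lt_v
      refine lt_of_le_of_lt ?_ hv1
      exact_mod_cast hy
    rw [hsplit, Matrix.add_apply, map_add, h2, zero_add]
  refine ⟨?_, fun y hy => ?_⟩
  · rw [hco x le_rfl]
    exact coeff_of_eq_v hv0
  · rw [hco y hy.le]
    apply coeff_of_lt_v
    rw [hv0]
    exact_mod_cast hy

end Gossip
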