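import Mathlib
import Pool.Agent.Lib.MP_8f6a89_co.M3A

set_option autoImplicit false

namespace Gossip

open scoped ENNReal

variable {n : ℕ}

theorem M3G1_tri {c : ℕ → Fin n → Fin n → ℕ} (hc : Str c) (t : ℕ) (i j k : Fin n) :
    c t i k ≤ c t i j + c t j k := by
  by_cases h1 : i = j
  · subst h1; omega
  · by_cases h2 : j = k
    · subst h2; omega
    · exact (hc.tri t i j k h1 h2).le

/-- the sub-chains of a cheapest chain are cheapest chains -/
theorem Opt.right {c : ℕ → Fin n → Fin n → ℕ} (hc : Str c) {i j k l : Fin n} (h : Opt c i j k l) :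
    Opt c k j k l := by
  intro k' l'
  have h1 := h k' l'
  have h2 := M3G1_tri hc 0 i k k'
  have h3 := hc.diag 0 k
  unfold cst at *
  omega

theorem Opt.left {c : ℕ → Fin n → Fin n → ℕ} (hc : Str c) {i j k l : Fin n} (h : Opt c i j k l) :
    Opt c i l k l := by
  intro k' l'
  have h1 := h k' l'
  have h2 := M3G1_tri hc 2 l' l j
  have h3 := hc.diag 2 l
  unfold cst at *
  omega

end Gossip
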