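import Mathlib
import Pool.Agent.Lib.MP_8f6a89_co.M3C1
import Pool.Agent.Lib.MP_8f6a89_co.M3C2
import Pool.Agent.Lib.MP_8f6a89_co.M3D2
import Pool.Agent.Lib.MP_8f6a89_co.M3D3
import Pool.Agent.Lib.MP_8f6a89_co.M3F

set_option autoImplicit false

namespace Gossip

open scoped ENNReal
open Matrix

variable {n : ℕ}

open Classical in
/-- (C) The relation of the constant coefficients. Take the coefficient of `X ^ (cst c i j k l)` of
`∑ s, lam s * GG s i j = 0`; `T 0 N i j = cst` by `low` (with `Opt`) and `upp`; `coeff_GG_not` with `not_step`, `coeff_GG_step` with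
`step`. -/
theorem rel {P : ℕ} {K L : ℕ → Fin n} (hP : 0 < P) (hE : Enm P K L) {c : ℕ → Fin n → Fin n → ℕ}
    (hc : Str c) (he : Exact K L (bw P K L c) (3 * P)) (lam : ℕ → R)
    (hlam : ∑ s ∈ Finset.range (3 * P), lam s • GG K L (bw P K L c) (3 * P) s = 0)
    {i j k l : Fin n} (hO : Opt c i j k l) :
    ∑ s ∈ Finset.range (3 * P), (if Stp P K L s i j k l then PowerSeries.coeff 0 (lam s) else 0) = 0 := by
  have htri : ∀ t i j k, c t i k ≤ c t i j + c t j k := by
    intro t i j k
    by_cases h1 : i = j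
    · subst h1
      omega
    · by_cases h2 : j = k
      · subst h2
        omega
      · exact (hc.tri t i j k h1 h2).le
  have hb : ∀ s, 0 < bw P K L c s := fun s => hc.pos _ _ _ (hE.ne s)
  have hle : (cst c i j k l : ℝ≥0∞) ≤ T K L (nb (bw P K L c)) 0 (3 * P) i j := by
    obtain ⟨k', l', h⟩ := low (P := P) (K := K) (L := L) c hc.diag hc.symm htri i j
    refine le_trans ?_ h
    exact_mod_cast hO k' l'
  have hge : T K L (nb (bw P K L c)) 0 (3 * P) i j ≤ (cst c i j k l : ℝ≥0∞) :=
    upp hE c hc.diag hc.symm i j k l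
  have hT : T K L (nb (bw P K L c)) 0 (3 * P) i j = (cst c i j k l : ℝ≥0∞) := le_antisymm hge hle
  have h1 := congrFun (congrFun hlam i) j
  rw [Matrix.sum_apply] at h1
  have h2 := congrArg (PowerSeries.coeff (cst c i j k l)) h1
  rw [map_sum] at h2
  simp only [Matrix.zero_apply, map_zero] at h2
  refine Eq.trans ?_ h2
  refine Finset.sum_congr rfl fun s hs => ?_
  have hs' : s < 3 * P := Finset.mem_range.1 hs
  rw [Matrix.smul_apply, smul_eq_mul, PowerSeries.coeff_mul]
  have key : (∀ y, y < cst c i j k l →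
      PowerSeries.coeff y (GG K L (bw P K L c) (3 * P) s i j) = 0) →
      ∑ p ∈ Finset.HasAntidiagonal.antidiagonal (cst c i j k l), PowerSeries.coeff p.1 (lam s) *
        PowerSeries.coeff p.2 (GG K L (bw P K L c) (3 * P) s i j) = PowerSeries.coeff 0 (lam s) *
        PowerSeries.coeff (cst c i j k l) (GG K L (bw P K L c) (3 * P) s i j) := by
    intro h
    rw [Finset.sum_eq_single (0, cst c i j k l)]
    · intro p hp hp'
      rw [Finset.HasAntidiagonal.mem_antidiagonal] at hp
      have h3 : p.2 < cst c i j k l := by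
        by_contra h4
        apply hp'
        have h5 : p.1 = 0 := by omega
        have h6 : p.2 = cst c i j k l := by omega
        exact Prod.ext h5 h6
      rw [h _ h3, mul_zero]
    · intro h4
      exact absurd (Finset.HasAntidiagonal.mem_antidiagonal.2 (Nat.zero_add _)) h4
  by_cases hst : Stp P K L s i j k l
  · rw [if_pos hst]
    obtain ⟨h3, h4⟩ := coeff_GG_step hb hE.ne hs' he hT fun m => step hP hE hc hO hs' hst m
    rw [key h4, h3, mul_one]
  · rw [if_neg hst]
    have h3 := coeff_GG_not hb hs' he (i := i) (j := j) (x := cst c i j k l) (fun m => by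
      refine hle.trans ?_
      refine (T_le _ _ _ (Nat.zero_le s) hs'.le i m j).trans ?_
      exact add_le_add le_rfl (T_mono_left _ _ _ (Nat.le_succ s) hs' m j))
      (not_step hP hE hc hO hs' hst (Or.inl ⟨rfl, rfl⟩))
      (not_step hP hE hc hO hs' hst (Or.inr ⟨rfl, rfl⟩))
    rw [key fun y hy => h3 y hy.le, h3 _ le_rfl, mul_zero]

end Gossip
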