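import Mathlib
import Pool.Agent.Lib.MP_8f6a89_co.M3G1
import Pool.Agent.Lib.MP_8f6a89_co.M3G2

set_option autoImplicit false

namespace Gossip

open scoped ENNReal
open Matrix

variable {n : ℕ}

theorem M3G3_uniq {P : ℕ} {K L : ℕ → Fin n} (hP : 0 < P) (hE : Enm P K L) {s s' t : ℕ} {x y : Fin n}
    (h1 : s / P = t) (h2 : s' / P = t) (hb : Bet K L s x y) (hb' : Bet K L s' x y) : s = s' := by
  have e1 : s = t * P + s % P := by
    conv_lhs => rw [← Nat.div_add_mod s P, h1, mul_comm]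
  have e2 : s' = t * P + s' % P := by
    conv_lhs => rw [← Nat.div_add_mod s' P, h2, mul_comm]
  have l1 := Nat.mod_lt s hP
  have l2 := Nat.mod_lt s' hP
  have p1 := hE.per (s % P) t l1
  have p2 := hE.per (s' % P) t l2
  rw [← e1] at p1
  rw [← e2] at p2
  have q1 := hE.lt s
  have q2 := hE.lt s'
  have hKL : K s = K s' ∧ L s = L s' := by
    rcases hb with ⟨a, b⟩ | ⟨a, b⟩ <;> rcases hb' with ⟨a', b'⟩ | ⟨a', b'⟩
    · exact ⟨a.symm.trans a', b.symm.trans b'⟩
    · exfalso
      rw [← a, ← b] at q1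
      rw [← a', ← b'] at q2
      exact lt_asymm q1 q2
    · exfalso
      rw [← a, ← b] at q1
      rw [← a', ← b'] at q2
      exact lt_asymm q1 q2
    · exact ⟨b.symm.trans b', a.symm.trans a'⟩
  have := hE.inj (s % P) (s' % P) l1 l2 (by rw [← p1.1, ← p2.1, hKL.1]) (by rw [← p1.2, ← p2.2, hKL.2])
  rw [e1, e2, this]

open Classical in
/-- the sum over the letters of the block `t` between `x` and `y` -/
noncomputable def M3G3_S {A : Type*} [AddCommMonoid A] (P : ℕ) (K L : ℕ → Fin n) (a : ℕ → A) (t : ℕ) (x y : Fin n) : A :=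
  ∑ s ∈ Finset.range (3 * P), if s / P = t ∧ Bet K L s x y then a s else 0

theorem M3G3_single {A : Type*} [AddCommMonoid A] {P : ℕ} {K L : ℕ → Fin n} (hP : 0 < P) (hE : Enm P K L) (a : ℕ → A)
    {s t : ℕ} {x y : Fin n} (hs : s < 3 * P) (h1 : s / P = t) (hb : Bet K L s x y) :
    M3G3_S P K L a t x y = a s := by
  classical
  unfold M3G3_S
  rw [Finset.sum_eq_single s]
  · rw [if_pos ⟨h1, hb⟩]
  · intro s' _ hne
    rw [if_neg]
    rintro ⟨h2, hb'⟩
    exact hne (M3G3_uniq hP hE h2 h1 hb' hb)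
  · intro h
    exact absurd (Finset.mem_range.2 hs) h

theorem M3G3_diag {A : Type*} [AddCommMonoid A] {P : ℕ} {K L : ℕ → Fin n} (hE : Enm P K L) (a : ℕ → A)
    (t : ℕ) (x : Fin n) : M3G3_S P K L a t x x = 0 := by
  classical
  unfold M3G3_S
  refine Finset.sum_eq_zero fun s _ => ?_
  rw [if_neg]
  rintro ⟨_, hb⟩
  have h := (hE.lt s).ne
  rcases hb with ⟨h1, h2⟩ | ⟨h1, h2⟩
  · exact h (h1.symm.trans h2)
  · exact h (h2.symm.trans h1)

open Classical in
theorem M3G3_split {A : Type*} [AddCommMonoid A] (P : ℕ) (K L : ℕ → Fin n) (a : ℕ → A) (i j k l : Fin n) :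
    ∑ s ∈ Finset.range (3 * P), (if Stp P K L s i j k l then a s else 0) =
      M3G3_S P K L a 0 i k + M3G3_S P K L a 1 k l + M3G3_S P K L a 2 l j := by
  unfold M3G3_S
  rw [← Finset.sum_add_distrib, ← Finset.sum_add_distrib]
  refine Finset.sum_congr rfl fun s _ => ?_
  by_cases h0 : s / P = 0 ∧ Bet K L s i k
  · rw [if_pos (show Stp P K L s i j k l from Or.inl h0), if_pos h0, if_neg (fun h => by omega), if_neg (fun h => by omega), add_zero, add_zero]
  · by_cases h1 : s / P = 1 ∧ Bet K L s k l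
    · rw [if_pos (show Stp P K L s i j k l from Or.inr (Or.inl h1)), if_neg h0, if_pos h1, if_neg (fun h => by omega), add_zero, zero_add]
    · by_cases h2 : s / P = 2 ∧ Bet K L s l j
      · rw [if_pos (show Stp P K L s i j k l from Or.inr (Or.inr h2)), if_neg h0, if_neg h1, if_pos h2, add_zero, zero_add]
      · rw [if_neg, if_neg h0, if_neg h1, if_neg h2, add_zero, add_zero]
        rintro (h | h | h)
        · exact h0 h
        · exact h1 h
        · exact h2 h

/-- All constant coefficients of the letters of cheapest chains are `0`: `rel` for `(i, j)`, `(k, j)`, `(i, l)`. -/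
theorem rel_zero {P : ℕ} {K L : ℕ → Fin n} (hP : 0 < P) (hE : Enm P K L)
    {c : ℕ → Fin n → Fin n → ℕ}
    (hc : Str c) (he : Exact K L (bw P K L c) (3 * P)) (lam : ℕ → R)
    (hlam : ∑ s ∈ Finset.range (3 * P), lam s • GG K L (bw P K L c) (3 * P) s = 0)
    {i j k l : Fin n} (hO : Opt c i j k l) {s : ℕ} (hs : s < 3 * P) (h : Stp P K L s i j k l) :
    PowerSeries.coeff 0 (lam s) = 0 := by
  have r1 := rel hP hE hc he lam hlam hO
  have r2 := rel hP hE hc he lam hlam (Opt.right hc hO)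
  have r3 := rel hP hE hc he lam hlam (Opt.left hc hO)
  rw [M3G3_split P K L (fun s => PowerSeries.coeff 0 (lam s))] at r1 r2 r3
  rw [M3G3_diag hE] at r2 r3
  rw [zero_add] at r2
  rw [add_zero] at r3
  have hA : M3G3_S P K L (fun s => PowerSeries.coeff 0 (lam s)) 0 i k = 0 := by
    rw [add_assoc, r2, add_zero] at r1
    exact r1
  have hC : M3G3_S P K L (fun s => PowerSeries.coeff 0 (lam s)) 2 l j = 0 := by
    rw [r3, zero_add] at r1
    exact r1
  have hB : M3G3_S P K L (fun s => PowerSeries.coeff 0 (lam s)) 1 k l = 0 := by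
    rw [hA, zero_add] at r3
    exact r3
  rcases h with ⟨h1, hb⟩ | ⟨h1, hb⟩ | ⟨h1, hb⟩
  · rw [M3G3_single hP hE _ hs h1 hb] at hA
    exact hA
  · rw [M3G3_single hP hE _ hs h1 hb] at hB
    exact hB
  · rw [M3G3_single hP hE _ hs h1 hb] at hC
    exact hC

end Gossip
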