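import Mathlib
import Pool.Agent.Lib.MP_8f6a89_co.M3G3

set_option autoImplicit false

namespace Gossip

open scoped ENNReal
open Matrix

variable {n : ℕ}

/-- a symmetric matrix with zero row sums and zero entries above the diagonal is zero -/
theorem M3H_zero {Z : Matrix (Fin n) (Fin n) R} (hs : ∀ i j, Z i j = Z j i)
    (hr : ∀ i, ∑ j, Z i j = 0) (h : ∀ i j, i < j → Z i j = 0) : Z = 0 := by
  have hoff : ∀ i j, i ≠ j → Z i j = 0 := by
    intro i j hij
    rcases lt_or_gt_of_ne hij with h1 | h1
    · exact h i j h1
    · rw [hs]; exact h j i h1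
  ext i j
  by_cases hij : i = j
  · subst hij
    have := hr i
    rw [Finset.sum_eq_single i (fun k _ hk => hoff i k hk.symm) (fun hi => absurd (Finset.mem_univ i) hi)] at this
    rw [this]; rfl
  · rw [hoff i j hij]; rfl

theorem M3H_card (n : ℕ) : Fintype.card {p : Fin n × Fin n // p.1 < p.2} = n.choose 2 := by
  rw [Fintype.card_subtype, Finset.card_filter, Fintype.sum_prod_type_right]
  have : ∀ j : Fin n, (∑ i : Fin n, if i < j then 1 else 0) = (j : ℕ) := by
    intro j
    rw [← Finset.card_filter]
    have : (Finset.univ.filter fun i : Fin n => i < j) = Finset.Iio j := by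
      ext i; simp
    rw [this, Fin.card_Iio]
  rw [Finset.sum_congr rfl fun j _ => this j, Fin.sum_univ_eq_sum_range (fun i => i) n,
    Finset.sum_range_id, Nat.choose_two_right]

/-- The letters of cheapest chains are at most `n.choose 2`. The off-diagonal entries (`p.1 < p.2`) of the matrices `ZZ s`,
`s ∈ S`, are linearly independent: if `∑ lam s • ZZ s` has zero off-diagonal entries it is `0` (`ZZ_symm`, `ZZ_row`), so
`∑ lam s • GG s = 0` (`PM_mul_ZZ`), so the constant coefficients vanish (`rel_zero`); then divide by `X` and repeat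
(induction on the index of the coefficient). -/
theorem card_steps {P : ℕ} {K L : ℕ → Fin n} (hP : 0 < P) (hE : Enm P K L)
    {c : ℕ → Fin n → Fin n → ℕ} (hc : Str c) (he : Exact K L (bw P K L c) (3 * P))
    (S : Finset ℕ) (hS : ∀ s ∈ S, s < 3 * P ∧ ∃ i j k l, Opt c i j k l ∧ Stp P K L s i j k l) :
    S.card ≤ n.choose 2 := by
  classical
  obtain ⟨b, hb⟩ : ∃ b, b = bw P K L c := ⟨_, rfl⟩
  rw [← hb] at he
  obtain ⟨N, hN⟩ : ∃ N, N = 3 * P := ⟨_, rfl⟩
  -- the statement to be iterated
  have key : ∀ lam : ℕ → R, (∀ s, s ∉ S → lam s = 0) →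
      (∀ i j, i < j → ∑ s ∈ S, lam s * ZZ K L b N s i j = 0) →
      ∀ s ∈ S, PowerSeries.coeff 0 (lam s) = 0 := by
    intro lam hlam0 hlam s hs
    have hZ : ∑ s ∈ S, lam s • ZZ K L b N s = 0 := by
      apply M3H_zero
      · intro i j
        rw [Matrix.sum_apply, Matrix.sum_apply]
        refine Finset.sum_congr rfl fun s _ => ?_
        rw [Matrix.smul_apply, Matrix.smul_apply, ZZ_symm]
      · intro i
        simp only [Matrix.sum_apply, Matrix.smul_apply, smul_eq_mul]
        rw [Finset.sum_comm]
        refine Finset.sum_eq_zero fun s _ => ?_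
        rw [← Finset.mul_sum, ZZ_row hE.ne, mul_zero]
      · intro i j hij
        rw [Matrix.sum_apply]
        exact hlam i j hij
    have hG : ∑ s ∈ Finset.range (3 * P), lam s • GG K L (bw P K L c) (3 * P) s = 0 := by
      rw [← hb, ← hN]
      have h1 : ∑ s ∈ S, lam s • GG K L b N s = 0 := by
        have h2 : ∀ s ∈ S, lam s • GG K L b N s = PM K L b 0 N * (lam s • ZZ K L b N s) := by
          intro s hs
          rw [Matrix.mul_smul, PM_mul_ZZ hE.ne (by rw [hN]; exact (hS s hs).1)]
        rw [Finset.sum_congr rfl h2, ← Matrix.mul_sum, hZ, Matrix.mul_zero]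
      rw [← h1]
      symm
      apply Finset.sum_subset
      · intro s hs
        rw [Finset.mem_range, hN]
        exact (hS s hs).1
      · intro s _ hs
        rw [hlam0 s hs, zero_smul]
    obtain ⟨h1, i, j, k, l, hO, hst⟩ := hS s hs
    rw [hb] at he
    exact rel_zero hP hE hc he lam hG hO h1 hst
  -- iterate
  have key2 : ∀ (m : ℕ) (lam : ℕ → R), (∀ s, s ∉ S → lam s = 0) →
      (∀ i j, i < j → ∑ s ∈ S, lam s * ZZ K L b N s i j = 0) →
      ∀ s ∈ S, PowerSeries.coeff m (lam s) = 0 := by
    intro m
    induction m with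
    | zero => exact key
    | succ m ih =>
      intro lam h0 h1 s hs
      have h2 := key lam h0 h1
      have hdvd : ∀ s, ∃ q : R, lam s = PowerSeries.X * q := by
        intro s
        by_cases hs : s ∈ S
        · have h3 := h2 s hs
          rw [PowerSeries.coeff_zero_eq_constantCoeff] at h3
          exact PowerSeries.X_dvd_iff.2 h3
        · exact ⟨0, by rw [h0 s hs, mul_zero]⟩
      choose q hq using hdvd
      have hX : (PowerSeries.X : R) ≠ 0 := PowerSeries.X_ne_zero
      have h3 := ih q (fun s hs => by
        have h4 := hq s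
        rw [h0 s hs] at h4
        rcases mul_eq_zero.1 h4.symm with h5 | h5
        · exact absurd h5 hX
        · exact h5) (fun i j hij => by
        have h4 := h1 i j hij
        have h5 : ∑ s ∈ S, lam s * ZZ K L b N s i j =
            PowerSeries.X * ∑ s ∈ S, q s * ZZ K L b N s i j := by
          rw [Finset.mul_sum]
          refine Finset.sum_congr rfl fun s _ => ?_
          rw [hq s, mul_assoc]
        rw [h5] at h4
        rcases mul_eq_zero.1 h4 with h6 | h6
        · exact absurd h6 hX
        · exact h6) s hs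
      rw [hq s, PowerSeries.coeff_succ_X_mul]
      exact h3
  -- linear independence
  have hli : LinearIndependent R (fun s : S => (fun p : {p : Fin n × Fin n // p.1 < p.2} =>
      ZZ K L b N (s : ℕ) p.1.1 p.1.2)) := by
    rw [Fintype.linearIndependent_iff]
    intro g hg s
    obtain ⟨lam, hlamdef⟩ : ∃ lam : ℕ → R, lam = fun t => if h : t ∈ S then g ⟨t, h⟩ else 0 :=
      ⟨_, rfl⟩
    have h0 : ∀ s, s ∉ S → lam s = 0 := by
      intro s hs
      rw [hlamdef]
      exact dif_neg hs
    have h1 : ∀ i j, i < j → ∑ s ∈ S, lam s * ZZ K L b N s i j = 0 := by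
      intro i j hij
      have h2 := congrFun hg ⟨(i, j), hij⟩
      rw [Finset.sum_apply] at h2
      rw [← Finset.sum_coe_sort S]
      rw [Pi.zero_apply] at h2
      rw [← h2]
      refine Finset.sum_congr rfl fun t _ => ?_
      have h3 : lam (t : ℕ) = g t := by
        rw [hlamdef]
        exact dif_pos t.2
      rw [h3]
      rfl
    have h4 : lam (s : ℕ) = 0 := by
      ext m
      rw [key2 m lam h0 h1 s s.2]
      simp
    have h3 : lam (s : ℕ) = g s := by
      rw [hlamdef]
      exact dif_pos s.2
    rw [← h3, h4]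
  have hcard := hli.fintype_card_le_finrank
  rw [Module.finrank_fintype_fun_eq_card, M3H_card, Fintype.card_coe] at hcard
  exact hcard

end Gossip
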