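import Mathlib
import Pool.Agent.Lib.MP_8f6a89_co.M3A
import Pool.Agent.Lib.MP_8f6a89_co.ApC

set_option autoImplicit false

namespace Gossip

open scoped ENNReal

variable {n : ℕ}

theorem M3I_ceil (y : ℝ≥0∞) (hy : y ≠ ⊤) :
    y ≤ ((⌈y.toReal⌉₊ : ℕ) : ℝ≥0∞) ∧ ((⌈y.toReal⌉₊ : ℕ) : ℝ≥0∞) ≤ y + 1 := by
  lift y to NNReal using hy
  rw [ENNReal.coe_toReal]
  constructor
  · have h : (y : ℝ) ≤ (⌈(y : ℝ)⌉₊ : ℝ) := Nat.le_ceil _
    have h2 : y ≤ ((⌈(y : ℝ)⌉₊ : ℕ) : NNReal) := by exact_mod_cast h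
    exact_mod_cast h2
  · have h : (⌈(y : ℝ)⌉₊ : ℝ) < y + 1 := Nat.ceil_lt_add_one y.coe_nonneg
    have h2 : ((⌈(y : ℝ)⌉₊ : ℕ) : NNReal) ≤ y + 1 := by exact_mod_cast h.le
    exact_mod_cast h2

theorem M3I_min (a b c : ℝ≥0∞) : min (a + b) c ≤ min a c + min b c := by
  rcases le_total a c with h1 | h1
  · rcases le_total b c with h2 | h2
    · rw [min_eq_left h1, min_eq_left h2]
      exact min_le_left _ _
    · rw [min_eq_right h2]
      exact (min_le_right _ _).trans le_add_self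
  · rw [min_eq_right h1]
    exact (min_le_right _ _).trans le_self_add

/-- the capped value -/
noncomputable def M3I_y (D : ℕ → Fin n → Fin n → ℝ≥0∞) (M t : ℕ) (i j : Fin n) : ℝ≥0∞ :=
  min ((M : ℝ≥0∞) * D t i j) ((M : ℝ≥0∞) * M)

/-- the integer value -/
noncomputable def M3I_e (D : ℕ → Fin n → Fin n → ℝ≥0∞) (M t : ℕ) (i j : Fin n) : ℕ :=
  ⌈(M3I_y D M t i j).toReal⌉₊

theorem M3I_y_ne (D : ℕ → Fin n → Fin n → ℝ≥0∞) (M t : ℕ) (i j : Fin n) :
    M3I_y D M t i j ≠ ⊤ :=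
  (lt_of_le_of_lt (min_le_right _ _)
    (ENNReal.mul_lt_top (ENNReal.natCast_lt_top M) (ENNReal.natCast_lt_top M))).ne

theorem M3I_e_diag (D : ℕ → Fin n → Fin n → ℝ≥0∞) (hD0 : ∀ t i, D t i i = 0) (M t : ℕ) (i : Fin n) :
    M3I_e D M t i i = 0 := by
  unfold M3I_e M3I_y
  rw [hD0, mul_zero]
  simp

theorem M3I_e_symm (D : ℕ → Fin n → Fin n → ℝ≥0∞) (hDs : ∀ t i j, D t i j = D t j i) (M t : ℕ)
    (i j : Fin n) : M3I_e D M t i j = M3I_e D M t j i := by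
  unfold M3I_e M3I_y
  rw [hDs]

theorem M3I_e_tri (D : ℕ → Fin n → Fin n → ℝ≥0∞) (hDt : ∀ t i j k, D t i k ≤ D t i j + D t j k)
    (M t : ℕ) (i j k : Fin n) : M3I_e D M t i k ≤ M3I_e D M t i j + M3I_e D M t j k := by
  have h1 : M3I_y D M t i k ≤ M3I_y D M t i j + M3I_y D M t j k := by
    unfold M3I_y
    refine le_trans (min_le_min_right _ ?_) (M3I_min _ _ _)
    rw [← mul_add]
    exact mul_le_mul_right (hDt t i j k) _
  have h2 : M3I_y D M t i k ≤ ((M3I_e D M t i j + M3I_e D M t j k : ℕ) : ℝ≥0∞) := by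
    refine h1.trans ?_
    push_cast
    exact add_le_add (M3I_ceil _ (M3I_y_ne D M t i j)).1 (M3I_ceil _ (M3I_y_ne D M t j k)).1
  have h3 : (M3I_y D M t i k).toReal ≤ ((M3I_e D M t i j + M3I_e D M t j k : ℕ) : ℝ) := by
    have h4 := ENNReal.toReal_mono (ENNReal.natCast_ne_top _) h2
    rwa [ENNReal.toReal_natCast] at h4
  exact Nat.ceil_le.2 h3

/-- the last digits -/
def M3I_dig (t : ℕ) (i j : Fin n) : ℕ :=
  if t = 0 then (i : ℕ) + j else if t = 2 then 2 * n * ((i : ℕ) + j) else 0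

theorem M3I_dig_lt (t : ℕ) (i j : Fin n) : M3I_dig t i j < 4 * n ^ 2 := by
  have hi := i.isLt
  have hj := j.isLt
  have hn : 1 ≤ n := by omega
  unfold M3I_dig
  split_ifs
  · nlinarith
  · have h1 : (i : ℕ) + j + 1 ≤ 2 * n := by omega
    have h2 : 2 * n * ((i : ℕ) + j + 1) ≤ 2 * n * (2 * n) := Nat.mul_le_mul_left _ h1
    have h3 : 2 * n * ((i : ℕ) + j + 1) = 2 * n * ((i : ℕ) + j) + 2 * n := by ring
    have h4 : 2 * n * (2 * n) = 4 * n ^ 2 := by ring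
    omega
  · positivity

/-- the new metrics -/
noncomputable def M3I_x (D : ℕ → Fin n → Fin n → ℝ≥0∞) (M t : ℕ) (i j : Fin n) : ℕ :=
  if i = j then 0 else 4 * n ^ 2 * (M3I_e D M t i j + 1) + M3I_dig t i j

theorem M3I_low (D : ℕ → Fin n → Fin n → ℝ≥0∞) (hD0 : ∀ t i, D t i i = 0) (M t : ℕ) (i j : Fin n) :
    4 * n ^ 2 * M3I_e D M t i j ≤ M3I_x D M t i j := by
  unfold M3I_x
  split_ifs with h
  · rw [h, M3I_e_diag D hD0]
    simp
  · rw [Nat.mul_add]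
    omega

theorem M3I_upp (D : ℕ → Fin n → Fin n → ℝ≥0∞) (M t : ℕ) (i j : Fin n) :
    M3I_x D M t i j < 4 * n ^ 2 * (M3I_e D M t i j + 2) := by
  have hi := i.isLt
  have hn : 1 ≤ n := by omega
  have hN : 0 < 4 * n ^ 2 := by positivity
  have h1 := M3I_dig_lt t i j
  unfold M3I_x
  split_ifs with h
  · positivity
  · calc 4 * n ^ 2 * (M3I_e D M t i j + 1) + M3I_dig t i j
        < 4 * n ^ 2 * (M3I_e D M t i j + 1) + 4 * n ^ 2 := by omega
      _ = _ := by ring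

theorem M3I_div {m u a u' a' : ℕ} (h : m * u + a = m * u' + a') (ha : a < m) (ha' : a' < m) :
    u = u' ∧ a = a' := by
  have h1 : (m * u + a) % m = a := by rw [Nat.mul_add_mod, Nat.mod_eq_of_lt ha]
  have h2 : (m * u' + a') % m = a' := by rw [Nat.mul_add_mod, Nat.mod_eq_of_lt ha']
  have h3 : a = a' := by rw [← h1, ← h2, h]
  have h4 : m * u = m * u' := by omega
  exact ⟨Nat.eq_of_mul_eq_mul_left (by omega) h4, h3⟩

theorem M3I_dig0 (i j : Fin n) : M3I_dig 0 i j = (i : ℕ) + j := by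
  unfold M3I_dig
  rw [if_pos rfl]

theorem M3I_dig1 (i j : Fin n) : M3I_dig 1 i j = 0 := by
  unfold M3I_dig
  rw [if_neg (by norm_num), if_neg (by norm_num)]

theorem M3I_dig2 (i j : Fin n) : M3I_dig 2 i j = 2 * n * ((i : ℕ) + j) := by
  unfold M3I_dig
  rw [if_neg (by norm_num), if_pos rfl]

theorem M3I_part0 (D : ℕ → Fin n → Fin n → ℝ≥0∞) (M : ℕ) (i j : Fin n) :
    ∃ q : ℕ, M3I_x D M 0 i j = 2 * n * (2 * n * q) + (if i = j then 0 else (i : ℕ) + j) := by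
  unfold M3I_x
  rw [M3I_dig0]
  split_ifs with h
  · exact ⟨0, by simp⟩
  · exact ⟨M3I_e D M 0 i j + 1, by ring⟩

theorem M3I_part1 (D : ℕ → Fin n → Fin n → ℝ≥0∞) (M : ℕ) (i j : Fin n) :
    ∃ q : ℕ, M3I_x D M 1 i j = 2 * n * (2 * n * q) := by
  unfold M3I_x
  rw [M3I_dig1]
  split_ifs with h
  · exact ⟨0, by simp⟩
  · exact ⟨M3I_e D M 1 i j + 1, by ring⟩

theorem M3I_part2 (D : ℕ → Fin n → Fin n → ℝ≥0∞) (M : ℕ) (i j : Fin n) :
    ∃ q : ℕ, M3I_x D M 2 i j = 2 * n * (2 * n * q + (if i = j then 0 else (i : ℕ) + j)) := by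
  unfold M3I_x
  rw [M3I_dig2]
  split_ifs with h
  · exact ⟨0, by simp⟩
  · exact ⟨M3I_e D M 2 i j + 1, by ring⟩

theorem M3I_inj (i k k' : Fin n)
    (h : (if i = k then 0 else (i : ℕ) + k) = (if i = k' then 0 else (i : ℕ) + k')) : k = k' := by
  split_ifs at h with h1 h2 h2
  · rw [← h1, ← h2]
  · exact absurd (Fin.ext (by omega)) h2
  · exact absurd (Fin.ext (by omega)) h1
  · exact Fin.ext (by omega)

theorem M3I_inj2 (j l l' : Fin n)
    (h : (if l = j then 0 else (l : ℕ) + j) = (if l' = j then 0 else (l' : ℕ) + j)) : l = l' := by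
  split_ifs at h with h1 h2 h2
  · rw [h1, h2]
  · exact absurd (Fin.ext (by omega)) h2
  · exact absurd (Fin.ext (by omega)) h1
  · exact Fin.ext (by omega)

theorem M3I_lt (i k : Fin n) : (if i = k then 0 else (i : ℕ) + k) < 2 * n := by
  have hi := i.isLt
  have hk := k.isLt
  split_ifs <;> omega

theorem M3I_str (D : ℕ → Fin n → Fin n → ℝ≥0∞)
    (hDs : ∀ t i j, D t i j = D t j i) (hDt : ∀ t i j k, D t i k ≤ D t i j + D t j k) (M : ℕ) :
    Str (M3I_x D M) where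
  diag := fun t i => by unfold M3I_x; rw [if_pos rfl]
  pos := fun t i j h => by
    have hi := i.isLt
    have hn : 1 ≤ n := by omega
    unfold M3I_x
    rw [if_neg h]
    positivity
  symm := fun t i j => by
    unfold M3I_x
    by_cases h : i = j
    · rw [if_pos h, if_pos h.symm]
    · rw [if_neg h, if_neg (Ne.symm h), M3I_e_symm D hDs]
      congr 1
      unfold M3I_dig
      rw [Nat.add_comm (i : ℕ) j]
  tri := fun t i j k hij hjk => by
    have hi := i.isLt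
    have hn : 1 ≤ n := by omega
    have hN : 0 < 4 * n ^ 2 := by positivity
    have h1 := M3I_dig_lt t i k
    have h2 := M3I_e_tri D hDt M t i j k
    have h3 : 4 * n ^ 2 * M3I_e D M t i k ≤ 4 * n ^ 2 * (M3I_e D M t i j + M3I_e D M t j k) :=
      Nat.mul_le_mul_left _ h2
    unfold M3I_x
    rw [if_neg hij, if_neg hjk]
    split_ifs with h
    · positivity
    · have e1 : 4 * n ^ 2 * (M3I_e D M t i k + 1) = 4 * n ^ 2 * M3I_e D M t i k + 4 * n ^ 2 := by ring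
      have e2 : 4 * n ^ 2 * (M3I_e D M t i j + 1) = 4 * n ^ 2 * M3I_e D M t i j + 4 * n ^ 2 := by ring
      have e3 : 4 * n ^ 2 * (M3I_e D M t j k + 1) = 4 * n ^ 2 * M3I_e D M t j k + 4 * n ^ 2 := by ring
      rw [Nat.mul_add] at h3
      rw [e1, e2, e3]
      omega
  uniq := fun i j k l k' l' h => by
    obtain ⟨q0, h0⟩ := M3I_part0 D M i k
    obtain ⟨q1, h1⟩ := M3I_part1 D M k l
    obtain ⟨q2, h2⟩ := M3I_part2 D M l j
    obtain ⟨p0, g0⟩ := M3I_part0 D M i k'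
    obtain ⟨p1, g1⟩ := M3I_part1 D M k' l'
    obtain ⟨p2, g2⟩ := M3I_part2 D M l' j
    unfold cst at h
    rw [h0, h1, h2, g0, g1, g2] at h
    have h3 : 2 * n * (2 * n * (q0 + q1 + q2) + (if l = j then 0 else (l : ℕ) + j)) +
        (if i = k then 0 else (i : ℕ) + k) =
        2 * n * (2 * n * (p0 + p1 + p2) + (if l' = j then 0 else (l' : ℕ) + j)) +
        (if i = k' then 0 else (i : ℕ) + k') := by
      generalize (if l = j then 0 else (l : ℕ) + j) = b at h ⊢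
      generalize (if l' = j then 0 else (l' : ℕ) + j) = b' at h ⊢
      generalize (if i = k then 0 else (i : ℕ) + k) = a at h ⊢
      generalize (if i = k' then 0 else (i : ℕ) + k') = a' at h ⊢
      linarith
    obtain ⟨h4, h5⟩ := M3I_div h3 (M3I_lt i k) (M3I_lt i k')
    obtain ⟨_, h6⟩ := M3I_div h4 (M3I_lt l j) (M3I_lt l' j)
    exact ⟨M3I_inj i k k' h5, M3I_inj2 j l l' h6⟩

theorem M3I_sum_low (D : ℕ → Fin n → Fin n → ℝ≥0∞) (M : ℕ) (i j k l : Fin n) :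
    min ((M : ℝ≥0∞) * (D 0 i k + D 1 k l + D 2 l j)) ((M : ℝ≥0∞) * M) ≤
      ((M3I_e D M 0 i k + M3I_e D M 1 k l + M3I_e D M 2 l j : ℕ) : ℝ≥0∞) := by
  rw [mul_add, mul_add]
  refine (M3I_min _ _ _).trans ?_
  push_cast
  refine add_le_add ((M3I_min _ _ _).trans (add_le_add ?_ ?_)) ?_
  · exact (M3I_ceil _ (M3I_y_ne D M 0 i k)).1
  · exact (M3I_ceil _ (M3I_y_ne D M 1 k l)).1
  · exact (M3I_ceil _ (M3I_y_ne D M 2 l j)).1

theorem M3I_sum_upp (D : ℕ → Fin n → Fin n → ℝ≥0∞) (M : ℕ) (i j k l : Fin n) :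
    ((M3I_e D M 0 i k + M3I_e D M 1 k l + M3I_e D M 2 l j : ℕ) : ℝ≥0∞) ≤
      (M : ℝ≥0∞) * (D 0 i k + D 1 k l + D 2 l j) + 3 := by
  have h1 : ∀ t a b, ((M3I_e D M t a b : ℕ) : ℝ≥0∞) ≤ (M : ℝ≥0∞) * D t a b + 1 := fun t a b =>
    (M3I_ceil _ (M3I_y_ne D M t a b)).2.trans (add_le_add (min_le_left _ _) le_rfl)
  push_cast
  refine (add_le_add (add_le_add (h1 0 i k) (h1 1 k l)) (h1 2 l j)).trans (le_of_eq ?_)
  ring

theorem M3I_event {a b : ℝ≥0∞} (h : a < b) :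
    ∀ᶠ M : ℕ in Filter.atTop, (M : ℝ≥0∞) * a + 9 ≤ min ((M : ℝ≥0∞) * b) ((M : ℝ≥0∞) * M) := by
  have ha : a ≠ ⊤ := (lt_of_lt_of_le h le_top).ne
  obtain ⟨m0, hm0⟩ := ENNReal.exists_nat_gt (r := a + 9) (ENNReal.add_ne_top.2 ⟨ha, by simp⟩)
  filter_upwards [eventually_scale (C := 9) h (by simp), Filter.eventually_ge_atTop m0,
    Filter.eventually_ge_atTop 1] with M h1 h2 h3
  refine le_min h1.le ?_
  have h4 : (1 : ℝ≥0∞) ≤ M := by exact_mod_cast h3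
  have h5 : (m0 : ℝ≥0∞) ≤ M := by exact_mod_cast h2
  calc (M : ℝ≥0∞) * a + 9 ≤ (M : ℝ≥0∞) * a + M * 9 := by
        refine add_le_add le_rfl ?_
        calc (9 : ℝ≥0∞) = 1 * 9 := (one_mul _).symm
          _ ≤ M * 9 := mul_le_mul_left h4 _
    _ = M * (a + 9) := (mul_add _ _ _).symm
    _ ≤ M * M := mul_le_mul_right (hm0.le.trans h5) _

/-- Step 1: natural strict metrics with different chain costs whose cheapest chains are cheapest for `D`.
`e t i j = ⌈(min (M * D t i j) (M * M)).toReal⌉₊` and `x t i j = if i = j then 0 else 4 * n ^ 2 * (e t i j + 1) + dig`, where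
`dig` is `i + j` for `t = 0`, `2 * n * (i + j)` for `t = 2` and `0` otherwise; `M` large. -/
theorem exists_str (D : ℕ → Fin n → Fin n → ℝ≥0∞) (hD0 : ∀ t i, D t i i = 0)
    (hDs : ∀ t i j, D t i j = D t j i) (hDt : ∀ t i j k, D t i k ≤ D t i j + D t j k) :
    ∃ x : ℕ → Fin n → Fin n → ℕ, Str x ∧ ∀ i j k l, Opt x i j k l → ∀ k' l',
      D 0 i k + D 1 k l + D 2 l j ≤ D 0 i k' + D 1 k' l' + D 2 l' j := by
  have hev : ∀ᶠ M : ℕ in Filter.atTop, ∀ i j k l k' l' : Fin n,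
      D 0 i k' + D 1 k' l' + D 2 l' j < D 0 i k + D 1 k l + D 2 l j →
      (M : ℝ≥0∞) * (D 0 i k' + D 1 k' l' + D 2 l' j) + 9 ≤
        min ((M : ℝ≥0∞) * (D 0 i k + D 1 k l + D 2 l j)) ((M : ℝ≥0∞) * M) := by
    simp only [Filter.eventually_all]
    intro i j k l k' l' h
    exact M3I_event h
  obtain ⟨M, hM⟩ := hev.exists
  refine ⟨M3I_x D M, M3I_str D hDs hDt M, fun i j k l hopt k' l' => ?_⟩
  by_contra hcon
  push Not at hcon
  have h1 := hM i j k l k' l' hcon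
  have h2 := M3I_sum_upp D M i j k' l'
  have h3 := M3I_sum_low D M i j k l
  have h4 : ((M3I_e D M 0 i k' + M3I_e D M 1 k' l' + M3I_e D M 2 l' j + 6 : ℕ) : ℝ≥0∞) ≤
      ((M3I_e D M 0 i k + M3I_e D M 1 k l + M3I_e D M 2 l j : ℕ) : ℝ≥0∞) := by
    refine le_trans ?_ (h1.trans h3)
    rw [Nat.cast_add]
    refine (add_le_add h2 (le_refl _)).trans (le_of_eq ?_)
    rw [add_assoc]
    congr 1
    norm_num
  have h5 : M3I_e D M 0 i k' + M3I_e D M 1 k' l' + M3I_e D M 2 l' j + 6 ≤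
      M3I_e D M 0 i k + M3I_e D M 1 k l + M3I_e D M 2 l j := by exact_mod_cast h4
  have h6 := hopt k' l'
  unfold cst at h6
  have l0 := M3I_low D hD0 M 0 i k
  have l1 := M3I_low D hD0 M 1 k l
  have l2 := M3I_low D hD0 M 2 l j
  have u0 := M3I_upp D M 0 i k'
  have u1 := M3I_upp D M 1 k' l'
  have u2 := M3I_upp D M 2 l' j
  have h7 := Nat.mul_le_mul_left (4 * n ^ 2) h5
  have e1 : 4 * n ^ 2 * (M3I_e D M 0 i k' + M3I_e D M 1 k' l' + M3I_e D M 2 l' j + 6) =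
      4 * n ^ 2 * (M3I_e D M 0 i k' + 2) + 4 * n ^ 2 * (M3I_e D M 1 k' l' + 2) +
      4 * n ^ 2 * (M3I_e D M 2 l' j + 2) := by ring
  have e2 : 4 * n ^ 2 * (M3I_e D M 0 i k + M3I_e D M 1 k l + M3I_e D M 2 l j) =
      4 * n ^ 2 * M3I_e D M 0 i k + 4 * n ^ 2 * M3I_e D M 1 k l + 4 * n ^ 2 * M3I_e D M 2 l j := by
    ring
  rw [e1, e2] at h7
  omega

end Gossip
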