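import Mathlib
import Pool.Agent.Lib.MP_8f6a89_co.M3A
import Pool.Agent.Lib.MP_8f6a89_co.ApC
import Pool.Agent.Lib.MP_8f6a89_co.MaD

set_option autoImplicit false

namespace Gossip

open scoped ENNReal

variable {n : ℕ}

theorem M3J_div {P : ℕ} (hP : 0 < P) (t : ℕ) {r : ℕ} (hr : r < P) : (t * P + r) / P = t := by
  rw [Nat.add_comm, Nat.add_mul_div_right _ _ hP, Nat.div_eq_of_lt hr, Nat.zero_add]

/-- a symmetric function of the pairs with given values at the letters -/
theorem M3J_exists {P : ℕ} {K L : ℕ → Fin n} (hE : Enm P K L) (b : ℕ → ℕ) :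
    ∃ c : ℕ → Fin n → Fin n → ℕ, (∀ t i, c t i i = 0) ∧ (∀ t i j, c t i j = c t j i) ∧
      ∀ i j, i < j → ∃ s, s < P ∧ K s = i ∧ L s = j ∧ ∀ t, c t i j = b (t * P + s) := by
  classical
  refine ⟨fun t i j => if h : i < j then b (t * P + (hE.ex i j h).choose) else
    if h : j < i then b (t * P + (hE.ex j i h).choose) else 0, ?_, ?_, ?_⟩
  · intro t i
    simp
  · intro t i j
    rcases lt_trichotomy i j with h | h | h
    · simp only [h, dif_pos, not_lt.2 h.le, dif_neg, not_false_eq_true]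
    · subst h; rfl
    · simp only [h, dif_pos, not_lt.2 h.le, dif_neg, not_false_eq_true]
  · intro i j h
    obtain ⟨h1, h2, h3⟩ := (hE.ex i j h).choose_spec
    exact ⟨_, h1, h2, h3, fun t => dif_pos h⟩

/-- Step 2: exact orders. Apply `exists_weights` to `β s = bw P K L x s`, `N = 3 * P`, `M = 3 * (7 * 6 ^ N) + 1`, and put
`c t i j = if i = j then 0 else b (t * P + s)` where `s < P` is the index of the pair (`Enm.ex`); `exact_pre`, `exact_suffix`. -/
theorem exists_exact {P : ℕ} {K L : ℕ → Fin n} (hP : 0 < P) (hE : Enm P K L)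
    {x : ℕ → Fin n → Fin n → ℕ} (hx : Str x) :
    ∃ c : ℕ → Fin n → Fin n → ℕ, Str c ∧ Exact K L (bw P K L c) (3 * P) ∧
      ∀ i j k l, Opt c i j k l → Opt x i j k l := by
  obtain ⟨C, hC⟩ : ∃ C : ℕ, C = 7 * 6 ^ (3 * P) := ⟨_, rfl⟩
  obtain ⟨M, hM⟩ : ∃ M : ℕ, M = 3 * C + 1 := ⟨_, rfl⟩
  obtain ⟨b, hb0, hb1, hb2, hb3, hb4⟩ := exists_weights (fun s => ((bw P K L x s : ℕ) : ℝ≥0∞))
    (fun s => (ENNReal.natCast_ne_top _).lt_top) M (3 * P)
  rw [← hC] at hb2
  have hb1' : ∀ s, M * bw P K L x s ≤ b s := fun s => by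
    have := hb1 s
    exact_mod_cast this
  have hb2' : ∀ s, b s ≤ M * bw P K L x s + C := fun s => by
    have := hb2 s
    exact_mod_cast this
  obtain ⟨c, hc0, hcs, hc⟩ := M3J_exists hE b
  -- the weights of the letters
  have hbw : bw P K L c = b := by
    funext s
    obtain ⟨s', h1, h2, h3, h4⟩ := hc (K s) (L s) (hE.lt s)
    unfold bw
    rw [h4 (s / P)]
    have h5 := hE.per (s % P) (s / P) (Nat.mod_lt _ hP)
    have h6 : s / P * P + s % P = s := by
      rw [Nat.mul_comm]
      exact Nat.div_add_mod s P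
    rw [h6] at h5
    have h7 := hE.inj s' (s % P) h1 (Nat.mod_lt _ hP) (h2.trans h5.1) (h3.trans h5.2)
    rw [h7, h6]
  -- bounds
  have hbd0 : ∀ t i j, i < j → M * x t i j ≤ c t i j ∧ c t i j ≤ M * x t i j + C ∧ 0 < c t i j := by
    intro t i j h
    obtain ⟨s, h1, h2, h3, h4⟩ := hc i j h
    have h5 : bw P K L x (t * P + s) = x t i j := by
      unfold bw
      rw [M3J_div hP t h1, (hE.per s t h1).1, (hE.per s t h1).2, h2, h3]
    rw [h4 t, ← h5]
    exact ⟨hb1' _, hb2' _, hb0 _⟩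
  have hbd : ∀ t i j, M * x t i j ≤ c t i j ∧ c t i j ≤ M * x t i j + C := by
    intro t i j
    rcases lt_trichotomy i j with h | h | h
    · exact ⟨(hbd0 t i j h).1, (hbd0 t i j h).2.1⟩
    · subst h
      rw [hc0, hx.diag]
      omega
    · rw [hcs, hx.symm]
      exact ⟨(hbd0 t j i h).1, (hbd0 t j i h).2.1⟩
  have hpos : ∀ t i j, i ≠ j → 0 < c t i j := by
    intro t i j h
    rcases lt_or_gt_of_ne h with h | h
    · exact (hbd0 t i j h).2.2
    · rw [hcs]
      exact (hbd0 t j i h).2.2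
  have hlt : ∀ i j k l k' l', cst x i j k l < cst x i j k' l' → cst c i j k l < cst c i j k' l' := by
    intro i j k l k' l' h
    have h1 := (hbd 0 i k).2
    have h2 := (hbd 1 k l).2
    have h3 := (hbd 2 l j).2
    have h4 := (hbd 0 i k').1
    have h5 := (hbd 1 k' l').1
    have h6 := (hbd 2 l' j).1
    unfold cst at h ⊢
    have h7 : M * (x 0 i k + x 1 k l + x 2 l j + 1) ≤ M * (x 0 i k' + x 1 k' l' + x 2 l' j) :=
      Nat.mul_le_mul_left _ h
    simp only [Nat.mul_add] at h7
    omega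
  refine ⟨c, ⟨hc0, hpos, hcs, ?_, ?_⟩, ?_, ?_⟩
  · intro t i j k hij hjk
    by_cases hik : i = k
    · subst hik
      rw [hc0]
      have := hpos t i j hij
      omega
    · have h1 := (hbd t i k).2
      have h2 := (hbd t i j).1
      have h3 := (hbd t j k).1
      have h4 : M * (x t i k + 1) ≤ M * (x t i j + x t j k) :=
        Nat.mul_le_mul_left _ (hx.tri t i j k hij hjk)
      simp only [Nat.mul_add] at h4
      omega
  · intro i j k l k' l' h
    rcases lt_trichotomy (cst x i j k l) (cst x i j k' l') with h1 | h1 | h1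
    · have := hlt i j k l k' l' h1
      omega
    · exact hx.uniq i j k l k' l' h1
    · have := hlt i j k' l' k l h1
      omega
  · rw [hbw]
    refine ⟨?_, ?_⟩
    · intro s hs i j
      refine exact_pre K L b hb0 (fun s => hE.ne s) 0 s (Nat.zero_le _) ?_ i j
      intro s' _ hs'
      obtain ⟨d, hd1, hd2⟩ := hb4 s' (by omega)
      exact ⟨d, fun r _ hr => hd1 r hr, hd2⟩
    · intro s hs i j
      refine exact_suffix K L b hb0 (fun s => hE.ne s) s (3 * P) hs ?_ i j
      intro s' _ hs'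
      obtain ⟨d, hd1, hd2⟩ := hb3 s' hs'
      exact ⟨d, fun r hr _ => hd1 r hr, hd2⟩
  · intro i j k l hopt k' l'
    by_contra hcon
    push Not at hcon
    have := hlt i j k' l' k l hcon
    have := hopt k' l'
    omega

end Gossip
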