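import Mathlib
import Pool.Agent.Lib.MP_8f6a89_co.CoD
import Pool.Agent.Lib.MP_8f6a89_co.ApC

/-!
# Gossip: words as functions
-/

set_option autoImplicit false

namespace Gossip

open scoped ENNReal

variable {n : ℕ}

/-- the two persons of every call are different -/
def Valid (w : List (Fin n × Fin n × ℝ≥0∞)) : Prop := ∀ c ∈ w, c.1 ≠ c.2.1

/-- deleting any single factor changes the product -/
def Irredundant (w : List (Fin n × Fin n × ℝ≥0∞)) : Prop := ∀ m, m < w.length → prod (w.eraseIdx m) ≠ prod w

theorem MnA_call_comm (k l : Fin n) (a : ℝ≥0∞) : call k l a = call l k a := by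
  funext i j
  unfold call
  by_cases h : i = j
  · simp [h]
  · simp only [if_neg h]
    by_cases h1 : (i = k ∧ j = l) ∨ (i = l ∧ j = k)
    · rw [if_pos h1, if_pos h1.symm]
    · rw [if_neg h1, if_neg (fun h2 => h1 h2.symm)]

theorem MnA_call_top (k l : Fin n) : call k l ⊤ = one := by
  funext i j
  unfold call one
  by_cases h : i = j
  · simp [h]
  · simp [h]

theorem MnA_prod_map (K L K' L' : ℕ → Fin n) (β : ℕ → ℝ≥0∞)
    (h : ∀ s, (K' s = K s ∧ L' s = L s) ∨ (K' s = L s ∧ L' s = K s)) (l : List ℕ) :
    prod (l.map fun s => (K' s, L' s, β s)) = prod (l.map fun s => (K s, L s, β s)) := by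
  induction l with
  | nil => rfl
  | cons s l ih =>
    simp only [List.map_cons, prod]
    rw [ih]
    rcases h s with ⟨h1, h2⟩ | ⟨h1, h2⟩
    · rw [h1, h2]
    · rw [h1, h2, MnA_call_comm]

/-- `call k l a = call l k a`; `T` does not change if some letters are written in the other direction. -/
theorem T_swap (K L K' L' : ℕ → Fin n) (β : ℕ → ℝ≥0∞)
    (h : ∀ s, (K' s = K s ∧ L' s = L s) ∨ (K' s = L s ∧ L' s = K s)) (a c : ℕ) :
    T K' L' β a c = T K L β a c := by
  unfold T wd
  exact MnA_prod_map K L K' L' β h _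

/-- A valid nonempty word as functions. Take `w.getD s (w.head ..)`. -/
theorem exists_functions (w : List (Fin n × Fin n × ℝ≥0∞)) (hw : Valid w) (hne : w ≠ [])
    (hfin : ∀ c ∈ w, c.2.2 < ⊤) :
    ∃ (K L : ℕ → Fin n) (β : ℕ → ℝ≥0∞), (∀ s, K s ≠ L s) ∧ (∀ s, β s < ⊤) ∧
      ∀ a c, a ≤ c → c ≤ w.length → wd K L β a c = (w.drop a).take (c - a) := by
  have hmem : ∀ s, w.getD s (w.head hne) ∈ w := by
    intro s
    by_cases hs : s < w.length
    · rw [List.getD_eq_getElem _ _ hs]
      exact List.getElem_mem hs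
    · rw [List.getD_eq_default _ _ (not_lt.1 hs)]
      exact List.head_mem hne
  refine ⟨fun s => (w.getD s (w.head hne)).1, fun s => (w.getD s (w.head hne)).2.1,
    fun s => (w.getD s (w.head hne)).2.2, fun s => hw _ (hmem s), fun s => hfin _ (hmem s), ?_⟩
  intro a c hac hc
  unfold wd
  refine List.ext_getElem ?_ ?_
  · simp only [List.length_map, List.length_range', List.length_take, List.length_drop]
    omega
  · intro i h1 h2
    simp only [List.length_map, List.length_range'] at h1
    simp only [List.getElem_map, List.getElem_range', List.getElem_take, List.getElem_drop, one_mul, Prod.mk.eta]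
    rw [List.getD_eq_getElem _ _ (by omega)]

/-- `call k l ⊤ = one`, so a letter with weight `⊤` can be deleted: `w = u ++ c :: v`, `List.eraseIdx_append..`
(`List.eraseIdx_eq_take_drop_succ`), `prod_append`, `one_mul'`. -/
theorem weight_lt_top (w : List (Fin n × Fin n × ℝ≥0∞)) (hi : Irredundant w) : ∀ c ∈ w, c.2.2 < ⊤ := by
  intro c hc
  by_contra hlt
  have hc2 : c.2.2 = ⊤ := by
    by_contra h
    exact hlt (lt_top_iff_ne_top.2 h)
  obtain ⟨u, v, rfl⟩ := List.append_of_mem hc
  refine hi u.length ?_ ?_
  · simp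
  · have h1 : (u ++ c :: v).eraseIdx u.length = u ++ v := by
      rw [List.eraseIdx_append_of_length_le le_rfl]
      simp
    rw [h1, prod_append, prod_append]
    have h2 : prod (c :: v) = prod v := by
      show mul (call c.1 c.2.1 c.2.2) (prod v) = prod v
      rw [hc2, MnA_call_top, one_mul']
    rw [h2]

end Gossip
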