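import Mathlib
import Pool.Agent.Lib.MP_8f6a89_co.MnA

/-!
# Gossip: witness pairs of an irredundant word
-/

set_option autoImplicit false

namespace Gossip

open scoped ENNReal

variable {n : ℕ}

/-- one letter: the optimal path of some pair needs it, in one of the two directions -/
theorem MnB_aux (K L : ℕ → Fin n) (β : ℕ → ℝ≥0∞) (hKL : ∀ s, K s ≠ L s) {N t : ℕ} (ht : t < N)
    (hne : mul (T K L β 0 t) (T K L β (t + 1) N) ≠ T K L β 0 N) :
    ∃ i j k l : Fin n, ((k = K t ∧ l = L t) ∨ (k = L t ∧ l = K t)) ∧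
      ∀ m, T K L β 0 t i k + β t + T K L β (t + 1) N l j <
        T K L β 0 t i m + T K L β (t + 1) N m j := by
  have h1 : ∃ i j, mul (T K L β 0 t) (T K L β (t + 1) N) i j ≠ T K L β 0 N i j := by
    by_contra hcon
    refine hne ?_
    funext i j
    by_contra hc
    exact hcon ⟨i, j, hc⟩
  obtain ⟨i, j, hij⟩ := h1
  have hle : T K L β 0 N i j ≤ mul (T K L β 0 t) (T K L β (t + 1) N) i j := by
    refine le_iInf fun m => ?_
    refine (T_le K L β (Nat.zero_le t) ht.le i m j).trans ?_
    gcongr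
    exact T_mono_left K L β (Nat.le_succ t) ht m j
  have hlt : T K L β 0 N i j < mul (T K L β 0 t) (T K L β (t + 1) N) i j :=
    lt_of_le_of_ne hle (Ne.symm hij)
  have hall : ∀ m, T K L β 0 N i j < T K L β 0 t i m + T K L β (t + 1) N m j := fun m =>
    lt_of_lt_of_le hlt (iInf_le _ m)
  obtain ⟨m, hm⟩ := T_exists K L β (Nat.zero_le t) ht.le i j
  by_cases hmK : m = K t
  · have hf := T_first K L β ht (hKL t) (Or.inl ⟨rfl, rfl⟩ : Bet K L t (K t) (L t)) j
    rw [hmK, hf] at hm
    rcases min_choice (T K L β (t + 1) N (K t) j) (β t + T K L β (t + 1) N (L t) j) with h | h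
    · rw [h] at hm
      exact absurd hm (hall (K t)).ne
    · rw [h, ← add_assoc] at hm
      refine ⟨i, j, K t, L t, Or.inl ⟨rfl, rfl⟩, fun m' => ?_⟩
      rw [← hm]
      exact hall m'
  by_cases hmL : m = L t
  · have hf := T_first K L β ht (hKL t) (Or.inr ⟨rfl, rfl⟩ : Bet K L t (L t) (K t)) j
    rw [hmL, hf] at hm
    rcases min_choice (T K L β (t + 1) N (L t) j) (β t + T K L β (t + 1) N (K t) j) with h | h
    · rw [h] at hm
      exact absurd hm (hall (L t)).ne
    · rw [h, ← add_assoc] at hm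
      refine ⟨i, j, L t, K t, Or.inr ⟨rfl, rfl⟩, fun m' => ?_⟩
      rw [← hm]
      exact hall m'
  · rw [T_first_other K L β ht hmK hmL j] at hm
    exact absurd hm (hall m).ne

/-- Witness pairs. Proof. Take `K L β` from `exists_functions`, `N = w.length`; then `prod w = T 0 N`, `prod (w.eraseIdx t) =
mul (T 0 t) (T (t+1) N)` (`List.eraseIdx_eq_take_drop_succ`, `prod_append`). `T 0 N ≤ mul (T 0 t) (T (t+1) N)` (`T_mono_left` inside
`T_split`), and they are different, so there are `i, j` with `T 0 N i j < mul (T 0 t) (T (t+1) N) i j`. By `T_exists` at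
`0, t, N` and `T_first`, `T_first_other` the left side is `T 0 t i m + T (t+1) N m j` for some `m` (impossible), or
`T 0 t i k + (β t + T (t+1) N l j)` with `Bet K L t k l`. Write the letter `t` in this direction (`choose`, `T_swap`; `call` is
symmetric): new functions `K', L'` with `K' t = k`, `L' t = l`. -/
theorem exists_witnesses (w : List (Fin n × Fin n × ℝ≥0∞)) (hw : Valid w) (hi : Irredundant w) (hne : w ≠ []) :
    ∃ (K L : ℕ → Fin n) (β : ℕ → ℝ≥0∞) (i j : ℕ → Fin n), (∀ s, K s ≠ L s) ∧ (∀ s, β s < ⊤) ∧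
      ∀ t, t < w.length → Wit K L β w.length t (i t) (j t) := by
  obtain ⟨K, L, β, hKL, hβ, hwd⟩ := exists_functions w hw hne (weight_lt_top w hi)
  have hT : T K L β 0 w.length = prod w := by
    rw [T, hwd 0 w.length (Nat.zero_le _) le_rfl]
    simp
  have hE : ∀ t, t < w.length →
      mul (T K L β 0 t) (T K L β (t + 1) w.length) = prod (w.eraseIdx t) := by
    intro t ht
    rw [T, T, hwd 0 t (Nat.zero_le _) ht.le, hwd (t + 1) w.length ht le_rfl,
      List.eraseIdx_eq_take_drop_succ, prod_append]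
    congr 2
    exact List.take_of_length_le (by rw [List.length_drop])
  have key : ∀ t, ∃ i j k l : Fin n, ((k = K t ∧ l = L t) ∨ (k = L t ∧ l = K t)) ∧
      (t < w.length → ∀ m, T K L β 0 t i k + β t + T K L β (t + 1) w.length l j <
        T K L β 0 t i m + T K L β (t + 1) w.length m j) := by
    intro t
    by_cases ht : t < w.length
    · obtain ⟨i, j, k, l, h1, h2⟩ := MnB_aux K L β hKL ht (by
        rw [hE t ht, hT]
        exact hi t ht)
      exact ⟨i, j, k, l, h1, fun _ => h2⟩
    · exact ⟨K t, K t, K t, L t, Or.inl ⟨rfl, rfl⟩, fun h => absurd h ht⟩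
  choose i j K' L' hK hW using key
  refine ⟨K', L', β, i, j, ?_, hβ, ?_⟩
  · intro s
    rcases hK s with ⟨h1, h2⟩ | ⟨h1, h2⟩
    · rw [h1, h2]
      exact hKL s
    · rw [h1, h2]
      exact (hKL s).symm
  · intro t ht m
    rw [DD, T_swap K L K' L' β hK, T_swap K L K' L' β hK]
    exact hW t ht m

end Gossip
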