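import Mathlib
import Pool.Agent.Lib.MP_8f6a89_co.MnB

/-!
# Gossip: irredundant products have at most (n + 1).choose 3 factors
-/

set_option autoImplicit false

namespace Gossip

open scoped ENNReal

variable {n : ℕ}

/-- Proof. Empty word: trivial. Otherwise `exists_witnesses`, `exists_nat_weights`, `exact_pre`, `exact_suffix`, `core`. -/
theorem length_le (w : List (Fin n × Fin n × ℝ≥0∞)) (hw : Valid w) (hi : Irredundant w) :
    w.length ≤ (n + 1).choose 3 := by
  by_cases hne : w = []
  · rw [hne, List.length_nil]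
    exact Nat.zero_le _
  obtain ⟨K, L, β, i, j, hKL, hβ, hW⟩ := exists_witnesses w hw hi hne
  obtain ⟨b, hb, hWb, hd1, hd2⟩ := exists_nat_weights K L β hβ w.length i j hW
  refine core (b := b) hb hKL ⟨fun s hs i j => ?_, fun s hs i j => ?_⟩ i j hWb
  · refine exact_pre K L b hb hKL 0 s (Nat.zero_le _) (fun r _ hrs => ?_) i j
    obtain ⟨d, h1, h2⟩ := hd2 r (by omega)
    exact ⟨d, fun r' _ h' => h1 r' h', h2⟩
  · refine exact_suffix K L b hb hKL s w.length hs (fun r _ hrs => ?_) i j
    obtain ⟨d, h1, h2⟩ := hd1 r hrs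
    exact ⟨d, fun r' h' _ => h1 r' h', h2⟩

/-- Strong induction on the length: if `w` is not irredundant delete a factor (`List.mem_of_mem_eraseIdx`,
`List.length_eraseIdx`). -/
theorem exists_short (w : List (Fin n × Fin n × ℝ≥0∞)) (hw : Valid w) :
    ∃ w', Valid w' ∧ prod w' = prod w ∧ w'.length ≤ (n + 1).choose 3 := by
  induction h : w.length using Nat.strong_induction_on generalizing w with
  | _ N ih =>
    by_cases hi : Irredundant w
    · exact ⟨w, hw, rfl, length_le w hw hi⟩
    · rw [Irredundant] at hi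
      obtain ⟨m, hm⟩ := not_forall.1 hi
      obtain ⟨hm1, hm2⟩ := Classical.not_imp.1 hm
      have hm3 : prod (w.eraseIdx m) = prod w := not_not.1 hm2
      have hlen : (w.eraseIdx m).length < N := by
        rw [List.length_eraseIdx_of_lt hm1]
        omega
      obtain ⟨w', h1, h2, h3⟩ := ih (w.eraseIdx m).length hlen (w.eraseIdx m)
        (fun c hc => hw c (List.mem_of_mem_eraseIdx hc)) rfl
      exact ⟨w', h1, h2.trans hm3, h3⟩

end Gossip
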