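import Mathlib
import Pool.Agent.Lib.MP_8f6a89_co.M3B
import Pool.Agent.Lib.MP_8f6a89_co.M3H
import Pool.Agent.Lib.MP_8f6a89_co.M3I
import Pool.Agent.Lib.MP_8f6a89_co.M3J
import Pool.Agent.Lib.MP_8f6a89_co.MnC

set_option autoImplicit false

namespace Gossip

open scoped ENNReal

variable {n : ℕ}

/-- a product of letters is at least a metric that is at most the letters -/
theorem M3K_low (D : Fin n → Fin n → ℝ≥0∞) (h0 : ∀ i, D i i = 0)
    (hs : ∀ i j, D i j = D j i) (ht : ∀ i j k, D i k ≤ D i j + D j k)
    (w : List (Fin n × Fin n × ℝ≥0∞)) (hw : ∀ c ∈ w, D c.1 c.2.1 ≤ c.2.2) (i j : Fin n) :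
    D i j ≤ prod w i j := by
  induction w generalizing i with
  | nil =>
    show D i j ≤ if i = j then 0 else ⊤
    split_ifs with h
    · rw [h, h0]
    · exact le_top
  | cons c w ih =>
    show D i j ≤ ⨅ m, call c.1 c.2.1 c.2.2 i m + prod w m j
    refine le_iInf fun m => (ht i m j).trans (add_le_add ?_ (ih (fun c hc => hw c (List.mem_cons_of_mem _ hc)) m))
    unfold call
    split_ifs with h1 h2
    · rw [h1, h0]
    · rcases h2 with ⟨h3, h4⟩ | ⟨h3, h4⟩
      · rw [h3, h4]
        exact hw c List.mem_cons_self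
      · rw [h3, h4, hs]
        exact hw c List.mem_cons_self
    · exact le_top

theorem M3K_diag (w : List (Fin n × Fin n × ℝ≥0∞)) (i : Fin n) : prod w i i = 0 := by
  induction w with
  | nil => exact if_pos rfl
  | cons c w ih =>
    refine le_antisymm ?_ bot_le
    show ⨅ m, call c.1 c.2.1 c.2.2 i m + prod w m i ≤ 0
    refine (iInf_le _ i).trans ?_
    rw [ih, add_zero]
    exact le_of_eq (if_pos rfl)

theorem M3K_upp (w : List (Fin n × Fin n × ℝ≥0∞)) (c : Fin n × Fin n × ℝ≥0∞) (hc : c ∈ w)
    {i j : Fin n} (h : (i = c.1 ∧ j = c.2.1) ∨ (i = c.2.1 ∧ j = c.1)) : prod w i j ≤ c.2.2 := by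
  induction w with
  | nil => exact absurd hc List.not_mem_nil
  | cons c' w ih =>
    show ⨅ m, call c'.1 c'.2.1 c'.2.2 i m + prod w m j ≤ _
    rcases List.mem_cons.1 hc with he | hc
    · subst he
      refine (iInf_le _ j).trans ?_
      rw [M3K_diag, add_zero]
      unfold call
      split_ifs with h1
      · exact bot_le
      · exact le_rfl
    · refine (iInf_le _ i).trans ?_
      have : call c'.1 c'.2.1 c'.2.2 i i = 0 := if_pos rfl
      rw [this, zero_add]
      exact ih hc

/-- Three distance matrices: `exists_enm`, `exists_str`, `exists_exact`, `S` = the letters below `3 * P` that are steps of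
cheapest chains, the word = the letters of `S` in increasing order with the costs `D (s / P) (K s) (L s)`; lower bound
as in `low`, upper bound by the cheapest chain. -/
theorem three (D : ℕ → Fin n → Fin n → ℝ≥0∞) (hD0 : ∀ t i, D t i i = 0)
    (hDs : ∀ t i j, D t i j = D t j i) (hDt : ∀ t i j k, D t i k ≤ D t i j + D t j k) :
    ∃ w : List (Fin n × Fin n × ℝ≥0∞), Valid w ∧ w.length ≤ n.choose 2 ∧
      prod w = mul (mul (D 0) (D 1)) (D 2) := by
  classical
  rcases Nat.lt_or_ge n 2 with hn | hn
  · have hsub : ∀ i j : Fin n, i = j := by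
      intro i j
      ext
      have := i.2
      have := j.2
      omega
    refine ⟨[], fun c hc => absurd hc List.not_mem_nil, by simp, ?_⟩
    funext i j
    have hij := hsub i j
    subst hij
    have h1 : prod ([] : List (Fin n × Fin n × ℝ≥0∞)) i i = 0 := if_pos rfl
    rw [h1]
    symm
    refine le_antisymm ?_ bot_le
    show ⨅ m, (⨅ m', D 0 i m' + D 1 m' m) + D 2 m i ≤ 0
    refine (iInf_le _ i).trans ?_
    rw [hD0, add_zero]
    refine (iInf_le _ i).trans ?_
    rw [hD0, hD0, add_zero]
  · obtain ⟨K, L, hE⟩ := exists_enm hn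
    obtain ⟨P, hPd⟩ : ∃ P, P = n.choose 2 := ⟨_, rfl⟩
    rw [← hPd] at hE
    have hP : 0 < P := by rw [hPd]; exact Nat.choose_pos hn
    obtain ⟨x, hx, hxD⟩ := exists_str D hD0 hDs hDt
    obtain ⟨c, hc, he, hcx⟩ := exists_exact hP hE hx
    -- cheapest chains exist
    have hopt : ∀ i j : Fin n, ∃ k l, Opt c i j k l := by
      intro i j
      have : Nonempty (Fin n × Fin n) := ⟨(i, j)⟩
      obtain ⟨p, hp⟩ := Finite.exists_min (fun p : Fin n × Fin n => cst c i j p.1 p.2)
      exact ⟨p.1, p.2, fun k' l' => hp (k', l')⟩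
    set Q : ℕ → Prop := fun s => ∃ i j k l, Opt c i j k l ∧ Stp P K L s i j k l with hQ
    set blk : ℕ → List ℕ := fun t => (List.range' (t * P) P).filter (fun s => decide (Q s)) with hblk
    set f : ℕ → Fin n × Fin n × ℝ≥0∞ := fun s => (K s, L s, D (s / P) (K s) (L s)) with hf
    have hmem : ∀ t s, s ∈ blk t ↔ s / P = t ∧ Q s := by
      intro t s
      rw [hblk]
      simp only [List.mem_filter, List.mem_range'_1, decide_eq_true_eq]
      constructor
      · rintro ⟨⟨h1, h2⟩, h3⟩
        exact ⟨by rw [Nat.div_eq_iff hP]; constructor <;> [exact h1; (have := h2; omega)], h3⟩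
      · rintro ⟨h1, h3⟩
        refine ⟨?_, h3⟩
        rw [Nat.div_eq_iff hP] at h1
        constructor
        · exact h1.1
        · have := h1.2; omega
    -- the word
    set w := (blk 0).map f ++ ((blk 1).map f ++ (blk 2).map f) with hw
    refine ⟨w, ?_, ?_, ?_⟩
    · intro c' hc'
      rw [hw, List.mem_append, List.mem_append, List.mem_map, List.mem_map, List.mem_map] at hc'
      rcases hc' with ⟨s, _, rfl⟩ | ⟨s, _, rfl⟩ | ⟨s, _, rfl⟩ <;> exact hE.ne s
    · have hlen : w.length = (blk 0 ++ (blk 1 ++ blk 2)).length := by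
        rw [hw]
        simp only [List.length_append, List.length_map]
      have hnd : (blk 0 ++ (blk 1 ++ blk 2)).Nodup := by
        have h1 : ∀ t, (blk t).Nodup := fun t => List.Nodup.filter _ (List.nodup_range')
        rw [List.nodup_append, List.nodup_append]
        refine ⟨h1 0, ⟨h1 1, h1 2, ?_⟩, ?_⟩
        · intro a ha b hb hab
          subst hab
          have e1 := ((hmem 1 a).1 ha).1
          have e2 := ((hmem 2 a).1 hb).1
          omega
        · intro a ha b hb hab
          subst hab
          have e1 := ((hmem 0 a).1 ha).1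
          rcases List.mem_append.1 hb with hb | hb
          · have e2 := ((hmem 1 a).1 hb).1
            omega
          · have e2 := ((hmem 2 a).1 hb).1
            omega
      rw [hlen, ← List.toFinset_card_of_nodup hnd]
      apply card_steps hP hE hc he
      intro s hs
      rw [List.mem_toFinset, List.mem_append, List.mem_append, hmem, hmem, hmem] at hs
      have h3 : s / P < 3 ∧ Q s := by
        rcases hs with ⟨h1, h2⟩ | ⟨h1, h2⟩ | ⟨h1, h2⟩ <;> exact ⟨by omega, h2⟩
      exact ⟨(Nat.div_lt_iff_lt_mul hP).1 h3.1, h3.2⟩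
    · have hlow : ∀ t i j, D t i j ≤ prod ((blk t).map f) i j := by
        intro t i j
        refine M3K_low (D t) (hD0 t) (hDs t) (hDt t) _ ?_ i j
        intro c' hc'
        obtain ⟨s, hs, rfl⟩ := List.mem_map.1 hc'
        have e1 := ((hmem t s).1 hs).1
        show D t (K s) (L s) ≤ D (s / P) (K s) (L s)
        rw [e1]
      have hupp : ∀ t i j, (i ≠ j → ∃ s, s ∈ blk t ∧ Bet K L s i j) →
          prod ((blk t).map f) i j ≤ D t i j := by
        intro t i j h
        by_cases hij : i = j
        · subst hij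
          rw [M3K_diag]
          exact bot_le
        · obtain ⟨s, hs, hB⟩ := h hij
          have e1 := ((hmem t s).1 hs).1
          have h1 := M3K_upp ((blk t).map f) (f s) (List.mem_map_of_mem hs) (i := i) (j := j)
            (by
              rcases hB with ⟨h1, h2⟩ | ⟨h1, h2⟩
              · exact Or.inl ⟨h1, h2⟩
              · exact Or.inr ⟨h1, h2⟩)
          refine h1.trans (le_of_eq ?_)
          show D (s / P) (K s) (L s) = D t i j
          rw [e1]
          rcases hB with ⟨h2, h3⟩ | ⟨h2, h3⟩
          · rw [h2, h3]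
          · rw [h2, h3, hDs]
      have hprod : ∀ i j, prod w i j = ⨅ k, prod ((blk 0).map f) i k +
          ⨅ l, prod ((blk 1).map f) k l + prod ((blk 2).map f) l j := by
        intro i j
        rw [hw, prod_append, prod_append]
        rfl
      have hlet : ∀ t i j, i ≠ j → t < 3 → ∃ s, s / P = t ∧ Bet K L s i j := by
        intro t i j hij _
        rcases lt_or_gt_of_ne hij with h | h
        · obtain ⟨s, h1, h2, h3⟩ := hE.ex i j h
          refine ⟨t * P + s, ?_, Or.inl ⟨by rw [(hE.per s t h1).1, h2], by rw [(hE.per s t h1).2, h3]⟩⟩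
          rw [Nat.mul_comm, Nat.mul_add_div hP, Nat.div_eq_of_lt h1, Nat.add_zero]
        · obtain ⟨s, h1, h2, h3⟩ := hE.ex j i h
          refine ⟨t * P + s, ?_, Or.inr ⟨by rw [(hE.per s t h1).2, h3], by rw [(hE.per s t h1).1, h2]⟩⟩
          rw [Nat.mul_comm, Nat.mul_add_div hP, Nat.div_eq_of_lt h1, Nat.add_zero]
      funext i j
      rw [hprod]
      apply le_antisymm
      · obtain ⟨k, l, hO⟩ := hopt i j
        have hD := hxD i j k l (hcx i j k l hO)
        refine le_trans ?_ (le_iInf fun m => ?_ : D 0 i k + D 1 k l + D 2 l j ≤ _)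
        · refine (iInf_le _ k).trans ?_
          rw [add_assoc]
          refine add_le_add ?_ ((iInf_le _ l).trans (add_le_add ?_ ?_))
          · apply hupp
            intro hik
            obtain ⟨s, h1, h2⟩ := hlet 0 i k hik (by norm_num)
            exact ⟨s, (hmem 0 s).2 ⟨h1, i, j, k, l, hO, Or.inl ⟨h1, h2⟩⟩, h2⟩
          · apply hupp
            intro hkl
            obtain ⟨s, h1, h2⟩ := hlet 1 k l hkl (by norm_num)
            exact ⟨s, (hmem 1 s).2 ⟨h1, i, j, k, l, hO, Or.inr (Or.inl ⟨h1, h2⟩)⟩, h2⟩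
          · apply hupp
            intro hlj
            obtain ⟨s, h1, h2⟩ := hlet 2 l j hlj (by norm_num)
            exact ⟨s, (hmem 2 s).2 ⟨h1, i, j, k, l, hO, Or.inr (Or.inr ⟨h1, h2⟩)⟩, h2⟩
        · show _ ≤ (⨅ m', D 0 i m' + D 1 m' m) + D 2 m j
          rw [ENNReal.iInf_add]
          exact le_iInf fun m' => hD m' m
      · refine le_iInf fun k => ?_
        rw [ENNReal.add_iInf]
        refine le_iInf fun l => ?_
        rw [← add_assoc]
        refine (iInf_le _ l).trans (add_le_add ((iInf_le _ k).trans (add_le_add (hlow 0 i k) (hlow 1 k l)))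
          (hlow 2 l j))

end Gossip
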